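import Pool.Agent.H505.MF.Stm

set_option autoImplicit false

open Complex MeasureTheory Filter Topology
open scoped ContDiff Laplacian MatrixGroups

namespace Pool.Agent.H505.MF.AUT

open Pool.Agent.H505.MF

theorem e_int (n : ℤ) : cexp (2 * Real.pi * I * (n : ℂ)) = 1 := by
  have h := Complex.exp_int_mul_two_pi_mul_I n
  rw [← h]
  congr 1
  ring

variable {D : ℕ} (F : Fm D)

theorem qR_cast (p : ℤ × ℤ) : F.qR p.1 p.2 = ((F.q p : ℤ) : ℝ) := by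
  unfold Fm.qR Fm.q
  push_cast
  ring

theorem gs_shift (r : ℝ) (w : ℂ) (v : ℝ) (p : ℤ × ℤ) :
    F.gs ((r : ℂ) + w) v p = cexp (2 * Real.pi * I * ((r : ℂ) * ((F.q p : ℤ) : ℂ))) * F.gs w v p := by
  unfold Fm.gs Fm.gsR
  rw [← Complex.exp_add, qR_cast]
  congr 1
  simp only [Complex.add_re, Complex.ofReal_re, Complex.add_im, Complex.ofReal_im, zero_add]
  push_cast
  ring

theorem gs_int (k : ℤ) (w : ℂ) (v : ℝ) (p : ℤ × ℤ) :
    F.gs (w + (k : ℂ)) v p = F.gs w v p := by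
  have h := gs_shift F (k : ℝ) w v p
  have e : ((k : ℝ) : ℂ) + w = w + (k : ℂ) := by push_cast; ring
  rw [e] at h
  rw [h]
  have e2 : (((k : ℝ) : ℂ) * ((F.q p : ℤ) : ℂ)) = ((k * F.q p : ℤ) : ℂ) := by push_cast; ring
  rw [e2, e_int, one_mul]

theorem th_int (Φ : ℤ × ℤ → ℂ) (k : ℤ) (w : ℂ) (v : ℝ) : F.th Φ (w + (k : ℂ)) v = F.th Φ w v := by
  unfold Fm.th
  exact tsum_congr fun p => by rw [gs_int]

theorem q_shift (N : ℤ) (p h : ℤ × ℤ) :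
    N ∣ F.q (p.1 + N * h.1, p.2 + N * h.2) - F.q p := by
  unfold Fm.q
  refine ⟨F.A * (2 * p.1 * h.1 + N * h.1 ^ 2) + F.B * (p.1 * h.2 + h.1 * p.2 + N * h.1 * h.2) +
    F.C * (2 * p.2 * h.2 + N * h.2 ^ 2), ?_⟩
  ring

/-- `e(x / ℓ)` depends on `x` modulo `ℓ` -/
theorem e_div {ℓ : ℕ} (hℓ : 0 < ℓ) {x y : ℤ} (h : (ℓ : ℤ) ∣ x - y) :
    cexp (2 * Real.pi * I * (x : ℂ) / ℓ) = cexp (2 * Real.pi * I * (y : ℂ) / ℓ) := by
  obtain ⟨k, hk⟩ := h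
  have hx : x = y + ℓ * k := by linarith
  have hℓ' : (ℓ : ℂ) ≠ 0 := by exact_mod_cast hℓ.ne'
  have e : 2 * Real.pi * I * (x : ℂ) / ℓ = 2 * Real.pi * I * (y : ℂ) / ℓ + 2 * Real.pi * I * (k : ℂ) := by
    rw [hx]
    push_cast
    field_simp
  rw [e, Complex.exp_add, e_int, mul_one]

theorem w_im {z Q : ℂ} {ℓ c : ℝ} (hℓ : 0 < ℓ) (hQ : Q = (c : ℂ) * z + (ℓ : ℂ)) (hQ0 : Q ≠ 0) :
    (z / ((ℓ : ℂ) * Q)).im = z.im / ‖Q‖ ^ 2 := by
  have h2 : z / ((ℓ : ℂ) * Q) = z * (starRingEnd ℂ) Q / ((ℓ * ‖Q‖ ^ 2 : ℝ) : ℂ) := by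
    have h3 : ((ℓ * ‖Q‖ ^ 2 : ℝ) : ℂ) = (ℓ : ℂ) * (Q * (starRingEnd ℂ) Q) := by
      rw [Complex.mul_conj, Complex.normSq_eq_norm_sq]
      push_cast
      ring
    rw [h3]
    have h4 : (starRingEnd ℂ) Q ≠ 0 := (map_ne_zero _).2 hQ0
    have h5 : (ℓ : ℂ) ≠ 0 := by exact_mod_cast hℓ.ne'
    field_simp
  have hn : 0 < ‖Q‖ := norm_pos_iff.2 hQ0
  rw [h2, Complex.div_ofReal_im]
  have h5 : (z * (starRingEnd ℂ) Q).im = z.im * ℓ := by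
    rw [hQ]
    simp only [map_add, map_mul, Complex.conj_ofReal, Complex.mul_im, Complex.add_im,
      Complex.add_re, Complex.mul_re, Complex.ofReal_re, Complex.ofReal_im, Complex.conj_re,
      Complex.conj_im]
    ring
  rw [h5]
  field_simp

/-- the main step: `d = ℓ` is a prime -/
theorem core (hPER : S_PER) (hSUP : S_SUP) (hFID : S_FID) (hD : D % 4 = 1) (P : ℤ × ℤ → ℂ)
    (hP : Wt D F P) (a b c' : ℤ) (ℓ : ℕ) (hℓ : ℓ.Prime) (hℓ2 : ℓ ≠ 2) (hℓA : ¬ (ℓ : ℤ) ∣ F.A)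
    (hℓD : ¬ ℓ ∣ D) (hdet : a * ℓ - b * (D ^ 2 * c') = 1) (z : ℂ) (hz : 0 < z.im) (v : ℝ)
    (c Q : ℂ) (hc : c = ((((D ^ 2 * c' : ℤ) : ℝ)) : ℂ)) (hQ : Q = c * z + (ℓ : ℂ)) (hQ0 : Q ≠ 0) :
    F.th P ((a * z + b) / Q) v = ((‖Q‖ : ℝ) : ℂ) * F.th P z v := by
  have hD0 : 0 < D := by omega
  have hDodd : Odd D := by
    rw [Nat.odd_iff]
    omega
  have hℓ0 : 0 < ℓ := hℓ.pos
  have hℓc : (ℓ : ℂ) ≠ 0 := by exact_mod_cast hℓ0.ne'
  have hDc : (D : ℂ) ≠ 0 := by exact_mod_cast hD0.ne'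
  have hz0 : z ≠ 0 := by
    rintro rfl
    simp at hz
  have hcz : (starRingEnd ℂ) z ≠ 0 := (map_ne_zero _).2 hz0
  obtain ⟨hper, hsup⟩ := hSUP D hDodd F P hP
  -- the inverse of `D` modulo `ℓ`
  obtain ⟨δ, hδ⟩ : ∃ δ : ℤ, (ℓ : ℤ) ∣ D * δ - 1 := by
    have hco : IsCoprime (D : ℤ) (ℓ : ℤ) := by
      rw [Nat.isCoprime_iff_coprime, Nat.coprime_comm]
      exact (Nat.Prime.coprime_iff_not_dvd hℓ).2 hℓD
    obtain ⟨u, w, huw⟩ := hco
    exact ⟨u, -w, by linarith⟩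
  obtain ⟨w1, hw1⟩ : ∃ w1, w1 = z / ((ℓ : ℂ) * Q) := ⟨_, rfl⟩
  have hcD : c = (D : ℂ) ^ 2 * c' := by rw [hc]; push_cast; ring
  have hdetc : (a : ℂ) * ℓ - b * c = 1 := by
    rw [hcD]
    exact_mod_cast hdet
  have e1 : (a * z + b) / Q = (((b : ℝ) / (ℓ : ℝ) : ℝ) : ℂ) + w1 := by
    rw [hw1]
    push_cast
    have h1 : (a * z + b) / Q - b / ℓ = z / ((ℓ : ℂ) * Q) := by
      rw [div_sub_div _ _ hQ0 hℓc, div_eq_div_iff (mul_ne_zero hQ0 hℓc) (mul_ne_zero hℓc hQ0)]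
      rw [hQ]
      linear_combination (z * (c * z + ℓ) * ℓ) * hdetc
    rw [← h1]
    ring
  -- the imaginary part of `w1` is positive
  have hn : 0 < ‖Q‖ := norm_pos_iff.2 hQ0
  have hw1im : 0 < w1.im := by
    rw [hw1]
    have h1 := w_im (z := z) (Q := Q) (ℓ := (ℓ : ℝ)) (c := ((D ^ 2 * c' : ℤ) : ℝ))
      (by exact_mod_cast hℓ0) (by rw [hQ, hc]; push_cast; ring) hQ0
    rw [Complex.ofReal_natCast] at h1
    rw [h1]
    positivity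
  obtain ⟨Φ, hΦ⟩ : ∃ Φ : ℤ × ℤ → ℂ, Φ = fun h => P h * cexp (2 * Real.pi * I *
    ((b * F.q h : ℤ) : ℂ) / ℓ) := ⟨_, rfl⟩
  have e2 : F.th P ((((b : ℝ) / (ℓ : ℝ) : ℝ) : ℂ) + w1) v = F.th Φ w1 v := by
    unfold Fm.th
    refine tsum_congr fun p => ?_
    rw [gs_shift, hΦ]
    simp only
    rw [← mul_assoc]
    congr 3
    push_cast
    ring
  have hΦper : Per (ℓ * D) Φ := by
    intro p h
    rw [hΦ]
    simp only
    have h1 : P (p.1 + ((ℓ * D : ℕ) : ℤ) * h.1, p.2 + ((ℓ * D : ℕ) : ℤ) * h.2) = P p := by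
      have := hper p (ℓ * h.1, ℓ * h.2)
      rw [← this]
      congr 2
      · push_cast; ring
      · push_cast; ring
    rw [h1]
    congr 1
    apply e_div hℓ0
    have h2 := q_shift F ((ℓ * D : ℕ) : ℤ) p h
    have h3 : (ℓ : ℤ) ∣ ((ℓ * D : ℕ) : ℤ) := by
      push_cast
      exact dvd_mul_right _ _
    rw [← mul_sub]
    exact Dvd.dvd.mul_left (h3.trans h2) _
  have e3 := hPER D hD0 F (ℓ * D) (Nat.mul_pos hℓ0 hD0) Φ hΦper w1 v hw1im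
  obtain ⟨w2, hw2⟩ : ∃ w2 : ℂ, w2 = 1 / ((D : ℂ) ^ 2 * D * (starRingEnd ℂ) z) := ⟨_, rfl⟩
  have h6 : (starRingEnd ℂ) c = c := by
    rw [hc, Complex.conj_ofReal]
  have h7 : (starRingEnd ℂ) (ℓ : ℂ) = (ℓ : ℂ) := Complex.conj_natCast ℓ
  have hQc : (starRingEnd ℂ) Q = c * (starRingEnd ℂ) z + ℓ := by
    rw [hQ, map_add, map_mul, h6, h7]
  have hQc0 : (starRingEnd ℂ) Q ≠ 0 := (map_ne_zero _).2 hQ0
  have e4 : (1 : ℂ) / (((ℓ * D : ℕ) : ℂ) ^ 2 * D * (starRingEnd ℂ) w1) =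
      (((c' : ℝ) / ((ℓ : ℝ) * D) : ℝ) : ℂ) + w2 := by
    rw [hw1, hw2, map_div₀, map_mul, h7]
    have h8 : (1 : ℂ) / (((ℓ * D : ℕ) : ℂ) ^ 2 * D * ((starRingEnd ℂ) z / (ℓ * (starRingEnd ℂ) Q))) =
        (starRingEnd ℂ) Q / (ℓ * (D : ℂ) ^ 3 * (starRingEnd ℂ) z) := by
      push_cast
      field_simp
    rw [h8, hQc, hcD]
    push_cast
    field_simp
  have e5 : F.th (hat (ℓ * D) Φ) ((((c' : ℝ) / ((ℓ : ℝ) * D) : ℝ) : ℂ) + w2) v =
      ℓ * F.th (hat D P) w2 v := by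
    unfold Fm.th
    rw [← tsum_mul_left]
    refine tsum_congr fun u => ?_
    have hf := hFID D hD F P hP ℓ hℓ hℓ2 hℓA hℓD b (-c') δ (by
      refine ⟨-a, ?_⟩
      linear_combination hdet) hδ u
    rw [← hΦ] at hf
    rw [hf, gs_shift]
    by_cases hu : hat D P u = 0
    · rw [hu]
      ring
    · obtain ⟨k, hk⟩ := hsup u hu
      have h1 : cexp (2 * Real.pi * I * ((-c' * δ * F.q u : ℤ) : ℂ) / ℓ) =
          cexp (2 * Real.pi * I * ((-c' * k : ℤ) : ℂ) / ℓ) := by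
        apply e_div hℓ0
        have h2 : -c' * δ * F.q u - -c' * k = (-c' * k) * (D * δ - 1) := by
          rw [hk]
          ring
        rw [h2]
        exact Dvd.dvd.mul_left hδ _
      have h3 : cexp (2 * Real.pi * I * ((((c' : ℝ) / ((ℓ : ℝ) * D) : ℝ) : ℂ) *
          ((F.q u : ℤ) : ℂ))) = cexp (2 * Real.pi * I * ((c' * k : ℤ) : ℂ) / ℓ) := by
        congr 1
        rw [hk]
        push_cast
        field_simp
      have h4 : cexp (2 * Real.pi * I * ((-c' * k : ℤ) : ℂ) / ℓ) *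
          cexp (2 * Real.pi * I * ((c' * k : ℤ) : ℂ) / ℓ) = 1 := by
        rw [← Complex.exp_add, ← Complex.exp_zero]
        congr 1
        push_cast
        ring
      rw [h1, h3]
      calc (ℓ : ℂ) * hat D P u * cexp (2 * Real.pi * I * ((-c' * k : ℤ) : ℂ) / ℓ) *
            (cexp (2 * Real.pi * I * ((c' * k : ℤ) : ℂ) / ℓ) * F.gs w2 v u)
          = (ℓ : ℂ) * (hat D P u * F.gs w2 v u) *
            (cexp (2 * Real.pi * I * ((-c' * k : ℤ) : ℂ) / ℓ) *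
              cexp (2 * Real.pi * I * ((c' * k : ℤ) : ℂ) / ℓ)) := by ring
        _ = _ := by rw [h4, mul_one]
  have e6 := hPER D hD0 F D hD0 P hper z v hz
  rw [← hw2] at e6
  rw [e1, e2, e3, e4, e5, e6]
  have hnw : ‖w1‖ = ‖z‖ / (ℓ * ‖Q‖) := by
    rw [hw1, norm_div, norm_mul, Complex.norm_natCast]
  have hn2 : ‖z‖ ≠ 0 := norm_ne_zero_iff.2 hz0
  have hℓr : (ℓ : ℝ) ≠ 0 := by exact_mod_cast hℓ0.ne'
  have hDr : (D : ℝ) ≠ 0 := by exact_mod_cast hD0.ne'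
  have hsq : √(D : ℝ) ≠ 0 := by
    have : (0 : ℝ) < D := by exact_mod_cast hD0
    positivity
  rw [hnw]
  have e7 : (1 / ((((ℓ * D : ℕ) : ℝ)) ^ 2 * √(D : ℝ) * (‖z‖ / (ℓ * ‖Q‖)) : ℝ)) * (ℓ : ℝ) =
      ‖Q‖ * (1 / ((D : ℝ) ^ 2 * √(D : ℝ) * ‖z‖)) := by
    push_cast
    field_simp
  have e8 : (1 / (((((ℓ * D : ℕ) : ℝ)) ^ 2 * √(D : ℝ) * (‖z‖ / (ℓ * ‖Q‖)) : ℝ) : ℂ)) * (ℓ : ℂ) =
      (‖Q‖ : ℂ) * (1 / (((D : ℝ) ^ 2 * √(D : ℝ) * ‖z‖ : ℝ) : ℂ)) := by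
    exact_mod_cast congrArg (fun x : ℝ => (x : ℂ)) e7
  calc 1 / (((((ℓ * D : ℕ) : ℝ)) ^ 2 * √(D : ℝ) * (‖z‖ / (ℓ * ‖Q‖)) : ℝ) : ℂ) *
        (ℓ * F.th (hat D P) w2 v)
      = (1 / (((((ℓ * D : ℕ) : ℝ)) ^ 2 * √(D : ℝ) * (‖z‖ / (ℓ * ‖Q‖)) : ℝ) : ℂ) * (ℓ : ℂ)) *
        F.th (hat D P) w2 v := by ring
    _ = _ := by rw [e8]; ring

/-- the square roots -/
theorem sqrt_im {z w Q : ℂ} (hz : 0 < z.im) (hw : w.im = z.im / ‖Q‖ ^ 2) (hQ0 : Q ≠ 0) :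
    ((√w.im : ℝ) : ℂ) * ((‖Q‖ : ℝ) : ℂ) = ((√z.im : ℝ) : ℂ) := by
  have hn : 0 < ‖Q‖ := norm_pos_iff.2 hQ0
  rw [← Complex.ofReal_mul]
  congr 1
  rw [hw, Real.sqrt_div hz.le, Real.sqrt_sq hn.le]
  field_simp

theorem main : S_SUM → S_PER → S_SUP → S_FID → S_AUT := by
  intro _ hPER hSUP hFID D hD F hA P hP γ hγ z v
  have hD0 : 0 < D := by omega
  obtain ⟨a, ha⟩ : ∃ a, a = γ 0 0 := ⟨_, rfl⟩
  obtain ⟨b, hb⟩ : ∃ b, b = γ 0 1 := ⟨_, rfl⟩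
  obtain ⟨c, hc⟩ : ∃ c, c = γ 1 0 := ⟨_, rfl⟩
  obtain ⟨d, hd⟩ : ∃ d, d = γ 1 1 := ⟨_, rfl⟩
  have hdet : a * d - b * c = 1 := by
    rw [ha, hb, hc, hd, ← Matrix.det_fin_two]
    exact γ.2
  have hdvd : ((D ^ 2 : ℕ) : ℤ) ∣ c := by
    rw [hc, ← ZMod.intCast_zmod_eq_zero_iff_dvd]
    exact CongruenceSubgroup.Gamma0_mem.1 hγ
  have hact : ((γ • z : UpperHalfPlane) : ℂ) = ((a : ℂ) * z + b) / ((c : ℂ) * z + d) := by
    rw [UpperHalfPlane.coe_specialLinearGroup_apply, ← ha, ← hb, ← hc, ← hd]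
    simp
  have him : (γ • z : UpperHalfPlane).im = (((γ • z : UpperHalfPlane) : ℂ)).im := rfl
  have hzim : z.im = (z : ℂ).im := rfl
  have hzpos : 0 < (z : ℂ).im := z.im_pos
  rw [him, hzim, hact]
  by_cases hc0 : c = 0
  · -- a translation
    rw [hc0, mul_zero, sub_zero] at hdet
    have hdd : d = a ∧ (a = 1 ∨ a = -1) := by
      rcases Int.eq_one_or_neg_one_of_mul_eq_one hdet with h | h
      · subst h
        exact ⟨by linarith, Or.inl rfl⟩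
      · subst h
        exact ⟨by linarith, Or.inr rfl⟩
    have e : ((a : ℂ) * z + b) / ((c : ℂ) * z + d) = (z : ℂ) + ((b * a : ℤ) : ℂ) := by
      rw [hc0, hdd.1]
      rcases hdd.2 with h | h
      · rw [h]; simp
      · rw [h]; push_cast; ring
    rw [e, th_int]
    simp
  · -- Dirichlet's theorem
    obtain ⟨c', hc'⟩ := hdvd
    have hcop : IsCoprime d ((c.natAbs : ℕ) : ℤ) := by
      rw [Int.natCast_natAbs]
      have h1 : IsCoprime d c := ⟨a, -b, by linarith⟩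
      rcases abs_choice c with h | h
      · rw [h]; exact h1
      · rw [h]; exact h1.neg_right
    obtain ⟨ℓ, hℓgt, hℓ, hℓm⟩ := Nat.forall_exists_prime_gt_and_zmodEq (max 2 (max F.A.natAbs D))
      (q := c.natAbs) (a := d) (Int.natAbs_ne_zero.2 hc0) hcop
    obtain ⟨l, hl⟩ : ∃ l : ℤ, (ℓ : ℤ) = d + l * c := by
      have h1 : ((c.natAbs : ℕ) : ℤ) ∣ (ℓ : ℤ) - d := hℓm.symm.dvd
      rw [Int.natCast_natAbs, abs_dvd] at h1
      obtain ⟨k, hk⟩ := h1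
      exact ⟨k, by linarith⟩
    have hℓ2 : ℓ ≠ 2 := by
      have := (le_max_left 2 (max F.A.natAbs D)).trans_lt hℓgt
      omega
    have hℓA : ¬ (ℓ : ℤ) ∣ F.A := by
      intro h
      have h1 : ℓ ∣ F.A.natAbs := Int.natCast_dvd.1 h
      have h2 := Nat.le_of_dvd (Int.natAbs_pos.2 hA) h1
      have h3 := ((le_max_left F.A.natAbs D).trans (le_max_right 2 _)).trans_lt hℓgt
      omega
    have hℓD : ¬ ℓ ∣ D := by
      intro h
      have h2 := Nat.le_of_dvd hD0 h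
      have h3 := ((le_max_right F.A.natAbs D).trans (le_max_right 2 _)).trans_lt hℓgt
      omega
    have hdet' : a * (ℓ : ℤ) - (b + l * a) * (D ^ 2 * c') = 1 := by
      have : (D : ℤ) ^ 2 * c' = c := by rw [hc']; push_cast; ring
      rw [this, hl]
      linear_combination hdet
    obtain ⟨z', hz'⟩ : ∃ z' : ℂ, z' = (z : ℂ) - (l : ℂ) := ⟨_, rfl⟩
    have hz'im : z'.im = (z : ℂ).im := by
      rw [hz']
      simp
    obtain ⟨cc, hcc⟩ : ∃ cc : ℂ, cc = ((((D ^ 2 * c' : ℤ) : ℝ)) : ℂ) := ⟨_, rfl⟩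
    have hccc : cc = (c : ℂ) := by
      rw [hcc, hc']
      push_cast
      ring
    obtain ⟨Q, hQ⟩ : ∃ Q, Q = cc * z' + (ℓ : ℂ) := ⟨_, rfl⟩
    have hQd : Q = (c : ℂ) * z + d := by
      have h1 : (ℓ : ℂ) = (d : ℂ) + l * c := by exact_mod_cast hl
      rw [hQ, hccc, hz', h1]
      ring
    have hQ0 : Q ≠ 0 := by
      intro h
      have h1 := congrArg Complex.im h
      rw [hQd] at h1
      simp only [Complex.add_im, Complex.mul_im, Complex.intCast_re, Complex.intCast_im, zero_mul,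
        add_zero, Complex.zero_im] at h1
      rcases mul_eq_zero.1 h1 with h2 | h2
      · exact hc0 (by exact_mod_cast h2)
      · exact hzpos.ne' h2
    have hcore := core F hPER hSUP hFID hD P hP a (b + l * a) c' ℓ hℓ hℓ2 hℓA hℓD hdet' z'
      (by rw [hz'im]; exact hzpos) v cc Q hcc hQ hQ0
    have e1 : (a : ℂ) * z' + ((b + l * a : ℤ) : ℂ) = (a : ℂ) * z + b := by
      rw [hz']
      push_cast
      ring
    rw [e1] at hcore
    have e2 : F.th P z' v = F.th P (z : ℂ) v := by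
      rw [← th_int F P l z' v, hz']
      congr 1
      ring
    rw [e2] at hcore
    rw [← hQd, hcore, ← mul_assoc]
    congr 1
    refine sqrt_im hzpos ?_ hQ0
    -- the imaginary part of `γ z`
    have h3 : ((a : ℂ) * z + b) / Q = ((a : ℂ) * z + b) * (starRingEnd ℂ) Q / ((‖Q‖ ^ 2 : ℝ) : ℂ) := by
      have h4 : ((‖Q‖ ^ 2 : ℝ) : ℂ) = Q * (starRingEnd ℂ) Q := by
        rw [Complex.mul_conj, Complex.normSq_eq_norm_sq]
      rw [h4]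
      have h5 : (starRingEnd ℂ) Q ≠ 0 := (map_ne_zero _).2 hQ0
      field_simp
    rw [h3, Complex.div_ofReal_im]
    congr 1
    have hdr : (a : ℝ) * d - b * c = 1 := by exact_mod_cast hdet
    rw [hQd]
    simp only [map_add, map_mul, Complex.mul_im, Complex.add_im, Complex.add_re, Complex.mul_re,
      Complex.intCast_re, Complex.intCast_im, Complex.conj_re, Complex.conj_im, zero_mul, add_zero,
      sub_zero, neg_zero]
    linear_combination (z : ℂ).im * hdr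

end Pool.Agent.H505.MF.AUT
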