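import Pool.Agent.H505.MF.Stm

/-!
# Constant terms of the theta integrals (leaf CST)
-/

set_option autoImplicit false

open Complex MeasureTheory Filter Topology

namespace Pool.Agent.H505.MF.CST

open Pool.Agent.H505.MF

/-- periodic functions are bounded -/
theorem per_bdd {N : ℕ} (hN : 0 < N) {Φ : ℤ × ℤ → ℂ} (h : Per N Φ) : ∃ C : ℝ, ∀ p, ‖Φ p‖ ≤ C := by
  refine ⟨∑ h ∈ Finset.range N ×ˢ Finset.range N, ‖Φ ((h.1 : ℤ), (h.2 : ℤ))‖, fun p => ?_⟩
  have hN' : (0 : ℤ) < N := by exact_mod_cast hN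
  have e : Φ p = Φ ((((p.1 % N).toNat : ℕ) : ℤ), (((p.2 % N).toNat : ℕ) : ℤ)) := by
    have h1 := h ((((p.1 % N).toNat : ℕ) : ℤ), (((p.2 % N).toNat : ℕ) : ℤ)) (p.1 / N, p.2 / N)
    rw [← h1]
    congr 1
    rw [Int.toNat_of_nonneg (Int.emod_nonneg _ hN'.ne'),
      Int.toNat_of_nonneg (Int.emod_nonneg _ hN'.ne')]
    ext
    · exact (Int.emod_add_mul_ediv p.1 N).symm
    · exact (Int.emod_add_mul_ediv p.2 N).symm
  rw [e]
  refine Finset.single_le_sum (f := fun h : ℕ × ℕ => ‖Φ ((h.1 : ℤ), (h.2 : ℤ))‖)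
    (fun _ _ => norm_nonneg _) (a := ((p.1 % N).toNat, (p.2 % N).toNat)) ?_
  rw [Finset.mem_product, Finset.mem_range, Finset.mem_range]
  have h1 := Int.emod_lt_of_pos p.1 hN'
  have h2 := Int.emod_lt_of_pos p.2 hN'
  have h3 := Int.emod_nonneg p.1 hN'.ne'
  have h4 := Int.emod_nonneg p.2 hN'.ne'
  constructor
  · show (p.1 % N).toNat < N
    omega
  · show (p.2 % N).toNat < N
    omega

/-- the form is anisotropic -/
theorem q_eq_zero {D : ℕ} (hsq : ¬ IsSquare D) (F : Fm D) {p : ℤ × ℤ} (h : F.q p = 0) :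
    p = 0 := by
  have hA : F.A ≠ 0 := by
    intro hA
    apply hsq
    have h1 := F.disc
    rw [hA] at h1
    refine ⟨F.B.natAbs, ?_⟩
    zify
    rw [abs_mul_abs_self]
    linarith
  have key : (2 * F.A * p.1 + F.B * p.2) ^ 2 = (D : ℤ) * p.2 ^ 2 := by
    rw [← F.disc]
    have h2 : F.A * p.1 ^ 2 + F.B * p.1 * p.2 + F.C * p.2 ^ 2 = 0 := h
    linear_combination 4 * F.A * h2
  by_cases hy : p.2 = 0
  · rw [hy] at key
    have h3 : (2 * F.A * p.1) ^ 2 = 0 := by linear_combination key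
    have h4 : 2 * F.A * p.1 = 0 := by
      rcases pow_eq_zero_iff (two_ne_zero) |>.1 h3 with h5
      exact h5
    have h5 : p.1 = 0 := by
      rcases mul_eq_zero.1 h4 with h6 | h6
      · exfalso
        rcases mul_eq_zero.1 h6 with h7 | h7
        · norm_num at h7
        · exact hA h7
      · exact h6
    exact Prod.ext h5 hy
  · exfalso
    have hd : p.2 ^ 2 ∣ (2 * F.A * p.1 + F.B * p.2) ^ 2 := ⟨D, by rw [key]; ring⟩
    rw [Int.pow_dvd_pow_iff two_ne_zero] at hd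
    obtain ⟨k, hk⟩ := hd
    rw [hk] at key
    have h6 : p.2 ^ 2 * (k * k) = p.2 ^ 2 * D := by linear_combination key
    have h7 : k * k = D := mul_left_cancel₀ (pow_ne_zero 2 hy) h6
    apply hsq
    refine ⟨k.natAbs, ?_⟩
    zify
    rw [abs_mul_abs_self, h7]

section
variable {D : ℕ} (F : Fm D)

/-- the modulus of the Gaussian -/
noncomputable def rx (y v : ℝ) (p : ℤ × ℤ) : ℂ :=
  cexp (-((Real.pi * y * F.maj v p.1 p.2 : ℝ) : ℂ))

theorem qR_eq (p : ℤ × ℤ) : F.qR p.1 p.2 = (F.q p : ℝ) := by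
  unfold Fm.qR Fm.q
  push_cast
  ring

theorem gs_split (x y v : ℝ) (p : ℤ × ℤ) :
    F.gs ((x : ℂ) + y * I) v p = cexp (2 * Real.pi * I * (F.q p : ℤ) * x) * rx F y v p := by
  unfold Fm.gs Fm.gsR rx
  rw [← Complex.exp_add, qR_eq]
  congr 1
  have e1 : ((x : ℂ) + y * I).re = x := by simp
  have e2 : ((x : ℂ) + y * I).im = y := by simp
  rw [e1, e2]
  push_cast
  ring

theorem norm_phase (n : ℤ) (x : ℝ) : ‖cexp (2 * Real.pi * I * (n : ℂ) * x)‖ = 1 := by
  have : (2 * Real.pi * I * (n : ℂ) * x : ℂ) = ((2 * Real.pi * n * x : ℝ) : ℂ) * I := by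
    push_cast
    ring
  rw [this, Complex.norm_exp_ofReal_mul_I]

theorem norm_exp_I (t v : ℝ) : ‖cexp (-(I * t * v))‖ = 1 := by
  have : -(I * t * v) = ((-(t * v) : ℝ) : ℂ) * I := by push_cast; ring
  rw [this, Complex.norm_exp_ofReal_mul_I]

theorem rx_cont (y : ℝ) (p : ℤ × ℤ) : Continuous fun v : ℝ => rx F y v p := by
  unfold rx Fm.maj
  fun_prop

theorem mem_le {P v : ℝ} (hP : 0 < P) (hv : v ∈ Set.uIoc 0 P) : |v| ≤ P := by
  rw [Set.uIoc_of_le hP.le] at hv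
  rw [abs_of_pos hv.1]
  exact hv.2

/-- the coefficients -/
noncomputable def cc (t P : ℝ) (Φ : ℤ × ℤ → ℂ) (y : ℝ) (p : ℤ × ℤ) : ℂ :=
  ∫ v in (0 : ℝ)..P, ((√y : ℝ) : ℂ) * (Φ p * rx F y v p) * cexp (-(I * t * v))

variable {F}

theorem rx_le {y P : ℝ} {g : ℤ × ℤ → ℝ}
    (hg : ∀ (w : ℂ) (v : ℝ), y ≤ w.im → |v| ≤ P → ∀ p : ℤ × ℤ, ‖F.gs w v p‖ ≤ g p)
    {v : ℝ} (hv : |v| ≤ P) (p : ℤ × ℤ) : ‖rx F y v p‖ ≤ g p := by
  have h := hg (((0 : ℝ) : ℂ) + y * I) v (by simp) hv p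
  rw [gs_split, norm_mul, norm_phase, one_mul] at h
  exact h

theorem cc_le {t P y C : ℝ} {Φ : ℤ × ℤ → ℂ} (hC : ∀ p, ‖Φ p‖ ≤ C) (hP : 0 < P) {g : ℤ × ℤ → ℝ}
    (hg : ∀ (w : ℂ) (v : ℝ), y ≤ w.im → |v| ≤ P → ∀ p : ℤ × ℤ, ‖F.gs w v p‖ ≤ g p)
    (p : ℤ × ℤ) : ‖cc F t P Φ y p‖ ≤ √y * (C * g p) * P := by
  unfold cc
  have h := intervalIntegral.norm_integral_le_of_norm_le_const (a := 0) (b := P)
    (C := √y * (C * g p))
    (f := fun v : ℝ => ((√y : ℝ) : ℂ) * (Φ p * rx F y v p) * cexp (-(I * t * v))) ?_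
  · rwa [sub_zero, abs_of_pos hP] at h
  · intro v hv
    rw [norm_mul, norm_mul, norm_mul, norm_exp_I, mul_one,
      Complex.norm_of_nonneg (Real.sqrt_nonneg y)]
    refine mul_le_mul_of_nonneg_left ?_ (Real.sqrt_nonneg y)
    exact mul_le_mul (hC _) (rx_le hg (mem_le hP hv) p) (norm_nonneg _)
      ((norm_nonneg _).trans (hC 0))

/-- the Fourier expansion -/
theorem H_hasSum {t P y C : ℝ} {Φ : ℤ × ℤ → ℂ} (hC : ∀ p, ‖Φ p‖ ≤ C) (hP : 0 < P)
    {g : ℤ × ℤ → ℝ} (hgs : Summable g)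
    (hg : ∀ (w : ℂ) (v : ℝ), y ≤ w.im → |v| ≤ P → ∀ p : ℤ × ℤ, ‖F.gs w v p‖ ≤ g p) (x : ℝ) :
    HasSum (fun p : ℤ × ℤ => cexp (2 * Real.pi * I * (F.q p : ℤ) * x) * cc F t P Φ y p)
      (F.H t P Φ ((x : ℂ) + y * I)) := by
  have hC0 : 0 ≤ C := (norm_nonneg _).trans (hC 0)
  have e2 : ((x : ℂ) + y * I).im = y := by simp
  have hterm : ∀ (p : ℤ × ℤ) (v : ℝ), ((√y : ℝ) : ℂ) * (Φ p * F.gs ((x : ℂ) + y * I) v p) *
      cexp (-(I * t * v)) = cexp (2 * Real.pi * I * (F.q p : ℤ) * x) *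
        (((√y : ℝ) : ℂ) * (Φ p * rx F y v p) * cexp (-(I * t * v))) := by
    intro p v
    rw [gs_split]
    ring
  have hgs' : ∀ (v : ℝ), |v| ≤ P → ∀ p : ℤ × ℤ, ‖F.gs ((x : ℂ) + y * I) v p‖ ≤ g p :=
    fun v hv p => hg _ v (by rw [e2]) hv p
  have h := intervalIntegral.hasSum_integral_of_dominated_convergence (μ := volume) (a := 0)
    (b := P) (F := fun (p : ℤ × ℤ) (v : ℝ) =>
      ((√y : ℝ) : ℂ) * (Φ p * F.gs ((x : ℂ) + y * I) v p) * cexp (-(I * t * v)))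
    (f := fun v : ℝ => ((√((x : ℂ) + y * I).im : ℝ) : ℂ) * F.th Φ ((x : ℂ) + y * I) v *
      cexp (-(I * t * v)))
    (fun p _ => √y * (C * g p)) ?_ ?_ ?_ ?_ ?_
  · have h3 : (fun p : ℤ × ℤ => cexp (2 * Real.pi * I * (F.q p : ℤ) * x) * cc F t P Φ y p) =
        fun p : ℤ × ℤ => ∫ v in (0 : ℝ)..P,
          ((√y : ℝ) : ℂ) * (Φ p * F.gs ((x : ℂ) + y * I) v p) * cexp (-(I * t * v)) := by
      funext p
      unfold cc
      rw [← intervalIntegral.integral_const_mul]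
      exact intervalIntegral.integral_congr fun v _ => (hterm p v).symm
    rw [h3]
    exact h
  · intro p
    have h4 : (fun v : ℝ => ((√y : ℝ) : ℂ) * (Φ p * F.gs ((x : ℂ) + y * I) v p) *
        cexp (-(I * t * v))) = fun v : ℝ => cexp (2 * Real.pi * I * (F.q p : ℤ) * x) *
        (((√y : ℝ) : ℂ) * (Φ p * rx F y v p) * cexp (-(I * t * v))) :=
      funext fun v => hterm p v
    rw [h4]
    have h5 := rx_cont F y p
    exact (by fun_prop : Continuous fun v : ℝ => cexp (2 * Real.pi * I * (F.q p : ℤ) * x) *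
        (((√y : ℝ) : ℂ) * (Φ p * rx F y v p) * cexp (-(I * t * v)))).aestronglyMeasurable
  · intro p
    refine Filter.Eventually.of_forall fun v hv => ?_
    rw [norm_mul, norm_mul, norm_mul, norm_exp_I, mul_one,
      Complex.norm_of_nonneg (Real.sqrt_nonneg y)]
    refine mul_le_mul_of_nonneg_left ?_ (Real.sqrt_nonneg y)
    exact mul_le_mul (hC _) (hgs' v (mem_le hP hv) p) (norm_nonneg _) hC0
  · exact Filter.Eventually.of_forall fun v _ => (hgs.mul_left C).mul_left _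
  · exact intervalIntegrable_const
  · refine Filter.Eventually.of_forall fun v hv => ?_
    refine HasSum.mul_right _ ?_
    rw [e2]
    refine HasSum.mul_left _ ?_
    unfold Fm.th
    refine Summable.hasSum ?_
    refine Summable.of_norm_bounded (g := fun p => C * g p) (hgs.mul_left C) fun p => ?_
    rw [norm_mul]
    exact mul_le_mul (hC _) (hgs' v (mem_le hP hv) p) (norm_nonneg _) hC0

theorem cc_zero {t P y : ℝ} {Φ : ℤ × ℤ → ℂ} (ht : t ≠ 0) (htP : cexp (I * t * P) = 1) :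
    cc F t P Φ y 0 = 0 := by
  unfold cc
  have h1 : ∀ v : ℝ, ((√y : ℝ) : ℂ) * (Φ 0 * rx F y v 0) * cexp (-(I * t * v)) =
      (((√y : ℝ) : ℂ) * Φ 0) * cexp (-(I * t) * v) := by
    intro v
    have h2 : rx F y v 0 = 1 := by
      unfold rx Fm.maj
      simp
    rw [h2, neg_mul]
    ring
  rw [intervalIntegral.integral_congr fun v _ => h1 v, intervalIntegral.integral_const_mul]
  have h3 : (-(I * t) : ℂ) ≠ 0 := neg_ne_zero.2 (mul_ne_zero I_ne_zero (by exact_mod_cast ht))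
  rw [integral_exp_mul_complex h3]
  have h4 : cexp (-(I * t) * P) = 1 := by
    rw [neg_mul, Complex.exp_neg, htP, inv_one]
  rw [h4]
  simp

theorem int_zero (x0 : ℝ) (k : ℕ) {n : ℤ} (hn : n ≠ 0) :
    ∫ x in x0..(x0 + k), cexp (2 * Real.pi * I * (n : ℂ) * x) = 0 := by
  have h3 : (2 * Real.pi * I * (n : ℂ) : ℂ) ≠ 0 := by
    have h4 : (n : ℂ) ≠ 0 := by exact_mod_cast hn
    have h5 : (Real.pi : ℂ) ≠ 0 := by exact_mod_cast Real.pi_ne_zero
    exact mul_ne_zero (mul_ne_zero (mul_ne_zero two_ne_zero h5) I_ne_zero) h4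
  rw [integral_exp_mul_complex h3]
  have h6 : (2 * Real.pi * I * (n : ℂ) * ((x0 + k : ℝ) : ℂ) : ℂ) =
      2 * Real.pi * I * n * x0 + ((n * k : ℤ) : ℂ) * (2 * Real.pi * I) := by
    push_cast
    ring
  rw [h6, Complex.exp_add, Complex.exp_int_mul_two_pi_mul_I, mul_one, sub_self, zero_div]

end

theorem main : S_LOW → S_SUM → S_CST := by
  intro _ hS D hD hsq F N hN Φ hΦ t P ht hP htP y hy
  obtain ⟨C, hC⟩ := per_bdd hN hΦ
  obtain ⟨g, hgs, hg⟩ := hS D hD F P y hy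
  have hsum := fun x : ℝ => H_hasSum (t := t) hC hP hgs hg x
  have hb : Summable fun p : ℤ × ℤ => √y * (C * g p) * P :=
    ((hgs.mul_left C).mul_left _).mul_right _
  have hnorm : ∀ (p : ℤ × ℤ) (x : ℝ),
      ‖cexp (2 * Real.pi * I * (F.q p : ℤ) * x) * cc F t P Φ y p‖ ≤ √y * (C * g p) * P := by
    intro p x
    rw [norm_mul, norm_phase, one_mul]
    exact cc_le hC hP hg p
  constructor
  · have e : (fun x : ℝ => F.H t P Φ (x + y * I)) =
        fun x : ℝ => ∑' p : ℤ × ℤ, cexp (2 * Real.pi * I * (F.q p : ℤ) * x) * cc F t P Φ y p :=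
      funext fun x => (hsum x).tsum_eq.symm
    rw [e]
    exact continuous_tsum (fun p => by fun_prop) hb hnorm
  · intro x0 k
    have h := intervalIntegral.hasSum_integral_of_dominated_convergence (μ := volume) (a := x0)
      (b := x0 + k) (F := fun (p : ℤ × ℤ) (x : ℝ) =>
        cexp (2 * Real.pi * I * (F.q p : ℤ) * x) * cc F t P Φ y p)
      (f := fun x : ℝ => F.H t P Φ (x + y * I))
      (fun p _ => √y * (C * g p) * P) ?_ ?_ ?_ ?_ ?_
    · refine h.unique ?_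
      have h2 : (fun p : ℤ × ℤ => ∫ x in x0..(x0 + k),
          cexp (2 * Real.pi * I * (F.q p : ℤ) * x) * cc F t P Φ y p) = fun _ => (0 : ℂ) := by
        funext p
        rw [intervalIntegral.integral_mul_const]
        by_cases hp : F.q p = 0
        · rw [q_eq_zero hsq F hp, cc_zero ht htP, mul_zero]
        · rw [int_zero x0 k hp, zero_mul]
      rw [h2]
      exact hasSum_zero
    · intro p
      exact (by fun_prop : Continuous fun x : ℝ =>
        cexp (2 * Real.pi * I * (F.q p : ℤ) * x) * cc F t P Φ y p).aestronglyMeasurable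
    · intro p
      exact Filter.Eventually.of_forall fun x _ => hnorm p x
    · exact Filter.Eventually.of_forall fun v _ => hb
    · exact intervalIntegrable_const
    · exact Filter.Eventually.of_forall fun x _ => hsum x

end Pool.Agent.H505.MF.CST
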