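import Pool.Agent.H505.MF.Stm

/-!
# Leaf CUS (helper200): from SL2, DEC, CST to the behaviour at the cusps
-/

set_option autoImplicit false

open Complex UpperHalfPlane MeasureTheory MatrixGroups

namespace Pool.Agent.H505.MF.CUS

open Pool.Agent.H505.MF

lemma coe_act (g : SL(2, ℤ)) (z : ℍ) :
    ((g • z : ℍ) : ℂ) = ((g 0 0 : ℂ) * z + g 0 1) / ((g 1 0 : ℂ) * z + g 1 1) := by
  rw [coe_specialLinearGroup_apply]
  simp

/-- the reflected matrix -/
def mir (g : SL(2, ℤ)) : SL(2, ℤ) :=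
  ⟨!![g 0 0, -g 0 1; -g 1 0, g 1 1], by
    have h := g.det_coe
    rw [Matrix.det_fin_two] at h
    rw [Matrix.det_fin_two_of]
    linarith⟩

/-- the reflected point -/
noncomputable def rp (z : ℍ) : ℍ := ⟨-(starRingEnd ℂ) (z : ℂ), by
  simpa using z.im_pos⟩

lemma coe_rp (z : ℍ) : ((rp z : ℍ) : ℂ) = -(starRingEnd ℂ) (z : ℂ) := rfl

lemma rp_act (g : SL(2, ℤ)) (z : ℍ) :
    -(starRingEnd ℂ) ((g • z : ℍ) : ℂ) = ((mir g • rp z : ℍ) : ℂ) := by
  rw [coe_act, coe_act, coe_rp]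
  have e00 : (mir g) 0 0 = g 0 0 := rfl
  have e01 : (mir g) 0 1 = -g 0 1 := rfl
  have e10 : (mir g) 1 0 = -g 1 0 := rfl
  have e11 : (mir g) 1 1 = g 1 1 := rfl
  rw [e00, e01, e10, e11, map_div₀, ← neg_div]
  simp only [map_add, map_mul, map_intCast]
  push_cast
  congr 1 <;> ring

lemma im_rf (s : Bool) (z : ℂ) : (rf s z).im = z.im := by
  cases s <;> simp [rf]

lemma rf_rf (s : Bool) (z : ℂ) : rf s (rf true z) = rf (!s) z := by
  cases s <;> simp [rf]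

/-- transformation of the integrals, no reflection on the left -/
lemma trans0 (h1 : S_SL2) {D : ℕ} (hD : 0 < D) (F : Fm D) (N : ℕ) (hN : 0 < N)
    (Φ : ℤ × ℤ → ℂ) (hΦ : Per N Φ) (t P : ℝ) (σ : SL(2, ℤ)) :
    ∃ (r : ℚ) (N' : ℕ) (Φ' : ℤ × ℤ → ℂ) (s' : Bool), 0 < r ∧ 0 < N' ∧ Per N' Φ' ∧ ∀ z : ℍ,
      F.H t P Φ ((σ • z : ℍ) : ℂ) =
        ((1 / √(r : ℝ) : ℝ) : ℂ) * F.H t P Φ' ((r : ℂ) * rf s' (z : ℂ)) := by
  obtain ⟨r, N', Φ', s, hr, hN', hP, h⟩ := h1 D hD F N hN Φ hΦ σ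
  refine ⟨r, N', Φ', s, hr, hN', hP, fun z => ?_⟩
  have hr' : (0 : ℝ) < r := by exact_mod_cast hr
  have him : ((r : ℂ) * rf s (z : ℂ)).im = (r : ℝ) * z.im := by
    have h2 : ((r : ℂ)) = (((r : ℝ)) : ℂ) := by push_cast; rfl
    rw [h2, Complex.im_ofReal_mul, im_rf]
    rfl
  unfold Fm.H
  rw [← intervalIntegral.integral_const_mul]
  refine intervalIntegral.integral_congr fun v _ => ?_
  have h3 := h z v
  have h4 : ((σ • z : ℍ) : ℂ).im = (σ • z : ℍ).im := rfl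
  rw [h4, h3, him, Real.sqrt_mul hr'.le]
  have h5 : (√(r : ℝ) : ℝ) ≠ 0 := by positivity
  have h6 : ((√(r : ℝ) : ℝ) : ℂ) ≠ 0 := by exact_mod_cast h5
  push_cast
  field_simp

lemma trans (h1 : S_SL2) {D : ℕ} (hD : 0 < D) (F : Fm D) (N : ℕ) (hN : 0 < N)
    (Φ : ℤ × ℤ → ℂ) (hΦ : Per N Φ) (t P : ℝ) (s : Bool) (σ : SL(2, ℤ)) :
    ∃ (r : ℚ) (N' : ℕ) (Φ' : ℤ × ℤ → ℂ) (s' : Bool), 0 < r ∧ 0 < N' ∧ Per N' Φ' ∧ ∀ z : ℍ,
      F.H t P Φ (rf s ((σ • z : ℍ) : ℂ)) =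
        ((1 / √(r : ℝ) : ℝ) : ℂ) * F.H t P Φ' ((r : ℂ) * rf s' (z : ℂ)) := by
  cases s with
  | false => exact trans0 h1 hD F N hN Φ hΦ t P σ
  | true =>
    obtain ⟨r, N', Φ', s', hr, hN', hP, h⟩ := trans0 h1 hD F N hN Φ hΦ t P (mir σ)
    refine ⟨r, N', Φ', !s', hr, hN', hP, fun z => ?_⟩
    have h2 := h (rp z)
    rw [← rp_act, coe_rp] at h2
    have h3 : rf true ((σ • z : ℍ) : ℂ) = -(starRingEnd ℂ) ((σ • z : ℍ) : ℂ) := rfl
    have h4 : rf s' (-(starRingEnd ℂ) (z : ℂ)) = rf (!s') (z : ℂ) := rf_rf s' z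
    rw [h3, h2, h4]

/-- the sign of a reflection -/
def sg (s : Bool) : ℝ := if s then -1 else 1

lemma sg_cases (s : Bool) : sg s = 1 ∨ sg s = -1 := by cases s <;> simp [sg]

lemma rf_coord (s : Bool) (r x y : ℝ) (z : ℂ) (hz : z = (x : ℂ) + (y : ℂ) * Complex.I) :
    (r : ℂ) * rf s z = ((sg s * r * x : ℝ) : ℂ) + ((r * y : ℝ) : ℂ) * Complex.I := by
  subst hz
  cases s
  · simp [rf, sg]
    ring
  · simp [rf, sg]
    ring

/-- translation matrix -/
def tm (L : ℤ) : SL(2, ℤ) := ⟨!![1, L; 0, 1], by simp [Matrix.det_fin_two_of]⟩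

lemma tm_act (L : ℕ) (w : ℍ) : (tm (L : ℤ) • w : ℍ) = ((L : ℝ) +ᵥ w : ℍ) := by
  apply UpperHalfPlane.ext
  rw [coe_act, UpperHalfPlane.coe_vadd]
  have e00 : (tm (L : ℤ)) 0 0 = 1 := rfl
  have e01 : (tm (L : ℤ)) 0 1 = L := rfl
  have e10 : (tm (L : ℤ)) 1 0 = 0 := rfl
  have e11 : (tm (L : ℤ)) 1 1 = 1 := rfl
  rw [e00, e01, e10, e11]
  push_cast
  ring

lemma conj_mem (σ : SL(2, ℤ)) (L : ℕ) :
    σ * tm (L : ℤ) * σ⁻¹ ∈ CongruenceSubgroup.Gamma0 L := by
  rw [CongruenceSubgroup.Gamma0_mem]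
  have h : (σ * tm (L : ℤ) * σ⁻¹) 1 0 = -(σ 1 0) ^ 2 * (L : ℤ) := by
    simp only [Matrix.SpecialLinearGroup.coe_mul, Matrix.SpecialLinearGroup.coe_inv,
      Matrix.adjugate_fin_two, Matrix.mul_apply, Fin.sum_univ_two, tm]
    simp
    ring
  rw [h]
  push_cast
  simp

/-- the integral over a long interval of one summand is zero -/
lemma long_zero (K : ℝ → ℂ) (hK : ∀ (x₀ : ℝ) (k : ℕ), ∫ x in x₀..(x₀ + k), K x = 0)
    (e r x₀ T : ℝ) (he : e = 1 ∨ e = -1) (hr : 0 < r) (m : ℕ) (hm : r * T = m) :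
    ∫ x in (0 : ℝ)..T, K (e * r * (x + x₀)) = 0 := by
  have hne : e * r ≠ 0 := by
    rcases he with h | h <;> rw [h] <;> simp [hr.ne']
  have h1 : ∀ x : ℝ, K (e * r * (x + x₀)) = K ((e * r) * x + e * r * x₀) := by
    intro x; congr 1; ring
  simp only [h1]
  rw [intervalIntegral.integral_comp_mul_add K hne]
  rcases he with h | h
  · have h2 := hK (e * r * 0 + e * r * x₀) m
    have h3 : e * r * T + e * r * x₀ = e * r * 0 + e * r * x₀ + m := by
      rw [h, ← hm]; ring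
    rw [h3, h2, smul_zero]
  · have h2 := hK (e * r * T + e * r * x₀) m
    have h3 : e * r * 0 + e * r * x₀ = e * r * T + e * r * x₀ + m := by
      rw [h, ← hm]; ring
    rw [h3, intervalIntegral.integral_symm, h2, neg_zero, smul_zero]

/-- common multiple of finitely many rationals -/
lemma common (n : ℕ) (r : Fin n → ℚ) (hr : ∀ i, 0 < r i) : ∃ k : ℕ, 0 < k ∧ ∀ i,
    ∃ m : ℕ, r i * k = m := by
  refine ⟨∏ i, (r i).den, Finset.prod_pos fun i _ => (r i).den_pos, fun i => ?_⟩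
  obtain ⟨c, hc⟩ := Finset.dvd_prod_of_mem (fun i => (r i).den) (Finset.mem_univ i)
  refine ⟨(r i).num.toNat * c, ?_⟩
  have h1 : (((r i).num.toNat : ℕ) : ℚ) = ((r i).num : ℚ) := by
    have h2 : ((r i).num.toNat : ℤ) = (r i).num := Int.toNat_of_nonneg (Rat.num_nonneg.mpr (hr i).le)
    exact_mod_cast congrArg (fun z : ℤ => (z : ℚ)) h2
  rw [hc]
  push_cast
  rw [h1, ← mul_assoc, Rat.mul_den_eq_num]

theorem main : S_SL2 → S_DEC → S_CST → S_CUS := by
  intro h1 h2 h3 D hD hsq n F N hN Φ hΦ cf s t P ht hP hexp u hu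
  have key : ∀ σ : SL(2, ℤ), ∀ i : Fin n, ∃ (r : ℚ) (N' : ℕ) (Φ' : ℤ × ℤ → ℂ) (s' : Bool),
      0 < r ∧ 0 < N' ∧ Per N' Φ' ∧ ∀ z : ℍ,
      (F i).H t P (Φ i) (rf (s i) ((σ • z : ℍ) : ℂ)) =
        ((1 / √(r : ℝ) : ℝ) : ℂ) * (F i).H t P Φ' ((r : ℂ) * rf s' (z : ℂ)) :=
    fun σ i => trans h1 hD (F i) (N i) (hN i) (Φ i) (hΦ i) t P (s i) σ
  constructor
  · intro σ
    choose r N' Φ' s' hr hN' hP' hH using key σ
    have hr' : ∀ i, (0 : ℝ) < r i := fun i => by exact_mod_cast hr i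
    have hdec := fun i => h2 D hD hsq (F i) (N' i) (hN' i) (Φ' i) (hP' i) t P ht hP hexp
      (r i : ℝ) (hr' i)
    choose C c hc hC using hdec
    have hS : 0 ≤ ∑ i, (c i * r i)⁻¹ := Finset.sum_nonneg fun i _ =>
      inv_nonneg.mpr (mul_nonneg (hc i).le (hr' i).le)
    refine ⟨∑ i, ‖cf i‖ * ((1 / √(r i : ℝ)) * |C i|), (1 + ∑ i, (c i * r i)⁻¹)⁻¹,
      by positivity, fun z hz => ?_⟩
    have hle : ∀ i, (1 + ∑ i, (c i * r i)⁻¹)⁻¹ ≤ c i * r i := by
      intro i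
      have h4 : 0 < c i * r i := mul_pos (hc i) (hr' i)
      rw [inv_le_comm₀ (by positivity) h4]
      have h5 := Finset.single_le_sum (f := fun i => (c i * (r i : ℝ))⁻¹)
        (fun j _ => inv_nonneg.mpr (mul_nonneg (hc j).le (hr' j).le)) (Finset.mem_univ i)
      linarith
    rw [hu _ (σ • z : ℍ).im_pos, Finset.sum_mul]
    refine (norm_sum_le _ _).trans (Finset.sum_le_sum fun i _ => ?_)
    rw [hH i z, norm_mul, norm_mul, Complex.norm_real, Real.norm_of_nonneg (by positivity),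
      mul_assoc, mul_assoc]
    refine mul_le_mul_of_nonneg_left ?_ (norm_nonneg _)
    refine mul_le_mul_of_nonneg_left ?_ (by positivity)
    have him : ((r i : ℂ) * rf (s' i) (z : ℂ)).im = (r i : ℝ) * z.im := by
      have h2 : ((r i : ℂ)) = (((r i : ℝ)) : ℂ) := by push_cast; rfl
      rw [h2, Complex.im_ofReal_mul, im_rf]
      rfl
    have h6 := hC i ((r i : ℂ) * rf (s' i) (z : ℂ)) (by
      rw [him]
      nlinarith [hr' i])
    rw [him] at h6
    refine h6.trans ?_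
    have hz0 := z.im_pos
    calc C i * Real.exp (-c i * (r i * z.im)) ≤ |C i| * Real.exp (-c i * (r i * z.im)) := by
          gcongr
          exact le_abs_self _
      _ ≤ |C i| * Real.exp (-(1 + ∑ i, (c i * r i)⁻¹)⁻¹ * z.im) := by
          refine mul_le_mul_of_nonneg_left (Real.exp_le_exp.mpr ?_) (abs_nonneg _)
          have := mul_le_mul_of_nonneg_right (hle i) hz0.le
          linarith
  · intro L hL hinv σ z
    choose r N' Φ' s' hr hN' hP' hH using key σ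
    have hr' : ∀ i, (0 : ℝ) < r i := fun i => by exact_mod_cast hr i
    have hzc : (z : ℂ) = (z.re : ℂ) + (z.im : ℂ) * Complex.I := by
      rw [← UpperHalfPlane.coe_re, ← UpperHalfPlane.coe_im, Complex.re_add_im]
    -- the summands
    let K : Fin n → ℝ → ℂ := fun i ξ => (F i).H t P (Φ' i) ((ξ : ℂ) + ((r i * z.im : ℝ) : ℂ) * Complex.I)
    have hK : ∀ i, Continuous (K i) ∧ ∀ (x₀ : ℝ) (k : ℕ), ∫ x in x₀..(x₀ + k), K i x = 0 := fun i =>
      h3 D hD hsq (F i) (N' i) (hN' i) (Φ' i) (hP' i) t P ht hP hexp (r i * z.im)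
        (mul_pos (hr' i) z.im_pos)
    let g : ℝ → ℂ := fun x => u ((σ • (x +ᵥ z) : ℍ) : ℂ)
    have hg : g = fun x => ∑ i, cf i * (((1 / √(r i : ℝ) : ℝ) : ℂ) *
        K i (sg (s' i) * r i * (x + z.re))) := by
      funext x
      simp only [g]
      rw [hu _ (σ • (x +ᵥ z) : ℍ).im_pos]
      refine Finset.sum_congr rfl fun i _ => ?_
      rw [hH i (x +ᵥ z)]
      have h5 : ((x +ᵥ z : ℍ) : ℂ) = ((x + z.re : ℝ) : ℂ) + ((z.im : ℝ) : ℂ) * Complex.I := by
        rw [UpperHalfPlane.coe_vadd, hzc]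
        push_cast
        ring
      have h6 : ((r i : ℂ)) = (((r i : ℝ)) : ℂ) := by push_cast; rfl
      rw [h6, rf_coord (s' i) (r i : ℝ) (x + z.re) z.im _ h5]
    have hcont : Continuous g := by
      rw [hg]
      refine continuous_finsetSum _ fun i _ => ?_
      refine continuous_const.mul (continuous_const.mul ((hK i).1.comp ?_))
      fun_prop
    have hper : Function.Periodic g (L : ℝ) := by
      intro x
      simp only [g]
      have h5 : ((x + (L : ℝ)) +ᵥ z : ℍ) = tm (L : ℤ) • (x +ᵥ z : ℍ) := by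
        rw [tm_act, ← add_vadd, add_comm]
      have h6 := hinv _ (conj_mem σ L) (σ • (x +ᵥ z : ℍ))
      rw [mul_smul, mul_smul, inv_smul_smul, ← h5] at h6
      exact h6
    obtain ⟨k, hk, hkm⟩ := common n r hr
    have hlong : ∫ x in (0 : ℝ)..((k : ℝ) * L), g x = 0 := by
      rw [hg, intervalIntegral.integral_finsetSum]
      · refine Finset.sum_eq_zero fun i _ => ?_
        rw [intervalIntegral.integral_const_mul, intervalIntegral.integral_const_mul]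
        obtain ⟨m, hm⟩ := hkm i
        have h7 : (r i : ℝ) * ((k : ℝ) * L) = ((m * L : ℕ) : ℝ) := by
          have h8 : (r i : ℝ) * (k : ℝ) = (m : ℝ) := by exact_mod_cast hm
          push_cast
          rw [← mul_assoc, h8]
        rw [long_zero (K i) (hK i).2 (sg (s' i)) (r i) z.re ((k : ℝ) * L) (sg_cases _) (hr' i)
          (m * L) h7]
        simp
      · intro i _
        refine Continuous.intervalIntegrable ?_ _ _
        refine continuous_const.mul (continuous_const.mul ((hK i).1.comp ?_))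
        fun_prop
    have h9 := hper.intervalIntegral_add_zsmul_eq (k : ℤ) 0
      (fun a b => hcont.intervalIntegrable a b)
    rw [zero_add, zero_add] at h9
    have h10 : ((k : ℤ) • (L : ℝ)) = (k : ℝ) * L := by simp
    rw [h10, hlong] at h9
    have h11 : (k : ℤ) • ∫ x in (0 : ℝ)..(L : ℝ), g x = 0 := h9.symm
    rcases smul_eq_zero.mp h11 with h12 | h12
    · exfalso
      have : k = 0 := by exact_mod_cast h12
      omega
    · exact h12

end Pool.Agent.H505.MF.CUS
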