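import Pool.Agent.H505.MF.Stm

/-!
# Project MF, leaf DEC: exponential decay of the theta integrals
-/

set_option autoImplicit false

open Complex MeasureTheory

namespace Pool.Agent.H505.MF.DEC

open scoped Real

variable {D : ℕ} (F : Fm D)

lemma norm_gs (w : ℂ) (v : ℝ) (p : ℤ × ℤ) :
    ‖F.gs w v p‖ = Real.exp (-(π * w.im * F.maj v p.1 p.2)) := by
  unfold Fm.gs Fm.gsR
  rw [Complex.norm_exp]
  congr 1
  have h : (2 * (π : ℂ) * I * (w.re : ℂ) * ((F.qR p.1 p.2 : ℝ) : ℂ) -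
      (π : ℂ) * (w.im : ℂ) * ((F.maj v p.1 p.2 : ℝ) : ℂ)) =
      ((-(π * w.im * F.maj v p.1 p.2) : ℝ) : ℂ) + ((2 * π * w.re * F.qR p.1 p.2 : ℝ) : ℂ) * I := by
    push_cast
    ring
  rw [h, Complex.add_re, Complex.ofReal_re, Complex.re_ofReal_mul, Complex.I_re, mul_zero, add_zero]

lemma gs_zero (w : ℂ) (v : ℝ) : F.gs w v 0 = 1 := by
  unfold Fm.gs Fm.gsR Fm.qR Fm.maj
  simp

lemma isSquare_of {D : ℕ} {n y : ℤ} (hy : y ≠ 0) (h : n ^ 2 = D * y ^ 2) : IsSquare D := by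
  have h1 : y ∣ n := by
    rw [← Int.pow_dvd_pow_iff (n := 2) (by norm_num)]
    exact ⟨D, by rw [h, mul_comm]⟩
  obtain ⟨k, rfl⟩ := h1
  have h2 : k ^ 2 = D := by
    have h3 : y ^ 2 * (k ^ 2 - D) = 0 := by linear_combination h
    rcases mul_eq_zero.1 h3 with h4 | h4
    · exact absurd (pow_eq_zero_iff (by norm_num) |>.1 h4) hy
    · linarith
  refine ⟨k.natAbs, ?_⟩
  zify
  rw [← h2, sq, abs_mul_abs_self]

lemma q_ne_zero (hD : ¬ IsSquare D) {p : ℤ × ℤ} (hp : p ≠ 0) : F.q p ≠ 0 := by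
  intro h
  unfold Fm.q at h
  have hd := F.disc
  by_cases hA : F.A = 0
  · exact hD (isSquare_of (n := F.B) (y := 1) one_ne_zero (by rw [← hd, hA]; ring))
  have h5 : (2 * F.A * p.1 + F.B * p.2) ^ 2 = D * p.2 ^ 2 := by
    linear_combination 4 * F.A * h + p.2 ^ 2 * hd
  by_cases h2 : p.2 = 0
  · apply hp
    rw [h2] at h
    have h1 : p.1 = 0 := by
      simpa [hA] using h
    exact Prod.ext h1 h2
  · exact hD (isSquare_of h2 h5)

lemma maj_ge (hD : ¬ IsSquare D) {p : ℤ × ℤ} (hp : p ≠ 0) (v : ℝ) : 2 ≤ F.maj v p.1 p.2 := by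
  have h0 : (F.a1 * p.1 + F.b1 * p.2) * (F.a2 * p.1 + F.b2 * p.2) = ((F.q p : ℤ) : ℝ) := by
    unfold Fm.q
    push_cast
    rw [← F.hA, ← F.hB, ← F.hC]
    ring
  have h1 : (1 : ℝ) ≤ |(F.a1 * p.1 + F.b1 * p.2) * (F.a2 * p.1 + F.b2 * p.2)| := by
    rw [h0]
    have := Int.one_le_abs (q_ne_zero F hD hp)
    exact_mod_cast this
  unfold Fm.maj
  obtain ⟨a, ha'⟩ : ∃ a : ℝ, a = F.a1 * p.1 + F.b1 * p.2 := ⟨_, rfl⟩
  obtain ⟨b, hb'⟩ : ∃ b : ℝ, b = F.a2 * p.1 + F.b2 * p.2 := ⟨_, rfl⟩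
  rw [← ha', ← hb'] at h1 ⊢
  have h3 : 2 * |a * b| ≤ a ^ 2 * Real.exp v + b ^ 2 * Real.exp (-v) := by
    have ha : Real.exp v = Real.exp (v / 2) ^ 2 := by
      rw [← Real.exp_nat_mul]; congr 1; push_cast; ring
    have hb : Real.exp (-v) = Real.exp (-v / 2) ^ 2 := by
      rw [← Real.exp_nat_mul]; congr 1; push_cast; ring
    have hc : Real.exp (v / 2) * Real.exp (-v / 2) = 1 := by rw [← Real.exp_add]; simp [neg_div]
    rw [ha, hb]
    have h4 : |a * b| = |a * Real.exp (v / 2)| * |b * Real.exp (-v / 2)| := by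
      rw [← abs_mul]
      congr 1
      linear_combination (-(a * b)) * hc
    rw [h4]
    have h5 := two_mul_le_add_sq |a * Real.exp (v / 2)| |b * Real.exp (-v / 2)|
    rw [sq_abs, sq_abs, mul_pow, mul_pow] at h5
    linarith
  linarith

lemma gs_le (hD : ¬ IsSquare D) {P δ : ℝ} (hδ : 0 < δ) {g : ℤ × ℤ → ℝ}
    (hg : ∀ (w : ℂ) (v : ℝ), δ / 2 ≤ w.im → |v| ≤ P → ∀ p : ℤ × ℤ, ‖F.gs w v p‖ ≤ g p)
    {z : ℂ} (hz : δ ≤ z.im) {v : ℝ} (hv : |v| ≤ P) {p : ℤ × ℤ} (hp : p ≠ 0) :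
    ‖F.gs z v p‖ ≤ Real.exp (-(π * z.im)) * g p := by
  have h1 := hg (((δ / 2 : ℝ) : ℂ) * I) v (by simp) hv p
  rw [norm_gs] at h1 ⊢
  have him : (((δ / 2 : ℝ) : ℂ) * I).im = δ / 2 := by simp
  rw [him] at h1
  have h2 := maj_ge F hD hp v
  refine le_trans ?_ (mul_le_mul_of_nonneg_left h1 (Real.exp_pos _).le)
  rw [← Real.exp_add]
  apply Real.exp_le_exp.mpr
  have hpi := Real.pi_pos
  have hpos : 0 ≤ z.im - δ / 2 := by linarith
  have h3 : π * (z.im - δ / 2) * 2 ≤ π * (z.im - δ / 2) * F.maj v p.1 p.2 :=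
    mul_le_mul_of_nonneg_left h2 (by positivity)
  nlinarith

lemma sqrt_exp {y : ℝ} (hy : 0 < y) :
    √y * Real.exp (-(π * y)) ≤ Real.exp (-(π / 2) * y) := by
  have h1 : √y ≤ 1 + y := by
    rw [Real.sqrt_le_left (by positivity)]
    nlinarith
  have h2 : π / 2 * y + 1 ≤ Real.exp (π / 2 * y) := Real.add_one_le_exp _
  have h3 : √y ≤ Real.exp (π / 2 * y) := by
    have := Real.pi_gt_three
    nlinarith
  have h4 : Real.exp (π / 2 * y) * Real.exp (-(π * y)) = Real.exp (-(π / 2) * y) := by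
    rw [← Real.exp_add]; congr 1; ring
  calc √y * Real.exp (-(π * y)) ≤ Real.exp (π / 2 * y) * Real.exp (-(π * y)) :=
        mul_le_mul_of_nonneg_right h3 (Real.exp_pos _).le
    _ = _ := h4

/-- periodic functions are bounded -/
lemma per_bdd {N : ℕ} (hN : 0 < N) {Φ : ℤ × ℤ → ℂ} (hΦ : Per N Φ) :
    ∃ M : ℝ, 0 ≤ M ∧ ∀ p, ‖Φ p‖ ≤ M := by
  refine ⟨∑ h ∈ Finset.range N ×ˢ Finset.range N, ‖Φ ((h.1 : ℤ), (h.2 : ℤ))‖,
    Finset.sum_nonneg fun _ _ => norm_nonneg _, fun p => ?_⟩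
  have hN' : (0 : ℤ) < N := by exact_mod_cast hN
  have h1 : Φ p = Φ (((p.1 % N).toNat : ℤ), ((p.2 % N).toNat : ℤ)) := by
    rw [Int.toNat_of_nonneg (Int.emod_nonneg _ hN'.ne'),
      Int.toNat_of_nonneg (Int.emod_nonneg _ hN'.ne')]
    rw [← hΦ (p.1 % N, p.2 % N) (p.1 / N, p.2 / N)]
    congr 1
    apply Prod.ext
    · exact (Int.emod_add_mul_ediv p.1 N).symm
    · exact (Int.emod_add_mul_ediv p.2 N).symm
  rw [h1]
  refine Finset.single_le_sum (f := fun h : ℕ × ℕ => ‖Φ ((h.1 : ℤ), (h.2 : ℤ))‖)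
    (fun _ _ => norm_nonneg _) (a := ((p.1 % N).toNat, (p.2 % N).toNat)) ?_
  rw [Finset.mem_product, Finset.mem_range, Finset.mem_range]
  constructor
  · rw [Int.toNat_lt (Int.emod_nonneg _ hN'.ne')]
    exact Int.emod_lt_of_pos _ hN'
  · rw [Int.toNat_lt (Int.emod_nonneg _ hN'.ne')]
    exact Int.emod_lt_of_pos _ hN'

/-- the theta function without its constant term -/
noncomputable def Tr (Φ : ℤ × ℤ → ℂ) (z : ℂ) (v : ℝ) : ℂ :=
  (√z.im : ℝ) * ∑' p : ℤ × ℤ, if p = 0 then 0 else Φ p * F.gs z v p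

lemma summable_th {P δ : ℝ} {g : ℤ × ℤ → ℝ} (hgs : Summable g)
    (hg : ∀ (w : ℂ) (v : ℝ), δ / 2 ≤ w.im → |v| ≤ P → ∀ p : ℤ × ℤ, ‖F.gs w v p‖ ≤ g p)
    {Φ : ℤ × ℤ → ℂ} {M : ℝ} (hM0 : 0 ≤ M) (hM : ∀ p, ‖Φ p‖ ≤ M)
    {z : ℂ} (hz : δ / 2 ≤ z.im) {v : ℝ} (hv : |v| ≤ P) :
    Summable fun p => Φ p * F.gs z v p := by
  refine Summable.of_norm_bounded (hgs.mul_left M) fun p => ?_
  rw [norm_mul]
  exact mul_le_mul (hM _) (hg z v hz hv p) (norm_nonneg _) hM0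

theorem main : S_LOW → S_SUM → S_DEC := by
  intro _ hSUM D hD hsq F N hN Φ hΦ t P ht hP hexp δ hδ
  obtain ⟨g, hgs, hg⟩ := hSUM D hD F P (δ / 2) (by positivity)
  obtain ⟨M, hM0, hM⟩ := per_bdd hN hΦ
  have hg0 : ∀ p, 0 ≤ g p := fun p =>
    (norm_nonneg _).trans (hg (((δ / 2 : ℝ) : ℂ) * I) 0 (by simp) (by simp [hP.le]) p)
  have hG : 0 ≤ ∑' p, g p := tsum_nonneg hg0
  have hTr : ∀ z : ℂ, δ ≤ z.im → ∀ v : ℝ, |v| ≤ P →
      ‖Tr F Φ z v‖ ≤ (M * ∑' p, g p) * Real.exp (-(π / 2) * z.im) := by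
    intro z hz v hv
    have hy : 0 < z.im := hδ.trans_le hz
    have h1 : ‖∑' p : ℤ × ℤ, if p = 0 then 0 else Φ p * F.gs z v p‖ ≤
        ∑' p, M * Real.exp (-(π * z.im)) * g p := by
      refine tsum_of_norm_bounded (hgs.mul_left _).hasSum fun p => ?_
      split_ifs with hp
      · rw [norm_zero]
        have := hg0 p
        positivity
      · rw [norm_mul, mul_assoc]
        exact mul_le_mul (hM _) (gs_le F hsq hδ hg hz hv hp) (norm_nonneg _) hM0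
    unfold Tr
    rw [norm_mul, Complex.norm_real, Real.norm_of_nonneg (Real.sqrt_nonneg _)]
    rw [tsum_mul_left] at h1
    calc √z.im * _ ≤ √z.im * (M * Real.exp (-(π * z.im)) * ∑' p, g p) :=
          mul_le_mul_of_nonneg_left h1 (Real.sqrt_nonneg _)
      _ = (M * ∑' p, g p) * (√z.im * Real.exp (-(π * z.im))) := by ring
      _ ≤ (M * ∑' p, g p) * Real.exp (-(π / 2) * z.im) :=
          mul_le_mul_of_nonneg_left (sqrt_exp hy) (by positivity)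
  have hint : ∫ v in (0 : ℝ)..P, cexp (-(I * t * v)) = 0 := by
    have h0 : (-(I * t) : ℂ) ≠ 0 := neg_ne_zero.2 (mul_ne_zero I_ne_zero (by exact_mod_cast ht))
    have h1 : ∀ v : ℝ, cexp (-(I * t * v)) = cexp (-(I * t) * v) := fun v => by
      congr 1; ring
    simp only [h1]
    rw [integral_exp_mul_complex h0]
    have h2 : cexp (-(I * t) * P) = 1 := by
      rw [neg_mul, Complex.exp_neg, hexp, inv_one]
    rw [h2]
    simp
  refine ⟨M * (∑' p, g p) * P, π / 2, by positivity, fun z hz => ?_⟩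
  have hy : 0 < z.im := hδ.trans_le hz
  have hth : ∀ v : ℝ, |v| ≤ P → (√z.im : ℝ) * F.th Φ z v = (√z.im : ℝ) * Φ 0 + Tr F Φ z v := by
    intro v hv
    unfold Fm.th Tr
    rw [(summable_th F hgs hg hM0 hM (by linarith) hv).tsum_eq_add_tsum_ite 0, mul_add, gs_zero,
      mul_one]
  have hexp1 : ∀ v : ℝ, ‖cexp (-(I * t * v))‖ = 1 := fun v => by
    rw [show (-(I * t * v) : ℂ) = ((-(t * v) : ℝ) : ℂ) * I by push_cast; ring]
    exact norm_exp_ofReal_mul_I _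
  have h1 : ‖∫ v in (0 : ℝ)..P, Tr F Φ z v * cexp (-(I * t * v))‖ ≤
      (M * ∑' p, g p) * Real.exp (-(π / 2) * z.im) * |P - 0| := by
    refine intervalIntegral.norm_integral_le_of_norm_le_const fun v hv => ?_
    rw [norm_mul, hexp1, mul_one]
    rw [Set.uIoc_of_le hP.le] at hv
    exact hTr z hz v (by rw [abs_of_pos hv.1]; exact hv.2)
  have h2 : ∫ v in (0 : ℝ)..P, ((√z.im : ℝ) * Φ 0 : ℂ) * cexp (-(I * t * v)) = 0 := by
    rw [intervalIntegral.integral_const_mul, hint, mul_zero]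
  have hH : F.H t P Φ z = ∫ v in (0 : ℝ)..P, (((√z.im : ℝ) * Φ 0 : ℂ) * cexp (-(I * t * v)) +
      Tr F Φ z v * cexp (-(I * t * v))) := by
    unfold Fm.H
    refine intervalIntegral.integral_congr fun v hv => ?_
    rw [Set.uIcc_of_le hP.le] at hv
    rw [hth v (by rw [abs_of_nonneg hv.1]; exact hv.2), add_mul]
  have hA : IntervalIntegrable (fun v : ℝ => ((√z.im : ℝ) * Φ 0 : ℂ) * cexp (-(I * t * v)))
      MeasureTheory.volume 0 P := by
    apply Continuous.intervalIntegrable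
    fun_prop
  have h4 : ‖F.H t P Φ z‖ ≤ ‖∫ v in (0 : ℝ)..P, Tr F Φ z v * cexp (-(I * t * v))‖ := by
    rw [hH]
    by_cases hB : IntervalIntegrable (fun v : ℝ => Tr F Φ z v * cexp (-(I * t * v)))
        MeasureTheory.volume 0 P
    · rw [intervalIntegral.integral_add hA hB, h2, zero_add]
    · rw [intervalIntegral.integral_undef, norm_zero]
      · exact norm_nonneg _
      · intro h
        apply hB
        have := h.sub hA
        simpa using this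
  refine h4.trans (h1.trans (le_of_eq ?_))
  rw [sub_zero, abs_of_pos hP]
  ring

end Pool.Agent.H505.MF.DEC
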