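import Pool.Agent.H505.MF.Stm

/-! # Leaf FID of project MF (helper225 for helper505) -/

set_option autoImplicit false

open Complex Finset

namespace Pool.Agent.H505.MF.FID

/-- additive character -/
noncomputable def ee (N : ℕ) (k : ℤ) : ℂ := cexp (2 * Real.pi * I * (k : ℂ) / N)

lemma ee_add (N : ℕ) (a b : ℤ) : ee N (a + b) = ee N a * ee N b := by
  unfold ee
  rw [← Complex.exp_add]
  congr 1
  push_cast
  ring

lemma ee_mul_self (N : ℕ) (hN : 0 < N) (k : ℤ) : ee N (N * k) = 1 := by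
  unfold ee
  rw [Complex.exp_eq_one_iff]
  refine ⟨k, ?_⟩
  have : (N : ℂ) ≠ 0 := by exact_mod_cast hN.ne'
  push_cast
  field_simp

lemma ee_per (N : ℕ) (hN : 0 < N) (a b k : ℤ) (h : a = b + N * k) : ee N a = ee N b := by
  rw [h, ee_add, ee_mul_self N hN, mul_one]

lemma ee_dvd (N : ℕ) (hN : 0 < N) (a : ℤ) (h : ee N a = 1) : (N : ℤ) ∣ a := by
  unfold ee at h
  rw [Complex.exp_eq_one_iff] at h
  obtain ⟨k, hk⟩ := h
  refine ⟨k, ?_⟩
  have h1 : (N : ℂ) ≠ 0 := by exact_mod_cast hN.ne'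
  have h2 : (2 * Real.pi * I : ℂ) ≠ 0 := by
    simp [Real.pi_ne_zero]
  have h3 : (2 * Real.pi * I : ℂ) * (a : ℂ) = (2 * Real.pi * I : ℂ) * ((N : ℂ) * k) := by
    field_simp at hk
    rw [mul_comm] at hk
    linear_combination (2 * Real.pi * I : ℂ) * hk
  have h4 := mul_left_cancel₀ h2 h3
  exact_mod_cast h4

lemma ee_mul_left (m n : ℕ) (hm : 0 < m) (a : ℤ) : ee (m * n) (m * a) = ee n a := by
  unfold ee
  congr 1
  have h1 : (m : ℂ) ≠ 0 := by exact_mod_cast hm.ne'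
  push_cast
  by_cases h : (n : ℂ) = 0
  · simp [h]
  · field_simp

lemma ee_mul_right (m n : ℕ) (hn : 0 < n) (a : ℤ) : ee (m * n) (n * a) = ee m a := by
  rw [mul_comm m n, ee_mul_left n m hn]

/-- one-dimensional Chinese remainder sum -/
lemma crt1 (m n : ℕ) (hm : 0 < m) (hn : 0 < n) (h : m.Coprime n) (g : ℤ → ℂ)
    (hg : ∀ x k : ℤ, g (x + ((m * n : ℕ) : ℤ) * k) = g x) :
    ∑ x ∈ range (m * n), g (x : ℤ) =
      ∑ a ∈ range n, ∑ b ∈ range m, g ((m : ℤ) * a + n * b) := by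
  rw [← Finset.sum_product' (range n) (range m) (fun a b => g ((m : ℤ) * a + n * b))]
  symm
  have hinj : Set.InjOn (fun p : ℕ × ℕ => (m * p.1 + n * p.2) % (m * n))
      ((range n ×ˢ range m : Finset (ℕ × ℕ)) : Set (ℕ × ℕ)) := by
    rintro ⟨a, b⟩ hab ⟨a', b'⟩ hab' he
    simp only [coe_product, coe_range, Set.mem_prod, Set.mem_Iio] at hab hab' he
    have he' : m * a + n * b ≡ m * a' + n * b' [MOD m * n] := he
    have h1 : m * a + n * b ≡ m * a' + n * b' [MOD n] := he'.of_mul_left m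
    have h2 : m * a + n * b ≡ m * a' + n * b' [MOD m] := he'.of_mul_right n
    have h1' : m * a ≡ m * a' [MOD n] := by
      have e1 : m * a + n * b ≡ m * a [MOD n] := by
        simp [Nat.ModEq]
      have e2 : m * a' + n * b' ≡ m * a' [MOD n] := by
        simp [Nat.ModEq]
      exact e1.symm.trans (h1.trans e2)
    have h2' : n * b ≡ n * b' [MOD m] := by
      have e1 : m * a + n * b ≡ n * b [MOD m] := by
        simp [Nat.ModEq]
      have e2 : m * a' + n * b' ≡ n * b' [MOD m] := by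
        simp [Nat.ModEq]
      exact e1.symm.trans (h2.trans e2)
    have h3 : a ≡ a' [MOD n] := Nat.ModEq.cancel_left_of_coprime (by simpa using h.symm) h1'
    have h4 : b ≡ b' [MOD m] := Nat.ModEq.cancel_left_of_coprime (by simpa using h) h2'
    have h5 : a = a' := Nat.ModEq.eq_of_lt_of_lt h3 hab.1 hab'.1
    have h6 : b = b' := Nat.ModEq.eq_of_lt_of_lt h4 hab.2 hab'.2
    rw [h5, h6]
  have hmaps : ∀ p ∈ (range n ×ˢ range m : Finset (ℕ × ℕ)),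
      (m * p.1 + n * p.2) % (m * n) ∈ range (m * n) := by
    intro p _
    exact mem_range.mpr (Nat.mod_lt _ (Nat.mul_pos hm hn))
  refine Finset.sum_nbij (fun p : ℕ × ℕ => (m * p.1 + n * p.2) % (m * n)) hmaps hinj ?_ ?_
  · refine Finset.surjOn_of_injOn_of_card_le _ hmaps hinj ?_
    simp [mul_comm]
  · rintro ⟨a, b⟩ _
    have e1 : ((m : ℤ) * a + n * b) = (((m * a + n * b) % (m * n) : ℕ) : ℤ) +
        ((m * n : ℕ) : ℤ) * (((m * a + n * b) / (m * n) : ℕ) : ℤ) := by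
      have := Nat.mod_add_div (m * a + n * b) (m * n)
      exact_mod_cast this.symm
    simp only
    conv_lhs => rw [e1]
    rw [hg]

/-- two-dimensional Chinese remainder sum -/
lemma crt2 (m n : ℕ) (hm : 0 < m) (hn : 0 < n) (h : m.Coprime n) (g : ℤ × ℤ → ℂ)
    (hg : Per (m * n) g) :
    ∑ x ∈ range (m * n) ×ˢ range (m * n), g ((x.1 : ℤ), (x.2 : ℤ)) =
      ∑ a ∈ range n ×ˢ range n, ∑ b ∈ range m ×ˢ range m,
        g ((m : ℤ) * a.1 + n * b.1, (m : ℤ) * a.2 + n * b.2) := by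
  rw [Finset.sum_product' (range (m * n)) (range (m * n)) (fun x y => g ((x : ℤ), (y : ℤ)))]
  rw [crt1 m n hm hn h (fun x => ∑ y ∈ range (m * n), g (x, (y : ℤ)))]
  · rw [Finset.sum_product' (range n) (range n) (fun a a' => ∑ b ∈ range m ×ˢ range m,
        g ((m : ℤ) * a + n * b.1, (m : ℤ) * a' + n * b.2))]
    refine Finset.sum_congr rfl fun a _ => ?_
    have e1 : ∀ b ∈ range m, ∑ y ∈ range (m * n), g ((m : ℤ) * a + n * b, (y : ℤ)) =
        ∑ a' ∈ range n, ∑ b' ∈ range m, g ((m : ℤ) * a + n * b, (m : ℤ) * a' + n * b') := by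
      intro b _
      refine crt1 m n hm hn h (fun y => g ((m : ℤ) * a + n * b, y)) ?_
      intro x k
      have := hg ((m : ℤ) * a + n * b, x) (0, k)
      simpa using this
    rw [Finset.sum_congr rfl e1, Finset.sum_comm]
    refine Finset.sum_congr rfl fun a' _ => ?_
    rw [Finset.sum_product' (range m) (range m) (fun b b' =>
        g ((m : ℤ) * a + n * b, (m : ℤ) * a' + n * b'))]
  · intro x k
    refine Finset.sum_congr rfl fun y _ => ?_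
    have := hg (x, (y : ℤ)) (k, 0)
    simpa using this

/-- translation invariance of the one-dimensional sum -/
lemma shift1 (N : ℕ) (g : ℤ → ℂ) (hg : ∀ x k : ℤ, g (x + (N : ℤ) * k) = g x) (t : ℤ) :
    ∑ x ∈ range N, g ((x : ℤ) + t) = ∑ x ∈ range N, g (x : ℤ) := by
  -- it suffices to treat `t = 1`
  have h1 : ∀ g : ℤ → ℂ, (∀ x k : ℤ, g (x + (N : ℤ) * k) = g x) →
      ∑ x ∈ range N, g ((x : ℤ) + 1) = ∑ x ∈ range N, g (x : ℤ) := by
    intro g hg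
    have e1 := Finset.sum_range_succ (fun x : ℕ => g (x : ℤ)) N
    have e2 := Finset.sum_range_succ' (fun x : ℕ => g (x : ℤ)) N
    have e3 : g (N : ℤ) = g 0 := by
      have := hg 0 1
      simpa using this
    simp only [Nat.cast_add, Nat.cast_one, Nat.cast_zero] at e1 e2
    rw [e1, e3] at e2
    exact (add_right_cancel e2).symm
  have h2 : ∀ k : ℕ, ∀ g : ℤ → ℂ, (∀ x k : ℤ, g (x + (N : ℤ) * k) = g x) →
      ∑ x ∈ range N, g ((x : ℤ) + k) = ∑ x ∈ range N, g (x : ℤ) := by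
    intro k
    induction k with
    | zero => intro g hg; simp
    | succ k ih =>
      intro g hg
      have := h1 (fun x => g (x + k)) (by
        intro x j
        have := hg (x + k) j
        rw [← this]
        congr 1
        ring)
      rw [← ih g hg, ← this]
      refine Finset.sum_congr rfl fun x _ => ?_
      push_cast
      congr 1
      ring
  rcases Nat.eq_zero_or_pos N with rfl | hN
  · simp
  -- reduce to a nonnegative shift
  have e1 : ∀ x : ℤ, g (x + t) = g (x + ((t + N * t.natAbs).toNat : ℤ)) := by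
    intro x
    have h3 : 0 ≤ t + N * t.natAbs := by
      have h4 : (1 : ℤ) ≤ N := by exact_mod_cast hN
      have h5 : -(t.natAbs : ℤ) ≤ t := by omega
      have h6 : (0 : ℤ) ≤ (t.natAbs : ℤ) := by omega
      nlinarith
    rw [Int.toNat_of_nonneg h3]
    have := hg (x + t) t.natAbs
    rw [← this]
    congr 1
    ring
  rw [← h2 (t + N * t.natAbs).toNat g hg]
  exact Finset.sum_congr rfl fun x _ => e1 _

/-- translation invariance of the two-dimensional sum -/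
lemma shift2 (N : ℕ) (g : ℤ × ℤ → ℂ) (hg : Per N g) (t : ℤ × ℤ) :
    ∑ x ∈ range N ×ˢ range N, g ((x.1 : ℤ) + t.1, (x.2 : ℤ) + t.2) =
      ∑ x ∈ range N ×ˢ range N, g ((x.1 : ℤ), (x.2 : ℤ)) := by
  rw [Finset.sum_product' (range N) (range N) (fun x y => g ((x : ℤ) + t.1, (y : ℤ) + t.2)),
    Finset.sum_product' (range N) (range N) (fun x y => g ((x : ℤ), (y : ℤ)))]
  rw [shift1 N (fun x => ∑ y ∈ range N, g (x, (y : ℤ) + t.2))]
  · refine Finset.sum_congr rfl fun x _ => ?_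
    refine shift1 N (fun y => g ((x : ℤ), y)) ?_ t.2
    intro y k
    have := hg ((x : ℤ), y) (0, k)
    simpa using this
  · intro x k
    refine Finset.sum_congr rfl fun y _ => ?_
    have := hg (x, (y : ℤ) + t.2) (k, 0)
    simpa using this

lemma hat_eq (N : ℕ) (Φ : ℤ × ℤ → ℂ) (u : ℤ × ℤ) :
    hat N Φ u = ∑ h ∈ range N ×ˢ range N, Φ ((h.1 : ℤ), (h.2 : ℤ)) *
      ee N ((h.2 : ℤ) * u.1 - (h.1 : ℤ) * u.2) := rfl

lemma per_ee (N : ℕ) (hN : 0 < N) (Φ : ℤ × ℤ → ℂ) (hΦ : Per N Φ) (u : ℤ × ℤ) :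
    Per N (fun h => Φ h * ee N (h.2 * u.1 - h.1 * u.2)) := by
  intro p h
  simp only
  rw [hΦ p h]
  congr 1
  refine ee_per N hN _ _ (h.2 * u.1 - h.1 * u.2) ?_
  ring

lemma M_M (D : ℕ) (F : Fm D) (p : ℤ × ℤ) : F.M (F.M p) = ((D : ℤ) * p.1, (D : ℤ) * p.2) := by
  have h := F.disc
  ext
  · simp only [Fm.M]
    linear_combination p.1 * h
  · simp only [Fm.M]
    linear_combination p.2 * h

lemma per_P (D : ℕ) (F : Fm D) (P : ℤ × ℤ → ℂ) (hP : Wt D F P) : Per D P := by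
  intro p h
  have := hP.per p (F.M h)
  rw [M_M] at this
  rw [← this]
  rfl

lemma sup : S_SUP := by
  intro D hD F P hP
  have hD0 : 0 < D := hD.pos
  have hper := per_P D F P hP
  refine ⟨hper, ?_⟩
  intro u hu
  have key : ∀ m : ℤ × ℤ, (D : ℤ) ∣ ((F.M m).2 * u.1 - (F.M m).1 * u.2) := by
    intro m
    apply ee_dvd D hD0
    have h1 := shift2 D (fun h => P h * ee D (h.2 * u.1 - h.1 * u.2))
      (per_ee D hD0 P hper u) (F.M m)
    have h2 : ∀ x ∈ range D ×ˢ range D,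
        (fun h : ℤ × ℤ => P h * ee D (h.2 * u.1 - h.1 * u.2))
          ((x.1 : ℤ) + (F.M m).1, (x.2 : ℤ) + (F.M m).2) =
        ee D ((F.M m).2 * u.1 - (F.M m).1 * u.2) *
          (P ((x.1 : ℤ), (x.2 : ℤ)) * ee D ((x.2 : ℤ) * u.1 - (x.1 : ℤ) * u.2)) := by
      intro x _
      simp only
      have h3 : P ((x.1 : ℤ) + (F.M m).1, (x.2 : ℤ) + (F.M m).2) = P ((x.1 : ℤ), (x.2 : ℤ)) :=
        hP.per ((x.1 : ℤ), (x.2 : ℤ)) m
      have h4 : ((x.2 : ℤ) + (F.M m).2) * u.1 - ((x.1 : ℤ) + (F.M m).1) * u.2 =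
          ((F.M m).2 * u.1 - (F.M m).1 * u.2) + ((x.2 : ℤ) * u.1 - (x.1 : ℤ) * u.2) := by ring
      rw [h3, h4, ee_add]
      ring
    rw [Finset.sum_congr rfl h2, ← Finset.mul_sum] at h1
    have h5 : hat D P u = ∑ x ∈ range D ×ˢ range D,
        (P ((x.1 : ℤ), (x.2 : ℤ)) * ee D ((x.2 : ℤ) * u.1 - (x.1 : ℤ) * u.2)) := hat_eq D P u
    simp only at h1
    rw [← h5] at h1
    exact mul_right_cancel₀ hu (by rw [h1, one_mul])
  have k1 := key (1, 0)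
  have k2 := key (0, 1)
  simp only [Fm.M] at k1 k2
  have h2q : (D : ℤ) ∣ 2 * F.q u := by
    have e : 2 * F.q u = -(u.1 * (-(2 * F.A * 1 + F.B * 0) * u.1 - (F.B * 1 + 2 * F.C * 0) * u.2) +
        u.2 * (-(2 * F.A * 0 + F.B * 1) * u.1 - (F.B * 0 + 2 * F.C * 1) * u.2)) := by
      simp only [Fm.q]
      ring
    rw [e]
    exact (Dvd.dvd.neg_right (dvd_add (Dvd.dvd.mul_left k1 _) (Dvd.dvd.mul_left k2 _)))
  have hcop : IsCoprime (D : ℤ) 2 := by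
    have : Nat.Coprime D 2 := Nat.Coprime.symm ((Nat.coprime_two_left).mpr hD)
    exact_mod_cast (Nat.isCoprime_iff_coprime.mpr this)
  exact hcop.dvd_of_dvd_mul_left h2q

lemma fid (hG : S_GAU) : S_FID := by
  intro D hD F P hP ℓ hℓ hℓ2 hA hℓD b γ δ hγ hδ u
  have hD0 : 0 < D := by omega
  have hℓ0 : 0 < ℓ := hℓ.pos
  have hcop : ℓ.Coprime D := (Nat.Prime.coprime_iff_not_dvd hℓ).mpr hℓD
  have hper := per_P D F P hP
  have hgau := hG D F ℓ hℓ hℓ2 hA hℓD (b * D ^ 2) γ δ hγ hδ u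
  -- the weight function is periodic modulo `ℓ D`
  have hΦ : Per (ℓ * D) (fun h => P h * ee ℓ (b * F.q h)) := by
    intro p h
    simp only
    have e1 : P (p.1 + ((ℓ * D : ℕ) : ℤ) * h.1, p.2 + ((ℓ * D : ℕ) : ℤ) * h.2) = P p := by
      have := hper p (ℓ * h.1, ℓ * h.2)
      rw [← this]
      congr 2
      · push_cast; ring
      · push_cast; ring
    rw [e1]
    congr 1
    refine ee_per ℓ hℓ0 _ _ (b * (F.A * (2 * p.1 * (D * h.1) + ℓ * (D * h.1) ^ 2) +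
      F.B * (p.1 * (D * h.2) + p.2 * (D * h.1) + ℓ * (D * h.1) * (D * h.2)) +
      F.C * (2 * p.2 * (D * h.2) + ℓ * (D * h.2) ^ 2))) ?_
    simp only [Fm.q]
    push_cast
    ring
  have hN : 0 < ℓ * D := Nat.mul_pos hℓ0 hD0
  have h1 := crt2 ℓ D hℓ0 hD0 hcop _ (per_ee (ℓ * D) hN _ hΦ u)
  have hL : hat (ℓ * D) (fun h => P h * cexp (2 * Real.pi * I * ((b * F.q h : ℤ) : ℂ) / ℓ)) u =
      ∑ x ∈ range (ℓ * D) ×ˢ range (ℓ * D),
        (fun h : ℤ × ℤ => (fun h : ℤ × ℤ => P h * ee ℓ (b * F.q h)) h *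
          ee (ℓ * D) (h.2 * u.1 - h.1 * u.2)) ((x.1 : ℤ), (x.2 : ℤ)) := rfl
  rw [hL, h1]
  have h2 : ∀ a ∈ range D ×ˢ range D, ∀ c ∈ range ℓ ×ˢ range ℓ,
      (fun h : ℤ × ℤ => (fun h : ℤ × ℤ => P h * ee ℓ (b * F.q h)) h *
          ee (ℓ * D) (h.2 * u.1 - h.1 * u.2))
        ((ℓ : ℤ) * a.1 + D * c.1, (ℓ : ℤ) * a.2 + D * c.2) =
      (((jacobiSym (ℓ : ℤ) D : ℤ) : ℂ) * (P ((a.1 : ℤ), (a.2 : ℤ)) *
        ee D ((a.2 : ℤ) * u.1 - (a.1 : ℤ) * u.2))) *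
      (ee ℓ (b * D ^ 2 * F.q ((c.1 : ℤ), (c.2 : ℤ))) *
        ee ℓ ((c.2 : ℤ) * u.1 - (c.1 : ℤ) * u.2)) := by
    intro a _ c _
    simp only
    have e1 : P ((ℓ : ℤ) * a.1 + D * c.1, (ℓ : ℤ) * a.2 + D * c.2) =
        ((jacobiSym (ℓ : ℤ) D : ℤ) : ℂ) * P ((a.1 : ℤ), (a.2 : ℤ)) := by
      have := hper ((ℓ : ℤ) * a.1, (ℓ : ℤ) * a.2) ((c.1 : ℤ), (c.2 : ℤ))
      simp only at this
      rw [this]
      exact hP.mul ℓ ((a.1 : ℤ), (a.2 : ℤ)) hcop
    have e2 : ee ℓ (b * F.q ((ℓ : ℤ) * a.1 + D * c.1, (ℓ : ℤ) * a.2 + D * c.2)) =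
        ee ℓ (b * D ^ 2 * F.q ((c.1 : ℤ), (c.2 : ℤ))) := by
      refine ee_per ℓ hℓ0 _ _ (b * (F.A * (ℓ * a.1 ^ 2 + 2 * a.1 * (D * c.1)) +
        F.B * (ℓ * a.1 * a.2 + a.1 * (D * c.2) + a.2 * (D * c.1)) +
        F.C * (ℓ * a.2 ^ 2 + 2 * a.2 * (D * c.2)))) ?_
      simp only [Fm.q]
      ring
    have e3 : ee (ℓ * D) (((ℓ : ℤ) * a.2 + D * c.2) * u.1 - ((ℓ : ℤ) * a.1 + D * c.1) * u.2) =
        ee D ((a.2 : ℤ) * u.1 - (a.1 : ℤ) * u.2) * ee ℓ ((c.2 : ℤ) * u.1 - (c.1 : ℤ) * u.2) := by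
      have e4 : ((ℓ : ℤ) * a.2 + D * c.2) * u.1 - ((ℓ : ℤ) * a.1 + D * c.1) * u.2 =
        (ℓ : ℤ) * ((a.2 : ℤ) * u.1 - (a.1 : ℤ) * u.2) +
          (D : ℤ) * ((c.2 : ℤ) * u.1 - (c.1 : ℤ) * u.2) := by ring
      rw [e4, ee_add, ee_mul_left ℓ D hℓ0, ee_mul_right ℓ D hD0]
    rw [e1, e2, e3]
    ring
  rw [Finset.sum_congr rfl fun a ha => Finset.sum_congr rfl (h2 a ha)]
  rw [← Finset.sum_mul_sum, ← Finset.mul_sum]
  have h3 : ∑ a ∈ range D ×ˢ range D, (P ((a.1 : ℤ), (a.2 : ℤ)) *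
      ee D ((a.2 : ℤ) * u.1 - (a.1 : ℤ) * u.2)) = hat D P u := rfl
  have h4 : ∑ c ∈ range ℓ ×ˢ range ℓ, (ee ℓ (b * D ^ 2 * F.q ((c.1 : ℤ), (c.2 : ℤ))) *
        ee ℓ ((c.2 : ℤ) * u.1 - (c.1 : ℤ) * u.2)) =
      hat ℓ (fun h => cexp (2 * Real.pi * I * ((b * D ^ 2 * F.q h : ℤ) : ℂ) / ℓ)) u := rfl
  rw [h3, h4, hgau]
  have h5 : ((jacobiSym (ℓ : ℤ) D : ℤ) : ℂ) * ((jacobiSym (D : ℤ) ℓ : ℤ) : ℂ) = 1 := by
    have hodd : Odd ℓ := hℓ.odd_of_ne_two hℓ2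
    have r := jacobiSym.quadratic_reciprocity_one_mod_four hD hodd
    rw [← r, ← Int.cast_mul]
    have r2 : jacobiSym (D : ℤ) ℓ ^ 2 = 1 := by
      apply jacobiSym.sq_one
      simpa using hcop.symm
    rw [← sq, r2]
    simp
  calc ((jacobiSym (ℓ : ℤ) D : ℤ) : ℂ) * hat D P u *
        (((jacobiSym (D : ℤ) ℓ : ℤ) : ℂ) * ℓ *
          cexp (2 * Real.pi * I * ((γ * δ * F.q u : ℤ) : ℂ) / ℓ))
      = (((jacobiSym (ℓ : ℤ) D : ℤ) : ℂ) * ((jacobiSym (D : ℤ) ℓ : ℤ) : ℂ)) *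
        (ℓ * hat D P u * cexp (2 * Real.pi * I * ((γ * δ * F.q u : ℤ) : ℂ) / ℓ)) := by ring
    _ = _ := by rw [h5, one_mul]

theorem main : S_SUP ∧ (S_GAU → S_FID) := ⟨sup, fid⟩

end Pool.Agent.H505.MF.FID
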