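import Pool.Agent.H505.MF.Stm

/-! # Leaf GAU: the binary quadratic Gauss sum modulo an odd prime -/

set_option autoImplicit false

open Complex

namespace Pool.Agent.H505.MF.GAU

open Pool.Agent.H505.MF

/-- the quadratic character with complex values -/
noncomputable def chi (ℓ : ℕ) [Fact ℓ.Prime] : MulChar (ZMod ℓ) ℂ :=
  (quadraticChar (ZMod ℓ)).ringHomComp (Int.castRingHom ℂ)

/-- the standard additive character -/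
noncomputable def psi (ℓ : ℕ) [Fact ℓ.Prime] : AddChar (ZMod ℓ) ℂ := ZMod.stdAddChar

variable {ℓ : ℕ} [Fact ℓ.Prime]

theorem psi_int (j : ℤ) : psi ℓ (j : ZMod ℓ) = cexp (2 * Real.pi * I * (j : ℂ) / ℓ) :=
  ZMod.stdAddChar_coe j

theorem psi_prim : (psi ℓ).IsPrimitive := ZMod.isPrimitive_stdAddChar ℓ

theorem char_ne (hℓ : ℓ ≠ 2) : ringChar (ZMod ℓ) ≠ 2 := by
  rwa [ZMod.ringChar_zmod_n]

theorem chi_apply (a : ZMod ℓ) : chi ℓ a = ((quadraticChar (ZMod ℓ) a : ℤ) : ℂ) := rfl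

theorem chi_sq {a : ZMod ℓ} (ha : a ≠ 0) : chi ℓ a * chi ℓ a = 1 := by
  have h := quadraticChar_sq_one ha
  rw [chi_apply, ← pow_two]
  exact_mod_cast congrArg (fun z : ℤ => (z : ℂ)) h

theorem chi_ne_one (hℓ : ℓ ≠ 2) : chi ℓ ≠ 1 := by
  obtain ⟨a, ha⟩ := quadraticChar_exists_neg_one' (F := ZMod ℓ) (char_ne hℓ)
  intro h
  have h1 : chi ℓ (a : ZMod ℓ) = -1 := by
    rw [chi_apply, ha]; simp
  rw [h, MulChar.one_apply_coe] at h1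
  norm_num at h1

theorem chi_quad : (chi ℓ).IsQuadratic := (quadraticChar_isQuadratic (ZMod ℓ)).comp _

theorem g_sq (hℓ : ℓ ≠ 2) : gaussSum (chi ℓ) (psi ℓ) ^ 2 = chi ℓ (-1) * ℓ := by
  have h := gaussSum_sq (chi_ne_one hℓ) chi_quad (psi_prim (ℓ := ℓ))
  rwa [ZMod.card] at h

theorem sq_sum (hℓ : ℓ ≠ 2) (a : ZMod ℓ) :
    ∑ x : ZMod ℓ, psi ℓ (a * x ^ 2) = ∑ t : ZMod ℓ, (chi ℓ t + 1) * psi ℓ (a * t) := by
  classical
  rw [← Finset.sum_fiberwise Finset.univ (fun x : ZMod ℓ => x ^ 2)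
    (fun x => psi ℓ (a * x ^ 2))]
  refine Finset.sum_congr rfl fun t _ => ?_
  have h1 : ∑ x ∈ Finset.univ.filter (fun x : ZMod ℓ => x ^ 2 = t), psi ℓ (a * x ^ 2) =
      ∑ x ∈ Finset.univ.filter (fun x : ZMod ℓ => x ^ 2 = t), psi ℓ (a * t) :=
    Finset.sum_congr rfl fun x hx => by rw [(Finset.mem_filter.1 hx).2]
  rw [h1, Finset.sum_const, nsmul_eq_mul]
  congr 1
  have h2 := quadraticChar_card_sqrts (F := ZMod ℓ) (char_ne hℓ) t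
  have h3 : ({x : ZMod ℓ | x ^ 2 = t} : Set (ZMod ℓ)).toFinset =
      Finset.univ.filter (fun x : ZMod ℓ => x ^ 2 = t) := by
    ext x; simp
  rw [h3] at h2
  rw [chi_apply]
  exact_mod_cast congrArg (fun z : ℤ => (z : ℂ)) h2

theorem G_eval (hℓ : ℓ ≠ 2) {a : ZMod ℓ} (ha : a ≠ 0) :
    ∑ x : ZMod ℓ, psi ℓ (a * x ^ 2) = chi ℓ a * gaussSum (chi ℓ) (psi ℓ) := by
  classical
  rw [sq_sum hℓ]
  simp only [add_mul, one_mul, Finset.sum_add_distrib]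
  have h1 : ∑ t : ZMod ℓ, psi ℓ (a * t) = 0 := by
    have h := AddChar.sum_mulShift a (psi_prim (ℓ := ℓ))
    rw [if_neg ha, Nat.cast_zero] at h
    rw [← h]
    exact Finset.sum_congr rfl fun t _ => by rw [mul_comm]
  have h2 : ∑ t : ZMod ℓ, chi ℓ t * psi ℓ (a * t) =
      gaussSum (chi ℓ) (AddChar.mulShift (psi ℓ) a) := by
    unfold gaussSum
    exact Finset.sum_congr rfl fun t _ => by rw [AddChar.mulShift_apply]
  rw [h1, h2, add_zero]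
  have h3 := gaussSum_mulShift (chi ℓ) (psi ℓ) (Units.mk0 a ha)
  simp only [Units.val_mk0] at h3
  rw [← h3, ← mul_assoc, chi_sq ha, one_mul]

theorem two_ne (hℓ : ℓ ≠ 2) : (2 : ZMod ℓ) ≠ 0 := Ring.two_ne_zero (char_ne hℓ)

/-- completing the square in one variable -/
theorem one_var (hℓ : ℓ ≠ 2) {a : ZMod ℓ} (b c : ZMod ℓ) (ha : a ≠ 0) :
    ∑ x : ZMod ℓ, psi ℓ (a * x ^ 2 + b * x + c) =
      psi ℓ (c - b ^ 2 / (4 * a)) * ∑ x : ZMod ℓ, psi ℓ (a * x ^ 2) := by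
  have h2 := two_ne hℓ
  have h4 : (4 : ZMod ℓ) ≠ 0 := by
    have : (4 : ZMod ℓ) = 2 * 2 := by norm_num
    rw [this]; exact mul_ne_zero h2 h2
  rw [← Equiv.sum_comp (Equiv.addRight (-(b / (2 * a))))
    (fun x => psi ℓ (a * x ^ 2 + b * x + c)), Finset.mul_sum]
  refine Finset.sum_congr rfl fun x _ => ?_
  rw [← AddChar.map_add_eq_mul]
  congr 1
  simp only [Equiv.coe_addRight]
  field_simp
  ring

/-- the binary Gauss sum -/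
theorem two_var (hℓ : ℓ ≠ 2) {A B C D β : ZMod ℓ} (hd : B ^ 2 - 4 * A * C = D) (hA : A ≠ 0)
    (hD : D ≠ 0) (hβ : β ≠ 0) (u1 u2 : ZMod ℓ) :
    ∑ x : ZMod ℓ, ∑ y : ZMod ℓ,
      psi ℓ (β * (A * x ^ 2 + B * x * y + C * y ^ 2) + (y * u1 - x * u2)) =
      chi ℓ D * ℓ * psi ℓ ((A * u1 ^ 2 + B * u1 * u2 + C * u2 ^ 2) / (β * D)) := by
  have h2 := two_ne hℓ
  have h4 : (4 : ZMod ℓ) ≠ 0 := by
    have : (4 : ZMod ℓ) = 2 * 2 := by norm_num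
    rw [this]; exact mul_ne_zero h2 h2
  have hβA : β * A ≠ 0 := mul_ne_zero hβ hA
  have hc : -(β * D) / (4 * A) ≠ 0 :=
    div_ne_zero (neg_ne_zero.2 (mul_ne_zero hβ hD)) (mul_ne_zero h4 hA)
  rw [Finset.sum_comm]
  have e1 : ∀ y : ZMod ℓ, ∑ x : ZMod ℓ,
      psi ℓ (β * (A * x ^ 2 + B * x * y + C * y ^ 2) + (y * u1 - x * u2)) =
      psi ℓ (-(β * D) / (4 * A) * y ^ 2 + (u1 + B * u2 / (2 * A)) * y +
        -(u2 ^ 2 / (4 * β * A))) * ∑ x : ZMod ℓ, psi ℓ (β * A * x ^ 2) := by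
    intro y
    have h := one_var hℓ (β * B * y - u2) (β * C * y ^ 2 + y * u1) hβA
    have e2 : ∀ x : ZMod ℓ, β * A * x ^ 2 + (β * B * y - u2) * x + (β * C * y ^ 2 + y * u1) =
        β * (A * x ^ 2 + B * x * y + C * y ^ 2) + (y * u1 - x * u2) := fun x => by ring
    simp only [e2] at h
    rw [h]
    congr 2
    rw [← hd]
    field_simp
    ring
  simp only [e1]
  rw [← Finset.sum_mul, one_var hℓ _ _ hc, G_eval hℓ hc, G_eval hℓ hβA]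
  have e3 : -(u2 ^ 2 / (4 * β * A)) - (u1 + B * u2 / (2 * A)) ^ 2 / (4 * (-(β * D) / (4 * A))) =
      (A * u1 ^ 2 + B * u1 * u2 + C * u2 ^ 2) / (β * D) := by
    have hD' : B ^ 2 - 4 * A * C ≠ 0 := by rw [hd]; exact hD
    rw [← hd]
    field_simp
    ring
  rw [e3]
  have e4 : chi ℓ (-(β * D) / (4 * A)) * chi ℓ (β * A) * chi ℓ (-1) = chi ℓ D := by
    rw [← map_mul, ← map_mul]
    have e5 : -(β * D) / (4 * A) * (β * A) * -1 = D * ((β / 2) * (β / 2)) := by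
      field_simp
      ring
    rw [e5, map_mul, map_mul, chi_sq (div_ne_zero hβ h2), mul_one]
  have h5 := g_sq (ℓ := ℓ) hℓ
  calc psi ℓ ((A * u1 ^ 2 + B * u1 * u2 + C * u2 ^ 2) / (β * D)) *
        (chi ℓ (-(β * D) / (4 * A)) * gaussSum (chi ℓ) (psi ℓ)) *
        (chi ℓ (β * A) * gaussSum (chi ℓ) (psi ℓ))
      = (chi ℓ (-(β * D) / (4 * A)) * chi ℓ (β * A)) * gaussSum (chi ℓ) (psi ℓ) ^ 2 *
        psi ℓ ((A * u1 ^ 2 + B * u1 * u2 + C * u2 ^ 2) / (β * D)) := by ring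
    _ = (chi ℓ (-(β * D) / (4 * A)) * chi ℓ (β * A) * chi ℓ (-1)) * ℓ *
        psi ℓ ((A * u1 ^ 2 + B * u1 * u2 + C * u2 ^ 2) / (β * D)) := by rw [h5]; ring
    _ = _ := by rw [e4]

theorem sum_range_zmod (f : ZMod ℓ → ℂ) :
    ∑ i ∈ Finset.range ℓ, f (i : ZMod ℓ) = ∑ x : ZMod ℓ, f x := by
  refine Finset.sum_nbij' (fun n : ℕ => (n : ZMod ℓ)) ZMod.val ?_ ?_ ?_ ?_ ?_
  · intro n _; exact Finset.mem_univ _
  · intro x _; exact Finset.mem_range.2 (ZMod.val_lt x)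
  · intro n hn; exact ZMod.val_cast_of_lt (Finset.mem_range.1 hn)
  · intro x _; exact ZMod.natCast_zmod_val x
  · intro n _; rfl

theorem main : S_GAU := by
  intro D F ℓ hp hℓ hA hD β γ δ hβ hδ u
  have : Fact ℓ.Prime := ⟨hp⟩
  have hA' : ((F.A : ℤ) : ZMod ℓ) ≠ 0 := fun h => hA ((ZMod.intCast_zmod_eq_zero_iff_dvd _ _).1 h)
  have hD' : ((D : ℕ) : ZMod ℓ) ≠ 0 := fun h => hD ((ZMod.natCast_eq_zero_iff _ _).1 h)
  have hβγ : (β : ZMod ℓ) * γ = 1 := by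
    have := (ZMod.intCast_zmod_eq_zero_iff_dvd _ _).2 hβ
    push_cast at this
    exact sub_eq_zero.1 this
  have hDδ : ((D : ℕ) : ZMod ℓ) * δ = 1 := by
    have := (ZMod.intCast_zmod_eq_zero_iff_dvd _ _).2 hδ
    push_cast at this
    exact sub_eq_zero.1 this
  have hβ0 : (β : ZMod ℓ) ≠ 0 := left_ne_zero_of_mul_eq_one hβγ
  have hd : ((F.B : ℤ) : ZMod ℓ) ^ 2 - 4 * (F.A : ZMod ℓ) * (F.C : ZMod ℓ) =
      ((D : ℕ) : ZMod ℓ) := by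
    have := congrArg (fun z : ℤ => (z : ZMod ℓ)) F.disc
    push_cast at this
    exact this
  have h1 := two_var hℓ hd hA' hD' hβ0 (u.1 : ZMod ℓ) (u.2 : ZMod ℓ)
  unfold hat
  rw [Finset.sum_product]
  have e1 : ∀ i j : ℕ, cexp (2 * Real.pi * I * ((β * F.q ((i : ℤ), (j : ℤ)) : ℤ) : ℂ) / ℓ) *
      cexp (2 * Real.pi * I * ((((j : ℤ)) * u.1 - ((i : ℤ)) * u.2 : ℤ) : ℂ) / ℓ) =
      psi ℓ ((β : ZMod ℓ) * (F.A * (i : ZMod ℓ) ^ 2 + F.B * (i : ZMod ℓ) * (j : ZMod ℓ) +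
        F.C * (j : ZMod ℓ) ^ 2) + ((j : ZMod ℓ) * u.1 - (i : ZMod ℓ) * u.2)) := by
    intro i j
    rw [← psi_int, ← psi_int, ← AddChar.map_add_eq_mul]
    congr 1
    simp only [Fm.q]
    push_cast
    ring
  simp only [e1]
  have e2 : ∀ i : ℕ, ∑ j ∈ Finset.range ℓ,
      psi ℓ ((β : ZMod ℓ) * (F.A * (i : ZMod ℓ) ^ 2 + F.B * (i : ZMod ℓ) * (j : ZMod ℓ) +
        F.C * (j : ZMod ℓ) ^ 2) + ((j : ZMod ℓ) * u.1 - (i : ZMod ℓ) * u.2)) =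
      ∑ y : ZMod ℓ, psi ℓ ((β : ZMod ℓ) * (F.A * (i : ZMod ℓ) ^ 2 + F.B * (i : ZMod ℓ) * y +
        F.C * y ^ 2) + (y * u.1 - (i : ZMod ℓ) * u.2)) := fun i =>
    sum_range_zmod (fun y : ZMod ℓ => psi ℓ ((β : ZMod ℓ) * ((F.A : ZMod ℓ) * (i : ZMod ℓ) ^ 2 +
      (F.B : ZMod ℓ) * (i : ZMod ℓ) * y + (F.C : ZMod ℓ) * y ^ 2) +
      (y * (u.1 : ZMod ℓ) - (i : ZMod ℓ) * (u.2 : ZMod ℓ))))
  simp only [e2]
  rw [sum_range_zmod (fun x : ZMod ℓ => ∑ y : ZMod ℓ, psi ℓ ((β : ZMod ℓ) *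
    ((F.A : ZMod ℓ) * x ^ 2 + (F.B : ZMod ℓ) * x * y + (F.C : ZMod ℓ) * y ^ 2) +
      (y * (u.1 : ZMod ℓ) - x * (u.2 : ZMod ℓ)))), h1]
  have e3 : chi ℓ ((D : ℕ) : ZMod ℓ) = ((jacobiSym (D : ℤ) ℓ : ℤ) : ℂ) := by
    rw [← jacobiSym.legendreSym.to_jacobiSym, chi_apply, legendreSym]
    push_cast
    rfl
  rw [e3, ← psi_int]
  congr 2
  simp only [Fm.q]
  push_cast
  rw [div_eq_iff (mul_ne_zero hβ0 hD')]
  linear_combination (-((F.A : ZMod ℓ) * (u.1 : ZMod ℓ) ^ 2 + (F.B : ZMod ℓ) * (u.1 : ZMod ℓ) *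
    (u.2 : ZMod ℓ) + (F.C : ZMod ℓ) * (u.2 : ZMod ℓ) ^ 2) * (((D : ℕ) : ZMod ℓ) * (δ : ZMod ℓ))) *
    hβγ - ((F.A : ZMod ℓ) * (u.1 : ZMod ℓ) ^ 2 + (F.B : ZMod ℓ) * (u.1 : ZMod ℓ) *
    (u.2 : ZMod ℓ) + (F.C : ZMod ℓ) * (u.2 : ZMod ℓ) ^ 2) * hDδ

end Pool.Agent.H505.MF.GAU
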