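import Pool.Agent.H505.MF.Stm
import Pool.Graph.R_pool_sql_team_seeded_1acbe0a2.Y807.DMA2

/-!
# Project MF, leaf LAP (helper59): the Fourier series with a phase
-/

set_option autoImplicit false

open Real MeasureTheory UpperHalfPlane Filter Topology Set
open scoped ContDiff Laplacian

namespace Pool.Agent.H505.MF.LAP

open Pool.Agent.Y672.DM (KB)
open Pool.Agent.Y807.DMA

/-- the series with the phase `φ` -/
noncomputable def V (t φ : ℝ) (a : ℕ → ℂ) (z : ℂ) : ℂ := (√z.im : ℂ) * W t a 0 φ z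

/-- the phase -/
noncomputable def ph (e : ℕ) : ℝ := if Even e then 0 else -(π / 2)

theorem cos_ph (e : ℕ) (x : ℝ) : cos (x + ph e) = cs e x := by
  unfold ph cs
  split_ifs with h
  · rw [add_zero]
  · rw [← sub_eq_add_neg, Real.cos_sub_pi_div_two]

theorem term_eq (t : ℝ) (e : ℕ) (a : ℕ → ℂ) (z : ℂ) (n : ℕ) :
    a n * ((√z.im * KB t (2 * π * n * z.im) * cs e (2 * π * n * z.re) : ℝ) : ℂ)
      = (√z.im : ℂ) * (a n * (T t 0 (ph e) n z : ℂ)) := by
  unfold T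
  rw [G_zero, cos_ph]
  push_cast
  ring

theorem UU_eq (t : ℝ) (e : ℕ) (a : ℕ → ℂ) (z : ℂ) : UU t e a z = V t (ph e) a z := by
  unfold UU V W
  rw [← tsum_mul_left]
  exact tsum_congr fun n => term_eq t e a z n

/-- the derivative of `V` -/
theorem V_fderiv (t φ : ℝ) {a : ℕ → ℂ} (h : Gr a) {z : ℂ} (hz : 0 < z.im) (v : ℂ) :
    fderiv ℝ (V t φ a) z v = v.im * ((1 / (2 * √z.im) : ℝ) * W t a 0 φ z +
      (√z.im : ℂ) * W t (dc a) 1 φ z) + v.re * ((√z.im : ℂ) * W t (dc a) 0 (φ + π / 2) z) := by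
  have h1 : HasFDerivAt (fun z : ℂ => (√z.im : ℂ))
      (Complex.ofRealCLM.comp ((1 / (2 * √z.im) : ℝ) • Complex.imCLM)) z :=
    (Complex.ofRealCLM.hasFDerivAt).comp z
      ((Real.hasDerivAt_sqrt hz.ne').comp_hasFDerivAt z Complex.imCLM.hasFDerivAt)
  have h2 := h1.mul (W_hasFDerivAt t h 0 φ hz)
  have h3 : V t φ a = (fun z : ℂ => (√z.im : ℂ)) * W t a 0 φ := funext fun w => rfl
  rw [h3, h2.fderiv]
  simp
  ring

theorem V_contDiffOn (t φ : ℝ) {a : ℕ → ℂ} (h : Gr a) :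
    ContDiffOn ℝ ∞ (V t φ a) {z : ℂ | 0 < z.im} :=
  (sqrt_contDiffOn.mul (W_contDiffOn t h 0 φ)).congr fun z _ => rfl

theorem second (t φ : ℝ) {a : ℕ → ℂ} (h : Gr a) {z : ℂ} (hz : 0 < z.im) :
    (Δ (V t φ a)) z = -((1 / (4 * z.im * √z.im) : ℝ) : ℂ) * W t a 0 φ z +
      ((1 / √z.im : ℝ) : ℂ) * W t (dc a) 1 φ z + (√z.im : ℂ) * W t (dc (dc a)) 2 φ z +
      (√z.im : ℂ) * W t (dc (dc a)) 0 (φ + π / 2 + π / 2) z := by
  have hopen : IsOpen {w : ℂ | 0 < w.im} := isOpen_lt continuous_const Complex.continuous_im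
  have hsq : 0 < √z.im := Real.sqrt_pos.2 hz
  have hU := V_contDiffOn t φ h
  have hd : DifferentiableAt ℝ (fderiv ℝ (V t φ a)) z := by
    have h1 : ContDiffAt ℝ 2 (V t φ a) z := (contDiffOn_infty.1 hU 2).contDiffAt (hopen.mem_nhds hz)
    exact (h1.fderiv_right (m := 1) (by norm_num)).differentiableAt (by norm_num)
  rw [InnerProductSpace.laplacian_eq_iteratedFDeriv_complexPlane]
  simp only [iteratedFDeriv_two_apply, Matrix.cons_val_zero, Matrix.cons_val_one]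
  rw [fderiv_swap hd, fderiv_swap hd]
  have hs : HasDerivAt (fun y : ℝ => √y) (1 / (2 * √z.im)) z.im := Real.hasDerivAt_sqrt hz.ne'
  have hs2 : HasDerivAt (fun y : ℝ => 1 / (2 * √y)) (-(1 / (4 * z.im * √z.im))) z.im := by
    have h1 := (hs.const_mul 2).inv (by positivity)
    refine (h1.congr_of_eventuallyEq (Eventually.of_forall fun y => by simp)).congr_deriv ?_
    have h2 : z.im = √z.im * √z.im := (Real.mul_self_sqrt hz.le).symm
    rw [mul_pow, Real.sq_sqrt hz.le]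
    field_simp
    norm_num
  have e1 : (fun u => fderiv ℝ (V t φ a) u 1) =ᶠ[𝓝 z]
      fun w => ((√w.im : ℝ) : ℂ) * W t (dc a) 0 (φ + π / 2) w := by
    filter_upwards [hopen.mem_nhds hz] with w hw
    rw [V_fderiv t φ h hw]
    simp
  have e2 : (fun u => fderiv ℝ (V t φ a) u Complex.I) =ᶠ[𝓝 z]
      fun w => ((1 / (2 * √w.im) : ℝ) : ℂ) * W t a 0 φ w + ((√w.im : ℝ) : ℂ) * W t (dc a) 1 φ w := by
    filter_upwards [hopen.mem_nhds hz] with w hw
    rw [V_fderiv t φ h hw]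
    simp
  rw [e1.fderiv_eq, e2.fderiv_eq]
  obtain ⟨L1, hL1, hL1'⟩ := rW t h.dc 0 (φ + π / 2) hz hs
  obtain ⟨L2, hL2, hL2'⟩ := rW t h 0 φ hz hs2
  obtain ⟨L3, hL3, hL3'⟩ := rW t h.dc 1 φ hz hs
  rw [hL1.fderiv, (hL2.fun_add hL3).fderiv, add_apply, hL1', hL2', hL3']
  simp
  ring

theorem V_laplace (t φ : ℝ) {a : ℕ → ℂ} (h : Gr a) {z : ℂ} (hz : 0 < z.im) :
    (z.im : ℂ) ^ 2 * (Δ (V t φ a)) z = -(1 / 4 + (t : ℂ) ^ 2) * V t φ a z := by
  rw [second t φ h hz, V]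
  have h0 := h.1
  have hsq : 0 < √z.im := Real.sqrt_pos.2 hz
  have hsq2 : √z.im * √z.im = z.im := Real.mul_self_sqrt hz.le
  have s0 := term_summable t h 0 φ hz
  have s1 := term_summable t h.dc 1 φ hz
  have s2 := term_summable t h.dc.dc 2 φ hz
  have s3 := term_summable t h.dc.dc 0 (φ + π / 2 + π / 2) hz
  have key : (z.im : ℂ) * W t (dc a) 1 φ z + (z.im : ℂ) ^ 2 * W t (dc (dc a)) 2 φ z +
      (z.im : ℂ) ^ 2 * W t (dc (dc a)) 0 (φ + π / 2 + π / 2) z = -(t : ℂ) ^ 2 * W t a 0 φ z := by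
    unfold W
    rw [← tsum_mul_left, ← tsum_mul_left, ← tsum_mul_left, ← tsum_mul_left,
      ← (s1.mul_left _).tsum_add (s2.mul_left _), ← ((s1.mul_left _).add (s2.mul_left _)).tsum_add (s3.mul_left _)]
    refine tsum_congr fun n => ?_
    rcases Nat.eq_zero_or_pos n with rfl | hn
    · simp [dc, h0]
    · have hn' : (1 : ℝ) ≤ n := by exact_mod_cast hn
      have hX : 0 < 2 * π * n * z.im := by positivity
      have hode := G_ode t hX
      have hcos : cos (2 * π * n * z.re + (φ + π / 2 + π / 2)) = -cos (2 * π * n * z.re + φ) := by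
        have e : 2 * π * n * z.re + (φ + π / 2 + π / 2) = (2 * π * n * z.re + φ) + π := by ring
        rw [e, Real.cos_add_pi]
      have hode' : ((2 * π * n * z.im : ℝ) : ℂ) ^ 2 * (G 2 t (2 * π * n * z.im) : ℂ) +
          ((2 * π * n * z.im : ℝ) : ℂ) * (G 1 t (2 * π * n * z.im) : ℂ) -
          ((2 * π * n * z.im : ℝ) : ℂ) ^ 2 * (G 0 t (2 * π * n * z.im) : ℂ) =
          -((t : ℂ) ^ 2 * (G 0 t (2 * π * n * z.im) : ℂ)) := by
        exact_mod_cast hode
      unfold T dc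
      rw [hcos]
      push_cast at hode' ⊢
      linear_combination (a n * Complex.cos (2 * π * n * z.re + φ)) * hode'
  have hc : (z.im : ℂ) = (√z.im : ℂ) * (√z.im : ℂ) := by
    exact_mod_cast hsq2.symm
  have hne : (√z.im : ℂ) ≠ 0 := by exact_mod_cast hsq.ne'
  have e1 : (z.im : ℂ) ^ 2 * ((1 / (4 * z.im * √z.im) : ℝ) : ℂ) = (√z.im : ℂ) / 4 := by
    push_cast
    rw [hc]
    field_simp
  have e2 : (z.im : ℂ) ^ 2 * ((1 / √z.im : ℝ) : ℂ) = (√z.im : ℂ) * (z.im : ℂ) := by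
    push_cast
    rw [hc]
    field_simp
  linear_combination (√z.im : ℂ) * key - W t a 0 φ z * e1 + W t (dc a) 1 φ z * e2

theorem main : S_LAP := by
  intro t e a C h0 ha
  have h := gr_of h0 ha
  have hfun : UU t e a = V t (ph e) a := funext fun z => UU_eq t e a z
  refine ⟨?_, ?_, ?_⟩
  · rw [hfun]
    exact V_contDiffOn t (ph e) h
  · intro z hz
    rw [hfun]
    have h1 := V_laplace t (ph e) h hz
    linear_combination -h1
  · intro z hz
    rw [hfun]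
    have h1 := ((term_summable t h 0 (ph e) hz).hasSum).mul_left (√z.im : ℂ)
    refine h1.congr_fun ?_ 
    intro n
    exact (term_eq t e a z n)

end Pool.Agent.H505.MF.LAP
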