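import Pool.Agent.H505.MF.Stm

set_option autoImplicit false

open Complex MeasureTheory Filter Topology

namespace Pool.Agent.H505.MF.PER

open Pool.Agent.H505.MF

variable {D : ℕ}

theorem qR_scale (F : Fm D) (c x y : ℝ) : F.qR (c * x) (c * y) = c ^ 2 * F.qR x y := by
  unfold Fm.qR; ring

theorem maj_scale (F : Fm D) (c v x y : ℝ) : F.maj v (c * x) (c * y) = c ^ 2 * F.maj v x y := by
  unfold Fm.maj; ring

theorem gsR_scale (F : Fm D) (N : ℕ) (w : ℂ) (v x y : ℝ) :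
    F.gsR w v (N * x) (N * y) = F.gsR ((N : ℂ) ^ 2 * w) v x y := by
  have e : ((N : ℂ) ^ 2 * w) = (((N : ℝ) ^ 2 : ℝ) : ℂ) * w := by push_cast; ring
  unfold Fm.gsR
  rw [qR_scale, maj_scale, e, Complex.re_ofReal_mul, Complex.im_ofReal_mul]
  congr 1
  push_cast
  ring

theorem per_red (N : ℕ) (hN : 0 < N) (Φ : ℤ × ℤ → ℂ) (h : Per N Φ) (p : ℤ × ℤ) :
    ∃ a ∈ Finset.range N ×ˢ Finset.range N, Φ p = Φ ((a.1 : ℤ), (a.2 : ℤ)) := by
  have hN' : (0 : ℤ) < N := by exact_mod_cast hN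
  have h1 := Int.emod_nonneg p.1 hN'.ne'
  have h2 := Int.emod_nonneg p.2 hN'.ne'
  have h3 := Int.emod_lt_of_pos p.1 hN'
  have h4 := Int.emod_lt_of_pos p.2 hN'
  refine ⟨((p.1 % N).toNat, (p.2 % N).toNat), ?_, ?_⟩
  · rw [Finset.mem_product, Finset.mem_range, Finset.mem_range]
    constructor
    · show (p.1 % N).toNat < N
      omega
    · show (p.2 % N).toNat < N
      omega
  · rw [Int.toNat_of_nonneg h1, Int.toNat_of_nonneg h2, ← h (p.1 % N, p.2 % N) (p.1 / N, p.2 / N)]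
    congr 1
    ext
    · show p.1 = p.1 % N + N * (p.1 / N)
      exact (Int.emod_add_mul_ediv _ _).symm
    · show p.2 = p.2 % N + N * (p.2 / N)
      exact (Int.emod_add_mul_ediv _ _).symm

theorem per_bound (N : ℕ) (hN : 0 < N) (Φ : ℤ × ℤ → ℂ) (h : Per N Φ) :
    ∃ C : ℝ, ∀ p, ‖Φ p‖ ≤ C := by
  refine ⟨∑ h ∈ Finset.range N ×ˢ Finset.range N, ‖Φ ((h.1 : ℤ), (h.2 : ℤ))‖, fun p => ?_⟩
  obtain ⟨a, ha, he⟩ := per_red N hN Φ h p
  rw [he]
  exact Finset.single_le_sum (f := fun h : ℕ × ℕ => ‖Φ ((h.1 : ℤ), (h.2 : ℤ))‖)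
    (fun _ _ => norm_nonneg _) ha

/-- division with remainder -/
noncomputable def eqv (N : ℕ) [NeZero N] : (Fin N × Fin N) × (ℤ × ℤ) ≃ ℤ × ℤ :=
  ((Equiv.prodComm _ _).trans (Equiv.prodProdProdComm ℤ ℤ (Fin N) (Fin N))).trans
    (Equiv.prodCongr (Int.divModEquiv N).symm (Int.divModEquiv N).symm)

theorem eqv_apply (N : ℕ) [NeZero N] (h : Fin N × Fin N) (m : ℤ × ℤ) :
    eqv N (h, m) = (m.1 * N + (h.1 : ℕ), m.2 * N + (h.2 : ℕ)) := rfl

theorem summ (h1 : S_SUM) (hD : 0 < D) (F : Fm D) (w : ℂ) (v : ℝ) (hw : 0 < w.im)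
    (Φ : ℤ × ℤ → ℂ) (C : ℝ) (hC : ∀ p, ‖Φ p‖ ≤ C) : Summable (fun p => Φ p * F.gs w v p) := by
  obtain ⟨g, hg, hb⟩ := h1 D hD F |v| w.im hw
  refine Summable.of_norm_bounded (g := fun p => C * g p) (hg.mul_left C) (fun p => ?_)
  rw [norm_mul]
  exact mul_le_mul (hC p) (hb w v le_rfl le_rfl p) (norm_nonneg _)
    ((norm_nonneg _).trans (hC p))

theorem main (h1 : S_SUM) (h2 : S_POI) : S_PER := by
  intro D hD F N hN Φ hΦ w v hw
  have : NeZero N := ⟨hN.ne'⟩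
  have hNC : (N : ℂ) ≠ 0 := by exact_mod_cast hN.ne'
  have hNR : (0 : ℝ) < N := by exact_mod_cast hN
  have hDR : (0 : ℝ) < D := by exact_mod_cast hD
  obtain ⟨C, hC⟩ := per_bound N hN Φ hΦ
  have hs := summ h1 hD F w v hw Φ C hC
  have hw0 : w ≠ 0 := by
    rintro rfl
    simp at hw
  set w' : ℂ := 1 / ((N : ℂ) ^ 2 * D * (starRingEnd ℂ) w) with hw'
  have hw'im : 0 < w'.im := by
    have e : w' = (((1 / ((N : ℝ) ^ 2 * D * Complex.normSq w)) : ℝ) : ℂ) * w := by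
      have hn : ((Complex.normSq w : ℝ) : ℂ) = w * (starRingEnd ℂ) w := (Complex.mul_conj w).symm
      have hcw : (starRingEnd ℂ) w ≠ 0 := by
        rw [Ne, map_eq_zero]
        exact hw0
      have hDC : (D : ℂ) ≠ 0 := by exact_mod_cast hD.ne'
      rw [hw']
      push_cast
      rw [hn]
      field_simp
    rw [e, Complex.im_ofReal_mul]
    have : 0 < Complex.normSq w := Complex.normSq_pos.2 hw0
    positivity
  -- step 1
  have s1 : F.th Φ w v = ∑ h ∈ Finset.range N ×ˢ Finset.range N, Φ ((h.1 : ℤ), (h.2 : ℤ)) *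
      ∑' m : ℤ × ℤ, F.gsR ((N : ℂ) ^ 2 * w) v (m.1 + (h.1 : ℝ) / N) (m.2 + (h.2 : ℝ) / N) := by
    unfold Fm.th
    have hs' : Summable (fun c : (Fin N × Fin N) × (ℤ × ℤ) =>
        Φ (eqv N c) * F.gs w v (eqv N c)) := (eqv N).summable_iff.2 hs
    rw [← (eqv N).tsum_eq, Summable.tsum_prod hs', tsum_fintype]
    rw [Finset.sum_product, Fintype.sum_prod_type]
    rw [Finset.sum_range]
    refine Finset.sum_congr rfl (fun a _ => ?_)
    rw [Finset.sum_range]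
    refine Finset.sum_congr rfl (fun b _ => ?_)
    rw [← tsum_mul_left]
    refine tsum_congr (fun m => ?_)
    rw [eqv_apply]
    have e1 : Φ (m.1 * N + (a : ℕ), m.2 * N + (b : ℕ)) = Φ (((a : ℕ) : ℤ), ((b : ℕ) : ℤ)) := by
      rw [← hΦ (((a : ℕ) : ℤ), ((b : ℕ) : ℤ)) m]
      congr 1
      ext
      · show m.1 * N + (a : ℕ) = (a : ℕ) + N * m.1
        ring
      · show m.2 * N + (b : ℕ) = (b : ℕ) + N * m.2
        ring
    rw [e1]
    congr 1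
    unfold Fm.gs
    rw [← gsR_scale]
    congr 1
    · push_cast
      field_simp
    · push_cast
      field_simp
  -- step 2
  have hN2im : 0 < ((N : ℂ) ^ 2 * w).im := by
    have e : ((N : ℂ) ^ 2 * w) = (((N : ℝ) ^ 2 : ℝ) : ℂ) * w := by push_cast; ring
    rw [e, Complex.im_ofReal_mul]
    positivity
  have hnorm : ‖(N : ℂ) ^ 2 * w‖ = (N : ℝ) ^ 2 * ‖w‖ := by
    rw [norm_mul, norm_pow, Complex.norm_natCast]
  have hconj : (1 : ℂ) / (D * (starRingEnd ℂ) ((N : ℂ) ^ 2 * w)) = w' := by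
    rw [hw', map_mul, map_pow, Complex.conj_natCast]
    congr 1
    ring
  let ru : ℤ × ℤ ≃ ℤ × ℤ :=
    { toFun := fun k => (k.2, -k.1)
      invFun := fun u => (-u.2, u.1)
      left_inv := fun k => by simp
      right_inv := fun k => by simp }
  have s2 : ∀ h : ℕ × ℕ,
      ∑' m : ℤ × ℤ, F.gsR ((N : ℂ) ^ 2 * w) v (m.1 + (h.1 : ℝ) / N) (m.2 + (h.2 : ℝ) / N) =
      (1 / ((N : ℝ) ^ 2 * √D * ‖w‖ : ℝ) : ℂ) * ∑' u : ℤ × ℤ,
        cexp (2 * Real.pi * I * (((h.2 : ℤ) * u.1 - (h.1 : ℤ) * u.2 : ℤ) : ℂ) / N) *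
          F.gs w' v u := by
    intro h
    rw [h2 D hD F ((N : ℂ) ^ 2 * w) v ((h.1 : ℝ) / N) ((h.2 : ℝ) / N) hN2im, hnorm, hconj]
    congr 1
    · congr 2
      ring
    · refine Eq.trans (tsum_congr (fun k => ?_)) (ru.tsum_eq _)
      show _ = cexp (2 * Real.pi * I * (((h.2 : ℤ) * k.2 - (h.1 : ℤ) * (-k.1) : ℤ) : ℂ) / N) *
          F.gs w' v (k.2, -k.1)
      congr 2
      push_cast
      field_simp
      ring
  rw [s1]
  have s3 : F.th (hat N Φ) w' v = ∑ h ∈ Finset.range N ×ˢ Finset.range N,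
      Φ ((h.1 : ℤ), (h.2 : ℤ)) * ∑' u : ℤ × ℤ,
        cexp (2 * Real.pi * I * (((h.2 : ℤ) * u.1 - (h.1 : ℤ) * u.2 : ℤ) : ℂ) / N) *
          F.gs w' v u := by
    have hsum : ∀ h : ℕ × ℕ, Summable (fun u : ℤ × ℤ =>
        cexp (2 * Real.pi * I * (((h.2 : ℤ) * u.1 - (h.1 : ℤ) * u.2 : ℤ) : ℂ) / N) *
          F.gs w' v u) := by
      intro h
      refine summ h1 hD F w' v hw'im _ 1 (fun u => le_of_eq ?_)
      have e : (2 * Real.pi * I * (((h.2 : ℤ) * u.1 - (h.1 : ℤ) * u.2 : ℤ) : ℂ) / N : ℂ) =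
          ((2 * Real.pi * (((h.2 : ℤ) * u.1 - (h.1 : ℤ) * u.2 : ℤ) : ℝ) / N : ℝ) : ℂ) * I := by
        push_cast
        ring
      rw [e, Complex.norm_exp_ofReal_mul_I]
    unfold Fm.th
    have e1 : ∀ h ∈ Finset.range N ×ˢ Finset.range N, Φ ((h.1 : ℤ), (h.2 : ℤ)) * ∑' u : ℤ × ℤ,
        cexp (2 * Real.pi * I * (((h.2 : ℤ) * u.1 - (h.1 : ℤ) * u.2 : ℤ) : ℂ) / N) *
          F.gs w' v u = ∑' u : ℤ × ℤ, Φ ((h.1 : ℤ), (h.2 : ℤ)) * (
        cexp (2 * Real.pi * I * (((h.2 : ℤ) * u.1 - (h.1 : ℤ) * u.2 : ℤ) : ℂ) / N) *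
          F.gs w' v u) := fun h _ => tsum_mul_left.symm
    rw [Finset.sum_congr rfl e1, ← Summable.tsum_finsetSum (fun h _ => (hsum h).mul_left _)]
    refine tsum_congr (fun u => ?_)
    unfold hat
    rw [Finset.sum_mul]
    refine Finset.sum_congr rfl (fun h _ => ?_)
    ring
  rw [s3, Finset.mul_sum]
  refine Finset.sum_congr rfl (fun h _ => ?_)
  rw [s2 h]
  ring

end Pool.Agent.H505.MF.PER
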