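import Pool.Agent.H505.MF.Stm

/-! # Leaf SL2: stability of the theta series class under `SL₂(ℤ)` -/

set_option autoImplicit false

open Complex ModularGroup MatrixGroups Matrix
open UpperHalfPlane hiding I

namespace Pool.Agent.H505.MF.SL2

variable {D : ℕ} (F : Fm D)

/-- `e(x q(p))` -/
noncomputable def tw (x : ℚ) (p : ℤ × ℤ) : ℂ := cexp (2 * Real.pi * I * ((x : ℝ) : ℂ) * (F.q p : ℂ))

theorem qR_cast (p : ℤ × ℤ) : F.qR p.1 p.2 = (F.q p : ℝ) := by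
  unfold Fm.qR Fm.q
  push_cast
  ring

theorem gs_add (w : ℂ) (x : ℚ) (v : ℝ) (p : ℤ × ℤ) :
    F.gs (w + ((x : ℝ) : ℂ)) v p = tw F x p * F.gs w v p := by
  unfold Fm.gs Fm.gsR tw
  rw [← Complex.exp_add, qR_cast]
  congr 1
  simp only [Complex.add_re, Complex.add_im, Complex.ofReal_re, Complex.ofReal_im, add_zero]
  push_cast
  ring

theorem th_add (Φ : ℤ × ℤ → ℂ) (w : ℂ) (x : ℚ) (v : ℝ) :
    F.th Φ (w + ((x : ℝ) : ℂ)) v = F.th (fun p => Φ p * tw F x p) w v := by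
  unfold Fm.th
  refine tsum_congr fun p => ?_
  rw [gs_add]
  ring

theorem exp_int (k : ℤ) : cexp (2 * Real.pi * I * (k : ℂ)) = 1 := by
  rw [mul_comm]
  exact Complex.exp_int_mul_two_pi_mul_I k

theorem tw_per (x : ℚ) (N : ℕ) (p h : ℤ × ℤ) :
    tw F x (p.1 + ((N * x.den : ℕ) : ℤ) * h.1, p.2 + ((N * x.den : ℕ) : ℤ) * h.2) = tw F x p := by
  unfold tw
  set n : ℤ := ((N * x.den : ℕ) : ℤ) with hn
  set K : ℤ := F.A * (2 * p.1 * h.1 + n * h.1 ^ 2) +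
    F.B * (p.1 * h.2 + h.1 * p.2 + n * h.1 * h.2) + F.C * (2 * p.2 * h.2 + n * h.2 ^ 2) with hK
  have hq : F.q (p.1 + n * h.1, p.2 + n * h.2) = F.q p + n * K := by
    unfold Fm.q
    simp only [hK]
    ring
  rw [hq]
  have hx : ((x : ℝ) : ℂ) * (n : ℂ) = ((x.num * N : ℤ) : ℂ) := by
    have h1 : (x : ℚ) * (n : ℚ) = ((x.num * N : ℤ) : ℚ) := by
      rw [hn]
      push_cast
      have h2 : x * (x.den : ℚ) = x.num := Rat.mul_den_eq_num x
      linear_combination (N : ℚ) * h2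
    have h3 : ((x * (n : ℚ) : ℚ) : ℂ) = (((x.num * N : ℤ) : ℚ) : ℂ) := by rw [h1]
    push_cast at h3 ⊢
    exact h3
  have h4 : 2 * Real.pi * I * ((x : ℝ) : ℂ) * ((F.q p + n * K : ℤ) : ℂ) =
      2 * Real.pi * I * ((x : ℝ) : ℂ) * (F.q p : ℂ) +
        2 * Real.pi * I * ((x.num * N * K : ℤ) : ℂ) := by
    have h5 : ((x.num * N * K : ℤ) : ℂ) = ((x : ℝ) : ℂ) * (n : ℂ) * (K : ℂ) := by
      rw [hx]
      push_cast
      ring
    rw [h5]
    push_cast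
    ring
  rw [h4, Complex.exp_add, exp_int, mul_one]

theorem per_mul (N n : ℕ) (Φ : ℤ × ℤ → ℂ) (h : Per N Φ) : Per (N * n) Φ := by
  intro p k
  have h1 := h p ((n : ℤ) * k.1, (n : ℤ) * k.2)
  rw [← h1]
  congr 2 <;> · push_cast; ring

theorem per_tw (N : ℕ) (Φ : ℤ × ℤ → ℂ) (h : Per N Φ) (x : ℚ) :
    Per (N * x.den) (fun p => Φ p * tw F x p) := by
  intro p k
  show Φ _ * tw F x _ = Φ p * tw F x p
  rw [per_mul N x.den Φ h p k, tw_per]

theorem per_hat (N : ℕ) (hN : 0 < N) (Φ : ℤ × ℤ → ℂ) : Per N (hat N Φ) := by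
  intro p k
  unfold hat
  refine Finset.sum_congr rfl fun h _ => ?_
  congr 1
  have hN' : (N : ℂ) ≠ 0 := by exact_mod_cast hN.ne'
  have h1 : 2 * (Real.pi : ℂ) * I *
      (((h.2 : ℤ) * (p.1 + N * k.1) - (h.1 : ℤ) * (p.2 + N * k.2) : ℤ) : ℂ) / N =
      2 * Real.pi * I * (((h.2 : ℤ) * p.1 - (h.1 : ℤ) * p.2 : ℤ) : ℂ) / N +
        2 * Real.pi * I * (((h.2 : ℤ) * k.1 - (h.1 : ℤ) * k.2 : ℤ) : ℂ) := by
    push_cast
    field_simp
    ring
  show cexp (2 * (Real.pi : ℂ) * I *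
      (((h.2 : ℤ) * (p.1 + N * k.1) - (h.1 : ℤ) * (p.2 + N * k.2) : ℤ) : ℂ) / N) = _
  rw [h1, Complex.exp_add, exp_int, mul_one]

theorem per_const (N : ℕ) (c : ℂ) (Φ : ℤ × ℤ → ℂ) (h : Per N Φ) : Per N (fun p => c * Φ p) := by
  intro p k
  show c * Φ _ = c * Φ p
  rw [h p k]

theorem th_const (c : ℂ) (Φ : ℤ × ℤ → ℂ) (w : ℂ) (v : ℝ) :
    F.th (fun p => c * Φ p) w v = c * F.th Φ w v := by
  unfold Fm.th
  rw [← tsum_mul_left]
  refine tsum_congr fun p => ?_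
  ring

/-- the class of theta functions is stable under `g` -/
def Good (g : SL(2, ℤ)) : Prop := ∀ (r : ℚ) (N : ℕ) (Φ : ℤ × ℤ → ℂ) (s : Bool), 0 < r → 0 < N →
  Per N Φ → ∃ (r' : ℚ) (N' : ℕ) (Φ' : ℤ × ℤ → ℂ) (s' : Bool), 0 < r' ∧ 0 < N' ∧ Per N' Φ' ∧
    ∀ (z : ℍ) (v : ℝ),
      (√(g • z : ℍ).im : ℝ) * F.th Φ ((r : ℂ) * rf s ((g • z : ℍ) : ℂ)) v =
        (√z.im : ℝ) * F.th Φ' ((r' : ℂ) * rf s' (z : ℂ)) v

theorem good_one : Good F 1 := by
  intro r N Φ s hr hN hΦ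
  refine ⟨r, N, Φ, s, hr, hN, hΦ, fun z v => ?_⟩
  rw [one_smul]

theorem good_mul (g y : SL(2, ℤ)) (hg : Good F g) (hy : Good F y) : Good F (g * y) := by
  intro r N Φ s hr hN hΦ
  obtain ⟨r1, N1, Φ1, s1, hr1, hN1, hΦ1, h1⟩ := hg r N Φ s hr hN hΦ
  obtain ⟨r2, N2, Φ2, s2, hr2, hN2, hΦ2, h2⟩ := hy r1 N1 Φ1 s1 hr1 hN1 hΦ1
  refine ⟨r2, N2, Φ2, s2, hr2, hN2, hΦ2, fun z v => ?_⟩
  rw [mul_smul, h1, h2]

/-- translations by `e = ±1` -/
theorem good_trans (g : SL(2, ℤ)) (e : ℤ) (hg : ∀ z : ℍ, ((g • z : ℍ) : ℂ) = z + (e : ℂ)) :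
    Good F g := by
  intro r N Φ s hr hN hΦ
  set x : ℚ := r * (if s then -(e : ℚ) else e) with hx
  refine ⟨r, N * x.den, fun p => Φ p * tw F x p, s, hr, Nat.mul_pos hN x.den_pos,
    per_tw F N Φ hΦ x, fun z v => ?_⟩
  have him : (g • z : ℍ).im = z.im := by
    have := congrArg Complex.im (hg z)
    simpa using this
  rw [him, hg z, ← th_add]
  congr 2
  unfold rf
  cases s
  · simp only [Bool.false_eq_true, if_false] at hx ⊢
    rw [hx]
    push_cast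
    ring
  · simp only [if_true] at hx ⊢
    rw [hx, map_add, map_intCast]
    push_cast
    ring

/-- the inversion -/
theorem good_inv (hD : 0 < D) (hP : S_PER) (g : SL(2, ℤ))
    (hg : ∀ z : ℍ, ((g • z : ℍ) : ℂ) = (-(z : ℂ))⁻¹) : Good F g := by
  intro r N Φ s hr hN hΦ
  have hNq : (0 : ℚ) < N := by exact_mod_cast hN
  have hDq : (0 : ℚ) < D := by exact_mod_cast hD
  have hNr : (0 : ℝ) < N := by exact_mod_cast hN
  have hDr : (0 : ℝ) < D := by exact_mod_cast hD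
  have hrr : (0 : ℝ) < r := by exact_mod_cast hr
  refine ⟨1 / ((N : ℚ) ^ 2 * D * r), N,
    fun p => ((1 / ((N : ℝ) ^ 2 * √D * r) : ℝ) : ℂ) * hat N Φ p, !s, by positivity, hN,
    per_const N _ _ (per_hat N hN Φ), fun z v => ?_⟩
  have hz0 : (z : ℂ) ≠ 0 := z.ne_zero
  have hzc : (starRingEnd ℂ) (z : ℂ) ≠ 0 := (map_ne_zero _).2 hz0
  have hzn : 0 < ‖(z : ℂ)‖ := norm_pos_iff.2 hz0
  set w : ℂ := (r : ℂ) * rf s ((g • z : ℍ) : ℂ) with hw
  have hu : ((g • z : ℍ) : ℂ) = (-(z : ℂ))⁻¹ := hg z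
  have hwim : w.im = r * (g • z : ℍ).im := by
    rw [hw]
    unfold rf
    cases s <;> simp
  have hwpos : 0 < w.im := by
    rw [hwim]
    exact mul_pos hrr (g • z).im_pos
  have hwn : ‖w‖ = r / ‖(z : ℂ)‖ := by
    rw [hw, norm_mul]
    have h1 : ‖(r : ℂ)‖ = r := by
      rw [Complex.norm_ratCast, abs_of_pos hrr]
    have h2 : ‖rf s ((g • z : ℍ) : ℂ)‖ = ‖(z : ℂ)‖⁻¹ := by
      have h3 : ‖rf s ((g • z : ℍ) : ℂ)‖ = ‖((g • z : ℍ) : ℂ)‖ := by
        unfold rf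
        cases s
        · simp
        · simp only [if_true, norm_neg]
          exact Complex.norm_conj _
      rw [h3, hu, norm_inv, norm_neg]
    rw [h1, h2, div_eq_mul_inv]
  have him : (√(g • z : ℍ).im : ℝ) = √z.im / ‖(z : ℂ)‖ := by
    have h1 : (g • z : ℍ).im = z.im / ‖(z : ℂ)‖ ^ 2 := by
      have h2 : (g • z : ℍ).im = ((g • z : ℍ) : ℂ).im := rfl
      rw [h2, hu, Complex.inv_im, Complex.neg_im, neg_neg, Complex.normSq_neg,
        Complex.normSq_eq_norm_sq]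
      rfl
    rw [h1, Real.sqrt_div z.im_pos.le, Real.sqrt_sq hzn.le]
  have harg : 1 / ((N : ℂ) ^ 2 * D * (starRingEnd ℂ) w) =
      ((1 / ((N : ℚ) ^ 2 * D * r) : ℚ) : ℂ) * rf (!s) (z : ℂ) := by
    have hNc : (N : ℂ) ≠ 0 := by exact_mod_cast hN.ne'
    have hDc : (D : ℂ) ≠ 0 := by exact_mod_cast hD.ne'
    have hrc : (r : ℂ) ≠ 0 := by exact_mod_cast hr.ne'
    have hrcj : (starRingEnd ℂ) (r : ℂ) = (r : ℂ) := by simp
    rw [hw, map_mul, hrcj]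
    unfold rf
    cases s
    · simp only [Bool.false_eq_true, if_false, Bool.not_false, if_true]
      rw [hu, map_inv₀, map_neg]
      push_cast
      field_simp
    · simp only [if_true, Bool.not_true, Bool.false_eq_true, if_false]
      rw [hu, map_neg, Complex.conj_conj]
      push_cast
      field_simp
  rw [hP D hD F N hN Φ hΦ w v hwpos, harg, th_const, hwn, him]
  have hsq : 0 < √(D : ℝ) := Real.sqrt_pos.2 hDr
  have hreal : √z.im / ‖(z : ℂ)‖ * (1 / ((N : ℝ) ^ 2 * √D * (r / ‖(z : ℂ)‖))) =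
      √z.im * (1 / ((N : ℝ) ^ 2 * √D * r)) := by
    field_simp
  have hcx : ((√z.im / ‖(z : ℂ)‖ : ℝ) : ℂ) *
      (1 / (((N : ℝ) ^ 2 * √D * (r / ‖(z : ℂ)‖) : ℝ) : ℂ)) =
      ((√z.im : ℝ) : ℂ) * ((1 / ((N : ℝ) ^ 2 * √D * r) : ℝ) : ℂ) := by
    rw [← Complex.ofReal_mul, ← hreal]
    push_cast
    ring
  rw [← mul_assoc, ← mul_assoc, hcx]

theorem good_S (hD : 0 < D) (hP : S_PER) : Good F S := by
  refine good_inv F hD hP S fun z => ?_
  rw [modular_S_smul]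

theorem good_S_inv (hD : 0 < D) (hP : S_PER) : Good F S⁻¹ := by
  refine good_inv F hD hP S⁻¹ fun z => ?_
  rw [ModularGroup.S_inv, ModularGroup.SL_neg_smul, modular_S_smul]

theorem good_T : Good F T := by
  refine good_trans F T 1 fun z => ?_
  rw [modular_T_smul]
  push_cast
  simp [add_comm]

theorem good_T_inv : Good F T⁻¹ := by
  refine good_trans F T⁻¹ (-1) fun z => ?_
  have := ModularGroup.coe_T_zpow_smul_eq (z := z) (n := -1)
  rw [_root_.zpow_neg_one] at this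
  rw [this]

theorem good (hD : 0 < D) (hP : S_PER) (g : SL(2, ℤ)) : Good F g := by
  have hg : g ∈ Subgroup.closure ({S, T} : Set SL(2, ℤ)) := by
    rw [SpecialLinearGroup.SL2Z_generators]; trivial
  refine Subgroup.closure_induction_right (p := fun g _ => Good F g) (good_one F) ?_ ?_ hg
  · intro g _ y hy ih
    rcases hy with rfl | hy
    · exact good_mul F g _ ih (good_S F hD hP)
    · rw [Set.mem_singleton_iff] at hy
      subst hy
      exact good_mul F g _ ih (good_T F)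
  · intro g _ y hy ih
    rcases hy with rfl | hy
    · exact good_mul F g _ ih (good_S_inv F hD hP)
    · rw [Set.mem_singleton_iff] at hy
      subst hy
      exact good_mul F g _ ih (good_T_inv F)

theorem main : S_SUM → S_PER → S_SL2 := by
  intro _ hP D hD F N hN Φ hΦ σ
  obtain ⟨r, N', Φ', s, hr, hN', hΦ', h⟩ := good F hD hP σ 1 N Φ false one_pos hN hΦ
  refine ⟨r, N', Φ', s, hr, hN', hΦ', fun z v => ?_⟩
  rw [← h z v]
  simp [rf]

end Pool.Agent.H505.MF.SL2
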