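import Pool.Agent.H505.MF.Unf2
import Pool.Agent.H505.MF.PER
import Pool.Agent.H505.MF.GAU
import Pool.Agent.H505.MF.FID
import Pool.Agent.H505.MF.AUT
import Pool.Agent.H505.MF.SL2
import Pool.Agent.H505.MF.DEC
import Pool.Agent.H505.MF.CST
import Pool.Agent.H505.MF.CUS
import Pool.Agent.H505.MF.LAP
import Pool.Agent.H505.MF.HOP

/-!
# Project MF: assembly
-/

set_option autoImplicit false
set_option linter.unusedSectionVars false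
set_option linter.unusedVariables false

open NumberField Complex MeasureTheory Filter Topology
open scoped ContDiff Laplacian MatrixGroups
open UpperHalfPlane hiding I
open Pool.Agent.Y672.DM (KB heckeOp)

namespace Pool.Agent.H505.MF

theorem t_LOW : S_LOW := POI.main.1
theorem t_SUM : S_SUM := POI.main.2.1
theorem t_POI : S_POI := POI.main.2.2
theorem t_PER : S_PER := PER.main t_SUM t_POI
theorem t_SUP : S_SUP := FID.main.1
theorem t_FID : S_FID := FID.main.2 GAU.main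
theorem t_AUT : S_AUT := AUT.main t_SUM t_PER t_SUP t_FID
theorem t_SL2 : S_SL2 := SL2.main t_SUM t_PER
theorem t_DEC : S_DEC := DEC.main t_LOW t_SUM
theorem t_CST : S_CST := CST.main t_LOW t_SUM
theorem t_CUS : S_CUS := CUS.main t_SL2 t_DEC t_CST

lemma KB_abs (t x : ℝ) : KB |t| x = KB t x := by
  unfold KB
  rcases abs_choice t with h | h
  · rw [h]
  · rw [h]
    congr 1
    funext v
    rw [neg_mul, Real.cos_neg]

lemma UU_abs (t : ℝ) (e : ℕ) (a : ℕ → ℂ) : UU |t| e a = UU t e a := by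
  funext z
  unfold UU
  refine tsum_congr fun n => ?_
  rw [KB_abs]

/-- invariance of one integral -/
lemma H_inv {D : ℕ} (hD : D % 4 = 1) (F : Fm D) (hA : F.A ≠ 0) {Pw : ℤ × ℤ → ℂ} (hW : Wt D F Pw)
    (t P : ℝ) {γ : SL(2, ℤ)} (hγ : γ ∈ CongruenceSubgroup.Gamma0 (D ^ 2)) (z : ℍ) :
    F.H t P Pw ((γ • z : ℍ) : ℂ) = F.H t P Pw (z : ℂ) := by
  unfold Fm.H
  refine intervalIntegral.integral_congr fun v _ => ?_
  have h := t_AUT D hD F hA Pw hW γ hγ z v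
  have h4 : ((γ • z : ℍ) : ℂ).im = (γ • z : ℍ).im := rfl
  have h5 : ((z : ℍ) : ℂ).im = z.im := rfl
  simp only [h4, h5]
  rw [h]

lemma H_inv' {D : ℕ} (hD : D % 4 = 1) (F : Fm D) (hA : F.A ≠ 0) {Pw : ℤ × ℤ → ℂ} (hW : Wt D F Pw)
    (t P : ℝ) {γ : SL(2, ℤ)} (hγ : γ ∈ CongruenceSubgroup.Gamma0 (D ^ 2)) (z : ℍ) :
    F.H t P Pw (rf true ((γ • z : ℍ) : ℂ)) = F.H t P Pw (rf true (z : ℂ)) := by
  have h3 : rf true ((γ • z : ℍ) : ℂ) = -(starRingEnd ℂ) ((γ • z : ℍ) : ℂ) := rfl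
  have h4 : rf true (z : ℂ) = ((CUS.rp z : ℍ) : ℂ) := rfl
  rw [h3, CUS.rp_act, h4]
  refine H_inv hD F hA hW t P ?_ _
  rw [CongruenceSubgroup.Gamma0_mem] at hγ ⊢
  have e10 : (CUS.mir γ) 1 0 = -γ 1 0 := rfl
  rw [e10]
  push_cast
  push_cast at hγ
  rw [hγ, neg_zero]

section

variable {K : Type} [Field K] [NumberField K]
variable {B : QB K} {M : ℕ} [NeZero M] {hM : (M : ℤ) = B.D} {hM2 : ¬ 2 ∣ M}

/-- **the Maass form** -/
theorem maass (h2 : Module.finrank ℚ K = 2) (hr : ∀ w : InfinitePlace K, w.IsReal) {e0 : ℕ}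
    {ν : InfinitePlace K → ℝ} (hν : ∑ w, ν w = 0) (hν0 : ν ≠ 0) {ψ : Ideal (𝓞 K) →*₀ ℂ}
    (hψ : PsiF hM hM2 e0 ν ψ) (hB : Base B e0 ν ψ) (w₀ : InfinitePlace K) :
    0 < |ν w₀| ∧
    ContDiffOn ℝ ∞ (UU |ν w₀| e0 (cfa ψ)) {z : ℂ | 0 < z.im} ∧
    (∀ z : ℂ, 0 < z.im → -(z.im : ℂ) ^ 2 * (Δ (UU |ν w₀| e0 (cfa ψ))) z =
      (1 / 4 + ((|ν w₀| : ℝ) : ℂ) ^ 2) * UU |ν w₀| e0 (cfa ψ) z) ∧
    (∀ γ ∈ CongruenceSubgroup.Gamma0 (M ^ 2), ∀ z : ℍ,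
      UU |ν w₀| e0 (cfa ψ) ((γ • z : ℍ) : ℂ) = UU |ν w₀| e0 (cfa ψ) z) ∧
    (∀ σ : SL(2, ℤ), ∃ C c : ℝ, 0 < c ∧ ∀ z : ℍ, 1 ≤ z.im →
      ‖UU |ν w₀| e0 (cfa ψ) ((σ • z : ℍ) : ℂ)‖ ≤ C * Real.exp (-c * z.im)) ∧
    (∀ (σ : SL(2, ℤ)) (z : ℍ), ∫ x in (0 : ℝ)..(M ^ 2 : ℕ),
      UU |ν w₀| e0 (cfa ψ) ((σ • (x +ᵥ z) : ℍ) : ℂ) = 0) ∧
    (∀ z : ℂ, 0 < z.im → HasSum (fun n : ℕ => cfa ψ n * ((√z.im *
      KB |ν w₀| (2 * Real.pi * n * z.im) * cs e0 (2 * Real.pi * n * z.re) : ℝ) : ℂ))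
        (UU |ν w₀| e0 (cfa ψ) z)) ∧
    cfa ψ 0 = 0 ∧ cfa ψ 1 = 1 ∧
    (∀ p : ℕ, p.Prime → ¬ p ∣ M ^ 2 → ∀ z : ℂ, 0 < z.im →
      heckeOp p (UU |ν w₀| e0 (cfa ψ)) z = cfa ψ p * UU |ν w₀| e0 (cfa ψ) z) := by
  classical
  obtain ⟨hc0, hc1, ⟨Cb, hCb⟩, -, -, hhecke, -⟩ := COE.main K B M hM e0 ν ψ hB
  obtain ⟨w₁, F, Pw, P, C, hP, hexp, hC, hA, hW, hsum⟩ := unf h2 hr hν hψ hB
  have hMpos : 0 < M := Nat.pos_of_ne_zero (NeZero.ne M)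
  have hM4 : M % 4 = 1 := by
    have h1 := D_mod B (by rw [← hM]; exact_mod_cast hM2)
    rw [← hM] at h1
    omega
  -- the absolute value of `ν` does not depend on the place
  obtain ⟨u₁, u₂, hne, huniv⟩ := two_places h2 hr
  have habs : ∀ w w' : InfinitePlace K, |ν w| = |ν w'| := by
    have h3 := hν
    rw [sum_two hne huniv] at h3
    have h4 : |ν u₂| = |ν u₁| := by
      have : ν u₂ = -ν u₁ := by linarith
      rw [this, abs_neg]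
    intro w w'
    rcases huniv w with rfl | rfl <;> rcases huniv w' with rfl | rfl <;> simp [h4]
  have ht0 : ν w₁ ≠ 0 := by
    intro h0
    apply hν0
    funext w
    have h3 := habs w w₁
    rw [h0, abs_zero, abs_eq_zero] at h3
    exact h3
  rw [habs w₀ w₁]
  have hU : UU |ν w₁| e0 (cfa ψ) = UU (ν w₁) e0 (cfa ψ) := UU_abs _ _ _
  obtain ⟨l1, l2, l3⟩ := LAP.main |ν w₁| e0 (cfa ψ) Cb hc0 hCb
  have hinv : ∀ γ ∈ CongruenceSubgroup.Gamma0 (M ^ 2), ∀ z : ℍ,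
      UU |ν w₁| e0 (cfa ψ) ((γ • z : ℍ) : ℂ) = UU |ν w₁| e0 (cfa ψ) z := by
    intro γ hγ z
    rw [hU]
    apply mul_left_cancel₀ hC
    rw [← hsum _ (γ • z).im_pos, ← hsum _ z.im_pos]
    refine Finset.sum_congr rfl fun c _ => ?_
    rw [H_inv hM4 (F c) (hA c) (hW c) _ _ hγ, H_inv' hM4 (F c) (hA c) (hW c) _ _ hγ]
  -- the cusps
  let E := Fintype.equivFin (ClassGroup (𝓞 K) × Bool)
  have hu : ∀ z : ℂ, 0 < z.im → UU |ν w₁| e0 (cfa ψ) z =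
      ∑ i, (fun i => if (E.symm i).2 then C⁻¹ * (-1) ^ e0 else C⁻¹) i *
        ((fun i => F (E.symm i).1) i).H (ν w₁) P ((fun i => Pw (E.symm i).1) i)
          (rf ((fun i => (E.symm i).2) i) z) := by
    intro z hz
    rw [hU, Equiv.sum_comp E.symm (fun j : ClassGroup (𝓞 K) × Bool =>
      (if j.2 then C⁻¹ * (-1) ^ e0 else C⁻¹) * (F j.1).H (ν w₁) P (Pw j.1) (rf j.2 z)),
      Fintype.sum_prod_type]
    have h3 := hsum z hz
    have h4 : UU (ν w₁) e0 (cfa ψ) z = C⁻¹ * ∑ c, ((F c).H (ν w₁) P (Pw c) z +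
        (-1) ^ e0 * (F c).H (ν w₁) P (Pw c) (rf true z)) := by
      rw [h3, inv_mul_cancel_left₀ hC]
    rw [h4, Finset.mul_sum]
    refine Finset.sum_congr rfl fun c _ => ?_
    rw [Fintype.sum_bool]
    simp only [if_true, Bool.false_eq_true, if_false]
    have h5 : rf false z = z := rfl
    rw [h5]
    ring
  have hPer : ∀ i, Per M ((fun i => Pw (E.symm i).1) i) := fun i =>
    (t_SUP M (by rw [Nat.odd_iff]; omega) (F (E.symm i).1) _ (hW _)).1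
  obtain ⟨c1, c2⟩ := t_CUS M hMpos (not_sq h2 hM hM2) _ (fun i => F (E.symm i).1) (fun _ => M)
    (fun _ => hMpos) (fun i => Pw (E.symm i).1) hPer _ _ (ν w₁) P ht0 hP hexp
    (UU |ν w₁| e0 (cfa ψ)) hu
  refine ⟨abs_pos.2 ht0, l1, l2, hinv, c1, ?_, l3, hc0, hc1, ?_⟩
  · intro σ z
    exact c2 (M ^ 2) (by positivity) hinv σ z
  · intro p hp hpM z hz
    refine HOP.main |ν w₁| e0 (cfa ψ) Cb hc0 hCb p hp (fun n hn => ?_) z hz
    refine hhecke p hp (fun h => hpM ?_) n hn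
    exact dvd_pow h two_ne_zero

end

end Pool.Agent.H505.MF
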