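import Pool.Agent.H505.MF.Stm2

/-!
# Project MF, leaf BAS: integral basis and norm form of an ideal of a real quadratic field
-/

set_option autoImplicit false
set_option linter.unusedVariables false

open NumberField

namespace Pool.Agent.H505.MF.BAS

open Pool.Agent.H505 Pool.Agent.H505.MF
open Pool.Agent.Y773.G (rl)

variable {K : Type} [Field K] [NumberField K]

lemma cre_el (B : QB K) (α β : 𝓞 K) (p : ℤ × ℤ) :
    B.cre (el α β p) = p.1 * B.cre α + p.2 * B.cre β := by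
  unfold el
  rw [(B.coord_add _ _).1, (B.coord_mul _ _).1, (B.coord_mul _ _).1, (B.coord_int _).1,
    (B.coord_int _).2, (B.coord_int _).1, (B.coord_int _).2]
  ring

lemma cim_el (B : QB K) (α β : 𝓞 K) (p : ℤ × ℤ) :
    B.cim (el α β p) = p.1 * B.cim α + p.2 * B.cim β := by
  unfold el
  rw [(B.coord_add _ _).2, (B.coord_mul _ _).2, (B.coord_mul _ _).2, (B.coord_int _).1,
    (B.coord_int _).2, (B.coord_int _).1, (B.coord_int _).2]
  ring

/-- a basis of the ideal -/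
lemma exists_basis (B : QB K) (𝔟 : Ideal (𝓞 K)) (h : 𝔟 ≠ ⊥) :
    ∃ α β : 𝓞 K, α ∈ 𝔟 ∧ β ∈ 𝔟 ∧ (∀ x ∈ 𝔟, ∃ p, el α β p = x) ∧
      ∃ ε : ℤ, (ε = 1 ∨ ε = -1) ∧
        B.cre α * B.cim β - B.cre β * B.cim α = ε * (Ideal.absNorm 𝔟 : ℤ) := by
  let bI := Ideal.selfBasis B.bas 𝔟 h
  refine ⟨(bI 0 : 𝓞 K), (bI 1 : 𝓞 K), (bI 0).2, (bI 1).2, ?_, ?_⟩
  · intro x hx
    refine ⟨(bI.repr ⟨x, hx⟩ 0, bI.repr ⟨x, hx⟩ 1), ?_⟩
    have h1 := bI.sum_repr ⟨x, hx⟩
    rw [Fin.sum_univ_two] at h1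
    have h2 := congrArg (fun z : 𝔟 => (z : 𝓞 K)) h1
    simp only [Submodule.coe_add, Submodule.coe_smul_of_tower, zsmul_eq_mul] at h2
    exact h2
  · have h1 := Ideal.natAbs_det_basis_change B.bas 𝔟 bI
    rw [Module.Basis.det_apply, Matrix.det_fin_two] at h1
    simp only [Module.Basis.toMatrix_apply, Function.comp_apply, (B.bas_repr _).1,
      (B.bas_repr _).2] at h1
    rcases Int.natAbs_eq (B.cre (bI 0 : 𝓞 K) * B.cim (bI 1 : 𝓞 K) -
      B.cre (bI 1 : 𝓞 K) * B.cim (bI 0 : 𝓞 K)) with h2 | h2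
    · refine ⟨1, Or.inl rfl, ?_⟩
      rw [h1] at h2
      rw [h2]; ring
    · refine ⟨-1, Or.inr rfl, ?_⟩
      rw [h1] at h2
      rw [h2]; ring

theorem main : S_BAS := by
  intro K _ _ B hr w₁ w₂ hne hall M hM hsq 𝔟 h𝔟
  obtain ⟨α, β, hα, hβ, hspan, ε, hε, hdet⟩ := exists_basis B 𝔟 h𝔟
  have hn0 : (Ideal.absNorm 𝔟 : ℤ) ≠ 0 := by
    have := Ideal.absNorm_eq_zero_iff.not.2 h𝔟
    exact_mod_cast this
  have hαβ : α + β ∈ 𝔟 := 𝔟.add_mem hα hβ
  obtain ⟨A, hA⟩ := Ideal.absNorm_dvd_norm_of_mem hα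
  obtain ⟨C, hC⟩ := Ideal.absNorm_dvd_norm_of_mem hβ
  obtain ⟨S, hS⟩ := Ideal.absNorm_dvd_norm_of_mem hαβ
  have hεε : ε * ε = 1 := by rcases hε with h | h <;> rw [h] <;> norm_num
  set n : ℤ := (Ideal.absNorm 𝔟 : ℤ) with hn
  have hA' := hA
  have hC' := hC
  have hS' := hS
  rw [B.norm_int] at hA' hC' hS'
  rw [(B.coord_add _ _).1, (B.coord_add _ _).2] at hS'
  have hD : B.D = B.T * B.T - 4 * B.N := rfl
  -- the discriminant
  have hdisc : (S - A - C) ^ 2 - 4 * A * C = (M : ℤ) := by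
    rw [hM, hD]
    apply mul_left_cancel₀ (mul_ne_zero hn0 hn0)
    have e1 : n * (S - A - C) = 2 * B.cre α * B.cre β + B.T * (B.cre α * B.cim β + B.cim α * B.cre β) +
        2 * B.N * B.cim α * B.cim β := by
      linear_combination hA' + hC' - hS'
    have e2 : (B.cre α * B.cim β - B.cre β * B.cim α) ^ 2 = n * n := by
      rw [hdet]; linear_combination n * n * hεε
    have e3 : (n * (S - A - C)) ^ 2 - 4 * (n * A) * (n * C) =
        (B.T * B.T - 4 * B.N) * (B.cre α * B.cim β - B.cre β * B.cim α) ^ 2 := by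
      rw [e1, ← hA', ← hC']
      ring
    rw [e2] at e3
    linear_combination e3
  -- real embeddings
  let σ₁ : K →+* ℝ := InfinitePlace.embedding_of_isReal (hr w₁)
  let σ₂ : K →+* ℝ := InfinitePlace.embedding_of_isReal (hr w₂)
  have hσ₁ : ∀ x : K, rl w₁ x = σ₁ x := fun x => Pool.Agent.Y772.G.rl_real (hr w₁) x
  have hσ₂ : ∀ x : K, rl w₂ x = σ₂ x := fun x => Pool.Agent.Y772.G.rl_real (hr w₂) x
  have hprod : ∀ x : 𝓞 K, σ₁ (x : K) * σ₂ (x : K) = (Algebra.norm ℤ x : ℝ) := by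
    intro x
    classical
    rw [← norm_prod_rl hr x]
    have hu : (Finset.univ : Finset (InfinitePlace K)) = {w₁, w₂} := by
      ext w
      simpa using hall w
    rw [hu, Finset.prod_pair hne, hσ₁, hσ₂]
  have hnpos : (0 : ℝ) < (Ideal.absNorm 𝔟 : ℝ) := by
    have := Nat.pos_of_ne_zero (Ideal.absNorm_eq_zero_iff.not.2 h𝔟)
    exact_mod_cast this
  have hs0 : √(Ideal.absNorm 𝔟 : ℝ) ≠ 0 := (Real.sqrt_pos.2 hnpos).ne'
  have hs2 : √(Ideal.absNorm 𝔟 : ℝ) * √(Ideal.absNorm 𝔟 : ℝ) = (Ideal.absNorm 𝔟 : ℝ) :=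
    Real.mul_self_sqrt hnpos.le
  have hnR : ((n : ℤ) : ℝ) = (Ideal.absNorm 𝔟 : ℝ) := by rw [hn]; push_cast; rfl
  have hAR : σ₁ (α : K) * σ₂ (α : K) = (Ideal.absNorm 𝔟 : ℝ) * A := by
    rw [hprod, hA]; push_cast; rw [hnR]
  have hCR : σ₁ (β : K) * σ₂ (β : K) = (Ideal.absNorm 𝔟 : ℝ) * C := by
    rw [hprod, hC]; push_cast; rw [hnR]
  have hSR : (σ₁ (α : K) + σ₁ (β : K)) * (σ₂ (α : K) + σ₂ (β : K)) = (Ideal.absNorm 𝔟 : ℝ) * S := by
    have h1 := hprod (α + β)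
    rw [hS] at h1
    push_cast at h1
    rw [map_add, map_add, hnR] at h1
    exact h1
  let F : Fm M :=
    { A := A
      B := S - A - C
      C := C
      a1 := σ₁ (α : K) / √(Ideal.absNorm 𝔟 : ℝ)
      b1 := σ₁ (β : K) / √(Ideal.absNorm 𝔟 : ℝ)
      a2 := σ₂ (α : K) / √(Ideal.absNorm 𝔟 : ℝ)
      b2 := σ₂ (β : K) / √(Ideal.absNorm 𝔟 : ℝ)
      hA := by
        rw [div_mul_div_comm, hs2, hAR]
        field_simp
      hB := by
        rw [div_mul_div_comm, div_mul_div_comm, hs2, ← add_div]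
        rw [div_eq_iff hnpos.ne']
        push_cast
        linear_combination hSR - hAR - hCR
      hC := by
        rw [div_mul_div_comm, hs2, hCR]
        field_simp
      disc := hdisc }
  have hq : ∀ p : ℤ × ℤ, n * F.q p = Algebra.norm ℤ (el α β p) := by
    intro p
    rw [B.norm_int, cre_el, cim_el]
    show n * (A * p.1 ^ 2 + (S - A - C) * p.1 * p.2 + C * p.2 ^ 2) = _
    linear_combination (p.1 * p.2 - p.1 ^ 2) * hA' + (p.1 * p.2 - p.2 ^ 2) * hC' - p.1 * p.2 * hS'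
  have hA0 : A ≠ 0 := by
    intro h0
    apply hsq
    rw [h0] at hdisc
    refine ⟨(S - 0 - C).natAbs, ?_⟩
    have h1 : ((M : ℕ) : ℤ) = (((S - 0 - C).natAbs * (S - 0 - C).natAbs : ℕ) : ℤ) := by
      push_cast
      rw [abs_mul_abs_self]
      linear_combination -hdisc
    exact_mod_cast h1
  refine ⟨F, α, β, hA0, ?_, ?_, hq, ?_, ?_, -ε, ?_, ?_⟩
  · intro p
    exact 𝔟.add_mem (𝔟.mul_mem_left _ hα) (𝔟.mul_mem_left _ hβ)
  · intro x hx
    obtain ⟨p, hp⟩ := hspan x hx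
    refine ⟨p, hp, fun p' hp' => ?_⟩
    have e1 : p'.1 * B.cre α + p'.2 * B.cre β = p.1 * B.cre α + p.2 * B.cre β := by
      rw [← cre_el, ← cre_el, hp, hp']
    have e2 : p'.1 * B.cim α + p'.2 * B.cim β = p.1 * B.cim α + p.2 * B.cim β := by
      rw [← cim_el, ← cim_el, hp, hp']
    have hd0 : ε * n ≠ 0 := mul_ne_zero (by rcases hε with h | h <;> rw [h] <;> norm_num) hn0
    apply Prod.ext
    · apply mul_right_cancel₀ hd0
      rw [← hdet]
      linear_combination B.cim β * e1 - B.cre β * e2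
    · apply mul_right_cancel₀ hd0
      rw [← hdet]
      linear_combination B.cre α * e2 - B.cim α * e1
  · intro p
    rw [hσ₁]
    have h1 : ((el α β p : 𝓞 K) : K) = (p.1 : K) * (α : K) + (p.2 : K) * (β : K) := by
      unfold el; push_cast; rfl
    rw [h1, map_add, map_mul, map_mul, map_intCast, map_intCast]
    show √(Ideal.absNorm 𝔟 : ℝ) * (σ₁ (α : K) / √(Ideal.absNorm 𝔟 : ℝ) * p.1 +
      σ₁ (β : K) / √(Ideal.absNorm 𝔟 : ℝ) * p.2) = _
    field_simp
  · intro p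
    rw [hσ₂]
    have h1 : ((el α β p : 𝓞 K) : K) = (p.1 : K) * (α : K) + (p.2 : K) * (β : K) := by
      unfold el; push_cast; rfl
    rw [h1, map_add, map_mul, map_mul, map_intCast, map_intCast]
    show √(Ideal.absNorm 𝔟 : ℝ) * (σ₂ (α : K) / √(Ideal.absNorm 𝔟 : ℝ) * p.1 +
      σ₂ (β : K) / √(Ideal.absNorm 𝔟 : ℝ) * p.2) = _
    field_simp
  · rcases hε with h | h <;> rw [h] <;> norm_num
  · intro p
    have hx1 : B.cre (el α β (F.M p)) = ((S - A - C) * p.1 + 2 * C * p.2) * B.cre α -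
        (2 * A * p.1 + (S - A - C) * p.2) * B.cre β := by
      rw [cre_el]
      show ((S - A - C) * p.1 + 2 * C * p.2) * B.cre α +
        (-(2 * A * p.1 + (S - A - C) * p.2)) * B.cre β = _
      ring
    have hx2 : B.cim (el α β (F.M p)) = ((S - A - C) * p.1 + 2 * C * p.2) * B.cim α -
        (2 * A * p.1 + (S - A - C) * p.2) * B.cim β := by
      rw [cim_el]
      show ((S - A - C) * p.1 + 2 * C * p.2) * B.cim α +
        (-(2 * A * p.1 + (S - A - C) * p.2)) * B.cim β = _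
      ring
    have e1 : n * (S - A - C) = 2 * B.cre α * B.cre β + B.T * (B.cre α * B.cim β + B.cim α * B.cre β) +
        2 * B.N * B.cim α * B.cim β := by
      linear_combination hA' + hC' - hS'
    apply B.ext_coord
    · rw [hx1, (B.coord_mul _ _).1, (B.coord_int _).1, (B.coord_int _).2, (B.coord_mul _ _).1,
        B.rt_coord.1, B.rt_coord.2, cre_el, cim_el]
      apply mul_left_cancel₀ hn0
      linear_combination (p.1 * B.cre α - p.2 * B.cre β) * e1 - 2 * p.2 * B.cre α * hC' +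
        2 * p.1 * B.cre β * hA' +
        (-B.T * (p.1 * B.cre α + p.2 * B.cre β) - 2 * B.N * (p.1 * B.cim α + p.2 * B.cim β)) * (-hdet)
    · rw [hx2, (B.coord_mul _ _).2, (B.coord_int _).1, (B.coord_int _).2, (B.coord_mul _ _).2,
        B.rt_coord.1, B.rt_coord.2, cre_el, cim_el]
      apply mul_left_cancel₀ hn0
      linear_combination (p.1 * B.cim α - p.2 * B.cim β) * e1 - 2 * p.2 * B.cim α * hC' +
        2 * p.1 * B.cim β * hA' +
        (2 * (p.1 * B.cre α + p.2 * B.cre β) + B.T * (p.1 * B.cim α + p.2 * B.cim β)) * (-hdet)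

end Pool.Agent.H505.MF.BAS
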