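import Pool.Agent.H505.MF.Stm2

/-!
# Project MF (helper505), leaf COE: the arithmetic of the coefficients

By helper788.
-/

set_option autoImplicit false
set_option linter.unusedSectionVars false
set_option linter.unusedVariables false

open NumberField

namespace Pool.Agent.H505.MF.COE

open Pool.Agent.H505

section

variable {K : Type} [Field K] [NumberField K]

/-- the ideals of norm `n` -/
noncomputable def S (K : Type) [Field K] [NumberField K] (n : ℕ) : Finset (Ideal (𝓞 K)) :=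
  (Ideal.finite_setOfPred_absNorm_eq (S := 𝓞 K) n).toFinset

lemma mem_S {n : ℕ} {𝔞 : Ideal (𝓞 K)} : 𝔞 ∈ S K n ↔ Ideal.absNorm 𝔞 = n := by
  unfold S
  rw [Set.Finite.mem_toFinset]
  rfl

lemma cfa_eq (ψ : Ideal (𝓞 K) →*₀ ℂ) (n : ℕ) : cfa ψ n = ∑ 𝔞 ∈ S K n, ψ 𝔞 := by
  classical
  unfold cfa
  have hf : Finite {𝔞 : Ideal (𝓞 K) // Ideal.absNorm 𝔞 = n} :=
    (Ideal.finite_setOfPred_absNorm_eq (S := 𝓞 K) n).to_subtype
  have : Fintype {𝔞 : Ideal (𝓞 K) // Ideal.absNorm 𝔞 = n} := Fintype.ofFinite _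
  rw [finsum_eq_sum_of_fintype]
  exact (Finset.sum_subtype (S K n) (fun 𝔞 => mem_S) (fun 𝔞 => ψ 𝔞)).symm

lemma cfa_zero (ψ : Ideal (𝓞 K) →*₀ ℂ) : cfa ψ 0 = 0 := by
  rw [cfa_eq]
  refine Finset.sum_eq_zero fun 𝔞 h => ?_
  rw [mem_S, Ideal.absNorm_eq_zero_iff] at h
  rw [h, ← Ideal.zero_eq_bot, map_zero]

lemma cfa_one (ψ : Ideal (𝓞 K) →*₀ ℂ) : cfa ψ 1 = 1 := by
  rw [cfa_eq, Finset.sum_eq_single (1 : Ideal (𝓞 K)), map_one]
  · intro 𝔞 h h1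
    rw [mem_S, Ideal.absNorm_eq_one_iff, ← Ideal.one_eq_top] at h
    exact absurd h h1
  · intro h
    exact absurd (mem_S.2 (by rw [Ideal.one_eq_top, Ideal.absNorm_top])) h

variable {B : QB K} {M : ℕ} (hM : (M : ℤ) = B.D) {e0 : ℕ} {ν : InfinitePlace K → ℝ}
  {ψ : Ideal (𝓞 K) →*₀ ℂ} (h : Base B e0 ν ψ)

include hM h in
lemma norm_le (𝔞 : Ideal (𝓞 K)) : ‖ψ 𝔞‖ ≤ 1 := by
  by_cases h0 : ψ 𝔞 = 0
  · rw [h0, norm_zero]
    exact zero_le_one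
  · exact (h.mod.norm_eq_one ((cop_rt B hM).2 ((h.cop hM 𝔞).1 h0))).le

include hM h in
lemma bound : ∃ C : ℝ, ∀ n : ℕ, ‖cfa ψ n‖ ≤ C * n ^ 2 := by
  have hs := Pool.Agent.Y773.G.summable_ideals (K := K) (σ := 2) (by norm_num)
  refine ⟨∑' I : {I : Ideal (𝓞 K) // I ≠ ⊥}, (Ideal.absNorm I.1 : ℝ) ^ (-(2 : ℝ)), fun n => ?_⟩
  rcases Nat.eq_zero_or_pos n with rfl | hn
  · rw [cfa_zero, norm_zero]
    simp
  have hn' : (0 : ℝ) < n := by exact_mod_cast hn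
  have h1 : ‖cfa ψ n‖ ≤ (S K n).card := by
    rw [cfa_eq]
    refine (norm_sum_le _ _).trans ?_
    refine (Finset.sum_le_sum fun 𝔞 _ => norm_le hM h 𝔞).trans (le_of_eq ?_)
    simp
  have h2 : ((S K n).card : ℝ) * (n : ℝ) ^ (-(2 : ℝ)) ≤
      ∑' I : {I : Ideal (𝓞 K) // I ≠ ⊥}, (Ideal.absNorm I.1 : ℝ) ^ (-(2 : ℝ)) := by
    classical
    have h3 := hs.sum_le_tsum ((S K n).subtype fun I => I ≠ ⊥)
      (fun I _ => by positivity)
    refine le_trans (le_of_eq ?_) h3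
    have h4 : ∀ I ∈ (S K n).subtype (fun I => I ≠ ⊥),
        (Ideal.absNorm I.1 : ℝ) ^ (-(2 : ℝ)) = (n : ℝ) ^ (-(2 : ℝ)) := by
      intro I hI
      rw [Finset.mem_subtype, mem_S] at hI
      rw [hI]
    rw [Finset.sum_congr rfl h4, Finset.sum_const, nsmul_eq_mul, Finset.card_subtype]
    congr 2
    rw [Finset.filter_true_of_mem]
    intro I hI h0
    rw [mem_S, h0, Ideal.absNorm_bot] at hI
    omega
  have h5 : (n : ℝ) ^ (-(2 : ℝ)) = ((n : ℝ) ^ 2)⁻¹ := by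
    rw [Real.rpow_neg hn'.le]
    norm_num
  rw [h5, ← div_eq_mul_inv, div_le_iff₀ (by positivity)] at h2
  exact h1.trans h2

include hM h in
lemma cfa_cop {n : ℕ} (hn : ¬ n.Coprime M) : cfa ψ n = 0 := by
  rw [cfa_eq]
  refine Finset.sum_eq_zero fun 𝔞 h𝔞 => ?_
  rw [mem_S] at h𝔞
  by_contra h0
  have := (h.cop hM 𝔞).1 h0
  rw [h𝔞] at this
  exact hn this

include hM h in
lemma cfa_conj (n : ℕ) : (starRingEnd ℂ) (cfa ψ n) = cfa ψ n := by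
  rw [cfa_eq, map_sum]
  refine Finset.sum_nbij' (fun 𝔞 => B.cjI 𝔞) (fun 𝔞 => B.cjI 𝔞) (fun 𝔞 h𝔞 => ?_) (fun 𝔞 h𝔞 => ?_)
    (fun 𝔞 _ => B.cjI_cjI 𝔞) (fun 𝔞 _ => B.cjI_cjI 𝔞) (fun 𝔞 _ => (h.conj hM 𝔞).symm)
  · rw [mem_S] at h𝔞 ⊢
    rw [B.absNorm_cjI, h𝔞]
  · rw [mem_S] at h𝔞 ⊢
    rw [B.absNorm_cjI, h𝔞]

lemma cfa_sum (ψ : Ideal (𝓞 K) →*₀ ℂ) (f : ℕ → ℂ)
    (hs : Summable (fun 𝔞 : Ideal (𝓞 K) => ψ 𝔞 * f (Ideal.absNorm 𝔞))) :
    HasSum (fun n : ℕ => cfa ψ n * f n) (∑' 𝔞 : Ideal (𝓞 K), ψ 𝔞 * f (Ideal.absNorm 𝔞)) := by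
  classical
  have h1 := hs.hasSum
  rw [← (Equiv.sigmaFiberEquiv (fun 𝔞 : Ideal (𝓞 K) => Ideal.absNorm 𝔞)).hasSum_iff] at h1
  refine h1.sigma fun n => ?_
  have hf : Finite {𝔞 : Ideal (𝓞 K) // Ideal.absNorm 𝔞 = n} :=
    (Ideal.finite_setOfPred_absNorm_eq (S := 𝓞 K) n).to_subtype
  have : Fintype {𝔞 : Ideal (𝓞 K) // Ideal.absNorm 𝔞 = n} := Fintype.ofFinite _
  have h2 : cfa ψ n * f n = ∑ 𝔞 : {𝔞 : Ideal (𝓞 K) // Ideal.absNorm 𝔞 = n},
      ψ 𝔞.1 * f (Ideal.absNorm 𝔞.1) := by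
    unfold cfa
    rw [finsum_eq_sum_of_fintype, Finset.sum_mul]
    exact Finset.sum_congr rfl fun 𝔞 _ => by rw [𝔞.2]
  rw [h2]
  exact hasSum_fintype _

/-! ### prime ideals above `p` -/

include B in
lemma exists_above {p : ℕ} (hp : p.Prime) (𝔠 : Ideal (𝓞 K)) (h0 : 𝔠 ≠ ⊥)
    (hd : p ∣ Ideal.absNorm 𝔠) : ∃ P : Ideal (𝓞 K), P.IsPrime ∧ P ∣ 𝔠 ∧ (p : 𝓞 K) ∈ P ∧
      (Ideal.absNorm P = p ∨ P = Ideal.span {(p : 𝓞 K)}) := by
  classical
  induction 𝔠 using UniqueFactorizationMonoid.induction_on_prime with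
  | h₁ => exact absurd Ideal.zero_eq_bot h0
  | h₂ x hx =>
    rw [Ideal.isUnit_iff] at hx
    rw [hx, Ideal.absNorm_top] at hd
    exact absurd (Nat.dvd_one.1 hd) hp.one_lt.ne'
  | h₃ a P ha hP ih =>
    rw [map_mul, hp.dvd_mul] at hd
    rcases hd with hd | hd
    · have hPp : P.IsPrime := Ideal.isPrime_of_prime hP
      obtain ⟨p', hp', hpP, hN⟩ := prime_below B hPp hP.ne_zero
      have hpp : p = p' := by
        rcases hN with hN | hN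
        · rw [hN] at hd
          exact (Nat.prime_dvd_prime_iff_eq hp hp').1 hd
        · rw [hN] at hd
          exact (Nat.prime_dvd_prime_iff_eq hp hp').1 (hp.dvd_of_dvd_pow hd)
      subst hpp
      refine ⟨P, hPp, dvd_mul_right _ _, hpP, ?_⟩
      rcases hN with hN | hN
      · exact Or.inl hN
      · right
        symm
        refine QB.eq_of_le_absNorm ((Ideal.span_singleton_le_iff_mem _).2 hpP) ?_ ?_
        · rw [B.absNorm_nat, hN]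
        · rw [hN]
          exact pow_ne_zero _ hp.ne_zero
    · obtain ⟨Q, hQ, hQa, hpQ, hQN⟩ := ih ha hd
      exact ⟨Q, hQ, hQa.trans (dvd_mul_left _ _), hpQ, hQN⟩

/-- a root modulo `p` from the symbol -/
lemma root_of_spl (B : QB K) {p : ℕ} (hp : p.Prime) (hD : ¬ (p : ℤ) ∣ B.D) (hs : spl B.T B.N p = 1) :
    ∃ n : ℤ, (p : ℤ) ∣ n * n - B.T * n + B.N := by
  have : Fact p.Prime := ⟨hp⟩
  by_cases hp2 : p = 2
  · subst hp2
    rw [spl_two] at hs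
    have hN : Even B.N := by
      by_contra hc
      rw [if_neg hc] at hs
      norm_num at hs
    obtain ⟨k, hk⟩ := hN
    exact ⟨0, k, by rw [hk]; push_cast; ring⟩
  · rw [spl_odd hp2, qc_apply] at hs
    have hDp : ((B.T * B.T - 4 * B.N : ℤ) : ZMod p) ≠ 0 := by
      intro h0
      exact hD ((ZMod.intCast_zmod_eq_zero_iff_dvd _ _).1 h0)
    have hs' : quadraticChar (ZMod p) ((B.T * B.T - 4 * B.N : ℤ) : ZMod p) = 1 := by
      exact_mod_cast hs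
    rw [quadraticChar_one_iff_isSquare hDp] at hs'
    obtain ⟨s, hs⟩ := hs'
    have h2 : (2 : ZMod p) ≠ 0 := by
      intro h0
      have h1 : ((2 : ℕ) : ZMod p) = 0 := by exact_mod_cast h0
      rw [ZMod.natCast_eq_zero_iff] at h1
      exact hp2 ((Nat.prime_dvd_prime_iff_eq hp Nat.prime_two).1 h1)
    obtain ⟨n, hn⟩ : ∃ n : ℤ, (n : ZMod p) = ((B.T : ZMod p) + s) / 2 :=
      ZMod.intCast_surjective _
    refine ⟨n, (ZMod.intCast_zmod_eq_zero_iff_dvd _ _).1 ?_⟩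
    have h3 : 2 * (n : ZMod p) = (B.T : ZMod p) + s := by
      rw [hn]
      field_simp
    have h4 : (2 * 2 : ZMod p) * ((n * n - B.T * n + B.N : ℤ) : ZMod p) = 0 := by
      push_cast at hs ⊢
      linear_combination (2 * (n : ZMod p) - B.T + s) * h3 - hs
    exact (mul_eq_zero.1 h4).resolve_left (mul_ne_zero h2 h2)

/-- if `(p)` is a prime ideal then the form has no root modulo `p` -/
lemma no_root (B : QB K) {p : ℕ} (hp : p.Prime) (hP : (Ideal.span {(p : 𝓞 K)}).IsPrime) {n : ℤ}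
    (hn : (p : ℤ) ∣ n * n - B.T * n + B.N) : False := by
  have e1 : Ideal.span {(p : 𝓞 K)} = Ideal.span {((p : ℤ) : 𝓞 K)} := by rw [Int.cast_natCast]
  set x : 𝓞 K := ((-n : ℤ) : 𝓞 K) + ((1 : ℤ) : 𝓞 K) * B.om with hx
  have hc := B.uniq (-n) 1
  rw [← hx] at hc
  have h1 : x * B.cj x ∈ Ideal.span {(p : 𝓞 K)} := by
    rw [B.mul_cj, B.norm_int, hc.1, hc.2, e1, Ideal.mem_span_singleton]
    obtain ⟨k, hk⟩ := hn
    refine ⟨(k : 𝓞 K), ?_⟩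
    have h2 : (-n * -n + B.T * (-n * 1) + B.N * (1 * 1) : ℤ) = (p : ℤ) * k := by
      rw [← hk]; ring
    rw [h2]
    push_cast
    rfl
  have key : ∀ y : 𝓞 K, y ∈ Ideal.span {(p : 𝓞 K)} → (p : ℤ) ∣ B.cim y := by
    intro y hy
    rw [e1, B.mem_span_int] at hy
    exact hy.2
  have hp1 : ¬ (p : ℤ) ∣ 1 := by
    intro h2
    have h3 : p ∣ 1 := by exact_mod_cast h2
    exact hp.one_lt.ne' (Nat.dvd_one.1 h3)
  rcases hP.mem_or_mem h1 with h2 | h2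
  · have := key _ h2
    rw [hc.2] at this
    exact hp1 this
  · have := key _ h2
    rw [B.cj_cim, hc.2] at this
    exact hp1 ((dvd_neg).1 this)

include hM h in
/-- the inert case -/
lemma hecke_inert {p : ℕ} (hp : p.Prime) (hpM : ¬ p ∣ M)
    (hno : ∀ P : Ideal (𝓞 K), Ideal.absNorm P ≠ p) {n : ℕ} (hn : 0 < n) :
    cfa ψ p = 0 ∧ cfa ψ (p * n) = -(if p ∣ n then cfa ψ (n / p) else 0) := by
  classical
  have hpD : ¬ (p : ℤ) ∣ B.D := by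
    rw [← hM]
    exact fun h1 => hpM (by exact_mod_cast h1)
  set Q : Ideal (𝓞 K) := Ideal.span {(p : 𝓞 K)} with hQ
  have hQN : Ideal.absNorm Q = p ^ 2 := B.absNorm_nat p
  have hQ0 : Q ≠ ⊥ := by
    intro h0
    rw [h0, Ideal.absNorm_bot] at hQN
    exact (pow_ne_zero 2 hp.ne_zero) hQN.symm
  have hQp : Q.IsPrime := by
    obtain ⟨P, hP, hPQ, hpP, hPN⟩ := exists_above (B := B) hp Q hQ0 (by rw [hQN]; exact dvd_pow_self p two_ne_zero)
    rcases hPN with hPN | hPN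
    · exact absurd hPN (hno P)
    · rw [hQ, ← hPN]
      exact hP
  have hψQ : ψ Q = -1 := by
    have h1 := h.cen p hp hpD
    have h2 := spl_sq hp hpD
    rcases mul_self_eq_one_iff.1 h2 with h3 | h3
    · obtain ⟨r, hr⟩ := root_of_spl B hp hpD h3
      exact (no_root B hp hQp hr).elim
    · rw [h1, h3]
  refine ⟨?_, ?_⟩
  · rw [cfa_eq]
    refine Finset.sum_eq_zero fun 𝔞 h𝔞 => ?_
    exact absurd (mem_S.1 h𝔞) (hno 𝔞)
  · have hdiv : ∀ 𝔠 ∈ S K (p * n), Q ∣ 𝔠 := by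
      intro 𝔠 h𝔠
      rw [mem_S] at h𝔠
      obtain ⟨P, hP, hPc, hpP, hPN⟩ := exists_above (B := B) hp 𝔠 (by
        intro h0
        rw [h0, Ideal.absNorm_bot] at h𝔠
        have := Nat.mul_pos hp.pos hn
        omega) (by rw [h𝔠]; exact dvd_mul_right _ _)
      rcases hPN with hPN | hPN
      · exact absurd hPN (hno P)
      · rw [hQ, ← hPN]
        exact hPc
    by_cases hpn : p ∣ n
    · rw [if_pos hpn]
      obtain ⟨k, rfl⟩ := hpn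
      rw [Nat.mul_div_cancel_left k hp.pos, cfa_eq, cfa_eq, ← Finset.sum_neg_distrib]
      symm
      refine Finset.sum_bij (fun 𝔡 _ => Q * 𝔡) (fun 𝔡 h𝔡 => ?_) (fun 𝔡 _ 𝔡' _ heq => ?_)
        (fun 𝔠 h𝔠 => ?_) (fun 𝔡 _ => ?_)
      · rw [mem_S] at h𝔡 ⊢
        rw [map_mul, hQN, h𝔡]
        ring
      · exact mul_left_cancel₀ (by rwa [Ideal.zero_eq_bot]) heq
      · obtain ⟨𝔡, h𝔡⟩ := hdiv 𝔠 h𝔠
        refine ⟨𝔡, ?_, h𝔡.symm⟩
        rw [mem_S] at h𝔠 ⊢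
        rw [h𝔡, map_mul, hQN] at h𝔠
        have h1 : p ^ 2 * Ideal.absNorm 𝔡 = p ^ 2 * k := by rw [h𝔠]; ring
        exact Nat.eq_of_mul_eq_mul_left (pow_pos hp.pos 2) h1
      · rw [map_mul, hψQ]
        ring
    · rw [if_neg hpn, neg_zero, cfa_eq]
      refine Finset.sum_eq_zero fun 𝔠 h𝔠 => ?_
      exfalso
      obtain ⟨𝔡, h𝔡⟩ := hdiv 𝔠 h𝔠
      rw [mem_S, h𝔡, map_mul, hQN] at h𝔠
      refine hpn ⟨Ideal.absNorm 𝔡, ?_⟩
      have h1 : p * (p * Ideal.absNorm 𝔡) = p * n := by rw [← h𝔠]; ring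
      exact (Nat.eq_of_mul_eq_mul_left hp.pos h1).symm

open Classical in
/-- the multiples of an ideal among the ideals of given norm -/
lemma sum_mult (ψ : Ideal (𝓞 K) →*₀ ℂ) {P : Ideal (𝓞 K)} {q n : ℕ} (hq : 0 < q) (hP : Ideal.absNorm P = q) :
    ∑ 𝔠 ∈ (S K (q * n)).filter (fun 𝔠 => P ∣ 𝔠), ψ 𝔠 = ψ P * cfa ψ n := by
  classical
  have hP0 : P ≠ 0 := by
    rintro rfl
    rw [Ideal.zero_eq_bot, Ideal.absNorm_bot] at hP
    omega
  rw [cfa_eq, Finset.mul_sum]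
  symm
  refine Finset.sum_bij (fun 𝔡 _ => P * 𝔡) (fun 𝔡 h𝔡 => ?_) (fun 𝔡 _ 𝔡' _ heq => ?_)
    (fun 𝔠 h𝔠 => ?_) (fun 𝔡 _ => ?_)
  · rw [Finset.mem_filter]
    rw [mem_S] at h𝔡 ⊢
    exact ⟨by rw [map_mul, hP, h𝔡], dvd_mul_right _ _⟩
  · exact mul_left_cancel₀ hP0 heq
  · rw [Finset.mem_filter, mem_S] at h𝔠
    obtain ⟨h1, 𝔡, h𝔡⟩ := h𝔠
    refine ⟨𝔡, ?_, h𝔡.symm⟩
    rw [mem_S]
    rw [h𝔡, map_mul, hP] at h1
    exact Nat.eq_of_mul_eq_mul_left hq h1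
  · rw [map_mul]

include hM h in
/-- the split case -/
lemma hecke_split {p : ℕ} (hp : p.Prime) (hpM : ¬ p ∣ M) {P : Ideal (𝓞 K)}
    (hPN : Ideal.absNorm P = p) {n : ℕ} (hn : 0 < n) :
    cfa ψ p * cfa ψ n = cfa ψ (p * n) + if p ∣ n then cfa ψ (n / p) else 0 := by
  classical
  have hpD : ¬ (p : ℤ) ∣ B.D := by
    rw [← hM]
    exact fun h1 => hpM (by exact_mod_cast h1)
  have hP0 : P ≠ ⊥ := by
    rintro rfl
    rw [Ideal.absNorm_bot] at hPN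
    exact hp.ne_zero hPN.symm
  have hprime : ∀ R : Ideal (𝓞 K), Ideal.absNorm R = p → R.IsPrime := fun R hR =>
    Ideal.isPrime_of_irreducible_absNorm (by rw [hR]; exact hp)
  have hPp := hprime P hPN
  set P' := B.cjI P with hP'
  have hPN' : Ideal.absNorm P' = p := by rw [hP', B.absNorm_cjI, hPN]
  have hPp' := hprime P' hPN'
  have hP0' : P' ≠ ⊥ := by
    intro h0
    rw [h0, Ideal.absNorm_bot] at hPN'
    exact hp.ne_zero hPN'.symm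
  set Q : Ideal (𝓞 K) := Ideal.span {(p : 𝓞 K)} with hQ
  have hQN : Ideal.absNorm Q = p * p := by rw [hQ, B.absNorm_nat p, pow_two]
  have hPQ : P * P' = Q := by
    have := B.mul_cjI_prime hPp hP0
    rwa [hPN] at this
  obtain ⟨r, hr, hroot⟩ := B.exists_root hp hPN
  have hψQ : ψ Q = 1 := by rw [h.cen p hp hpD, B.spl_of_root hp hpD hroot]
  -- `P ≠ P'`
  have hne : P ≠ P' := by
    intro heq
    have h1 : B.cj (B.om - (r : 𝓞 K)) ∈ P := by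
      have h2 : B.om - (r : 𝓞 K) ∈ B.cjI P := by rw [← hP', ← heq]; exact hr
      exact B.mem_cjI.1 h2
    have h2 : B.om - (r : 𝓞 K) - B.cj (B.om - (r : 𝓞 K)) = B.rt := by
      have hc : B.om - (r : 𝓞 K) = ((-r : ℤ) : 𝓞 K) + ((1 : ℤ) : 𝓞 K) * B.om := by
        push_cast; ring
      have hu := B.uniq (-r) 1
      rw [← hc] at hu
      have h3 : B.cj (B.om - (r : 𝓞 K)) = ((-r + B.T * 1 : ℤ) : 𝓞 K) + ((-1 : ℤ) : 𝓞 K) * B.om := by
        unfold QB.cj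
        rw [hu.1, hu.2]
      rw [h3]
      unfold QB.rt
      push_cast
      ring
    have h3 : B.rt ∈ P := by
      rw [← h2]
      exact P.sub_mem hr h1
    have h4 : (B.D : 𝓞 K) ∈ P := by
      rw [← B.rt_sq]
      exact P.mul_mem_left _ h3
    have hpP : (p : 𝓞 K) ∈ P := by
      rw [← hPN]
      exact Ideal.absNorm_mem P
    exact hpD (QB.dvd_of_mem hPp.ne_top hp hpP h4)
  -- primes above `p`
  have habove : ∀ R : Ideal (𝓞 K), R.IsPrime → (p : 𝓞 K) ∈ R → R = P ∨ R = P' := by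
    intro R hR hpR
    have h1 : P * P' ≤ R := by
      rw [hPQ, hQ, Ideal.span_singleton_le_iff_mem]
      exact hpR
    have hmP : P.IsMaximal := hPp.isMaximal hP0
    have hmP' : P'.IsMaximal := hPp'.isMaximal hP0'
    rcases (hR.mul_le).1 h1 with h2 | h2
    · left
      exact (hmP.eq_of_le hR.ne_top h2).symm
    · right
      exact (hmP'.eq_of_le hR.ne_top h2).symm
  have hcop : IsCoprime P P' := by
    have hmP : P.IsMaximal := hPp.isMaximal hP0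
    have hmP' : P'.IsMaximal := hPp'.isMaximal hP0'
    rw [Ideal.isCoprime_iff_sup_eq]
    exact Ideal.IsMaximal.coprime_of_ne hmP hmP' hne
  have hdiv2 : ∀ 𝔠 : Ideal (𝓞 K), (P ∣ 𝔠 ∧ P' ∣ 𝔠) ↔ Q ∣ 𝔠 := by
    intro 𝔠
    rw [← hPQ]
    constructor
    · rintro ⟨h1, h2⟩
      exact hcop.mul_dvd h1 h2
    · intro h1
      exact ⟨(dvd_mul_right _ _).trans h1, (dvd_mul_left _ _).trans h1⟩
  -- the ideals of norm `p`
  have hap : cfa ψ p = ψ P + ψ P' := by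
    rw [cfa_eq]
    have h1 : S K p = {P, P'} := by
      ext R
      rw [mem_S, Finset.mem_insert, Finset.mem_singleton]
      constructor
      · intro hR
        refine habove R (hprime R hR) ?_
        rw [← hR]
        exact Ideal.absNorm_mem R
      · rintro (rfl | rfl)
        · exact hPN
        · exact hPN'
    rw [h1, Finset.sum_pair hne]
  -- inclusion and exclusion
  have hall : ∀ 𝔠 ∈ S K (p * n), P ∣ 𝔠 ∨ P' ∣ 𝔠 := by
    intro 𝔠 h𝔠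
    rw [mem_S] at h𝔠
    obtain ⟨R, hR, hRc, hpR, -⟩ := exists_above (B := B) hp 𝔠 (by
      intro h0
      rw [h0, Ideal.absNorm_bot] at h𝔠
      have := Nat.mul_pos hp.pos hn
      omega) (by rw [h𝔠]; exact dvd_mul_right _ _)
    rcases habove R hR hpR with h1 | h1
    · left; rw [← h1]; exact hRc
    · right; rw [← h1]; exact hRc
  have hincl : cfa ψ (p * n) + ∑ 𝔠 ∈ (S K (p * n)).filter (fun 𝔠 => Q ∣ 𝔠), ψ 𝔠 =
      ∑ 𝔠 ∈ (S K (p * n)).filter (fun 𝔠 => P ∣ 𝔠), ψ 𝔠 +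
        ∑ 𝔠 ∈ (S K (p * n)).filter (fun 𝔠 => P' ∣ 𝔠), ψ 𝔠 := by
    rw [cfa_eq, Finset.sum_filter, Finset.sum_filter, Finset.sum_filter, ← Finset.sum_add_distrib,
      ← Finset.sum_add_distrib]
    refine Finset.sum_congr rfl fun 𝔠 h𝔠 => ?_
    by_cases h1 : P ∣ 𝔠
    · by_cases h2 : P' ∣ 𝔠
      · rw [if_pos h1, if_pos h2, if_pos ((hdiv2 𝔠).1 ⟨h1, h2⟩)]
      · rw [if_pos h1, if_neg h2, if_neg fun h3 => h2 ((hdiv2 𝔠).2 h3).2]
    · have h2 : P' ∣ 𝔠 := (hall 𝔠 h𝔠).resolve_left h1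
      rw [if_neg h1, if_pos h2, if_neg fun h3 => h1 ((hdiv2 𝔠).2 h3).1]
      ring
  rw [sum_mult ψ hp.pos hPN, sum_mult ψ hp.pos hPN'] at hincl
  have hlast : ∑ 𝔠 ∈ (S K (p * n)).filter (fun 𝔠 => Q ∣ 𝔠), ψ 𝔠 =
      if p ∣ n then cfa ψ (n / p) else 0 := by
    by_cases hpn : p ∣ n
    · rw [if_pos hpn]
      obtain ⟨k, rfl⟩ := hpn
      rw [Nat.mul_div_cancel_left k hp.pos, ← mul_assoc, sum_mult ψ (Nat.mul_pos hp.pos hp.pos) hQN,
        hψQ, one_mul]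
    · rw [if_neg hpn, Finset.filter_false_of_mem, Finset.sum_empty]
      rintro 𝔠 h𝔠 ⟨𝔡, h𝔡⟩
      rw [mem_S, h𝔡, map_mul, hQN, mul_assoc] at h𝔠
      exact hpn ⟨Ideal.absNorm 𝔡, (Nat.eq_of_mul_eq_mul_left hp.pos h𝔠).symm⟩
  rw [hlast] at hincl
  rw [hap]
  linear_combination -hincl

end

theorem main : S_COE := by
  intro K _ _ B M hM e0 ν ψ h
  refine ⟨cfa_zero ψ, cfa_one ψ, bound hM h, fun n hn => cfa_cop hM h hn, cfa_conj hM h,
    fun p hp hpM n hn => ?_, cfa_sum ψ⟩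
  by_cases hex : ∃ P : Ideal (𝓞 K), Ideal.absNorm P = p
  · obtain ⟨P, hP⟩ := hex
    exact hecke_split hM h hp hpM hP hn
  · push Not at hex
    obtain ⟨h1, h2⟩ := hecke_inert hM h hp hpM hex hn
    rw [h1, h2, zero_mul, neg_add_cancel]

end Pool.Agent.H505.MF.COE
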