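import Pool.Agent.H505.MF.Stm
import Pool.Graph.R_pool_sql_team_seeded_1acbe0a2.Y807.DMA

/-!
# Leaf KBI: the Bessel integral and the tiling of the line
-/

set_option autoImplicit false

open Complex MeasureTheory Filter Topology

namespace Pool.Agent.H505.MF.KBI

open Pool.Agent.Y672.DM (KB)

/-- the complex Bessel integrand -/
noncomputable def gg (t x v : ℝ) : ℂ := ((Real.exp (-(x * Real.cosh v)) : ℝ) : ℂ) * cexp (-(I * t * v))

lemma exp_eq (t v : ℝ) : cexp (-(I * t * v)) = (Real.cos (t * v) : ℝ) - (Real.sin (t * v) : ℝ) * I := by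
  have h : -(I * t * v) = ((-(t * v) : ℝ) : ℂ) * I := by push_cast; ring
  rw [h, Complex.exp_mul_I, ← Complex.ofReal_cos, ← Complex.ofReal_sin, Real.cos_neg, Real.sin_neg]
  push_cast
  ring

lemma gg_continuous (t x : ℝ) : Continuous (gg t x) := by
  have := Real.continuous_cosh
  unfold gg
  fun_prop

lemma gg_integrable (t : ℝ) {x : ℝ} (hx : 0 < x) : Integrable (gg t x) := by
  have h0 := Pool.Agent.Y807.DMA.KB_integrable 0 hx
  refine Integrable.mono' h0 (gg_continuous t x).aestronglyMeasurable (Eventually.of_forall fun v => ?_)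
  have h1 : ‖cexp (-(I * t * v))‖ = 1 := by
    have h : -(I * t * v) = ((-(t * v) : ℝ) : ℂ) * I := by push_cast; ring
    rw [h, Complex.norm_exp_ofReal_mul_I]
  unfold gg
  rw [norm_mul, h1, Complex.norm_real, Real.norm_of_nonneg (Real.exp_pos _).le]
  simp

lemma gg_integral (t : ℝ) {x : ℝ} (hx : 0 < x) : ∫ v : ℝ, gg t x v = (KB t x : ℝ) := by
  have hi := Pool.Agent.Y807.DMA.KB_integrable t hx
  have his : Integrable (fun v : ℝ => Real.exp (-(x * Real.cosh v)) * Real.sin (t * v)) := by
    have h0 := Pool.Agent.Y807.DMA.KB_integrable 0 hx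
    have hc := Real.continuous_cosh
    refine Integrable.mono' h0 (Continuous.aestronglyMeasurable (by fun_prop))
      (Eventually.of_forall fun v => ?_)
    rw [norm_mul, Real.norm_of_nonneg (Real.exp_pos _).le]
    have : ‖Real.sin (t * v)‖ ≤ 1 := Real.abs_sin_le_one _
    simp only [zero_mul, Real.cos_zero, mul_one]
    exact mul_le_of_le_one_right (Real.exp_pos _).le this
  have h2 : ∫ v : ℝ, Real.exp (-(x * Real.cosh v)) * Real.sin (t * v) = 0 := by
    have h3 := integral_neg_eq_self (fun v : ℝ => Real.exp (-(x * Real.cosh v)) * Real.sin (t * v))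
      (volume : Measure ℝ)
    have h4 : ∫ v : ℝ, Real.exp (-(x * Real.cosh (-v))) * Real.sin (t * (-v)) =
        - ∫ v : ℝ, Real.exp (-(x * Real.cosh v)) * Real.sin (t * v) := by
      rw [← integral_neg]
      congr 1
      funext v
      rw [Real.cosh_neg, mul_neg, Real.sin_neg]
      ring
    rw [h4] at h3
    linarith
  have h5 : ∀ v : ℝ, gg t x v = ((Real.exp (-(x * Real.cosh v)) * Real.cos (t * v) : ℝ) : ℂ) -
      ((Real.exp (-(x * Real.cosh v)) * Real.sin (t * v) : ℝ) : ℂ) * I := by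
    intro v
    unfold gg
    rw [exp_eq]
    push_cast
    ring
  have i1 : Integrable (fun v : ℝ => ((Real.exp (-(x * Real.cosh v)) * Real.cos (t * v) : ℝ) : ℂ)) :=
    hi.ofReal
  have i2 : Integrable (fun v : ℝ => ((Real.exp (-(x * Real.cosh v)) * Real.sin (t * v) : ℝ) : ℂ) * I) :=
    his.ofReal.mul_const I
  rw [integral_congr_ae (Eventually.of_forall h5), integral_sub i1 i2, integral_mul_const,
    integral_complex_ofReal, integral_complex_ofReal, h2]
  simp [KB]

lemma log_id {l1 l2 : ℝ} (h1 : l1 ≠ 0) (h2 : l2 ≠ 0) (v : ℝ) :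
    l1 ^ 2 * Real.exp v + l2 ^ 2 * Real.exp (-v) =
      2 * |l1 * l2| * Real.cosh (v + Real.log |l1 / l2|) := by
  have a1 : 0 < |l1| := abs_pos.2 h1
  have a2 : 0 < |l2| := abs_pos.2 h2
  have e1 : Real.exp (Real.log |l1 / l2|) = |l1| / |l2| := by
    rw [Real.exp_log (abs_pos.2 (div_ne_zero h1 h2)), abs_div]
  have e2 : Real.exp (-Real.log |l1 / l2|) = |l2| / |l1| := by
    rw [Real.exp_neg, e1, inv_div]
  rw [Real.cosh_eq, neg_add, Real.exp_add, Real.exp_add, e1, e2, abs_mul, ← sq_abs l1, ← sq_abs l2]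
  field_simp

lemma kbi : S_KBI := by
  intro t y l1 l2 hy h1 h2
  set L := Real.log |l1 / l2| with hL
  have hx : 0 < 2 * Real.pi * |l1 * l2| * y := by
    have : 0 < |l1 * l2| := abs_pos.2 (mul_ne_zero h1 h2)
    have := Real.pi_pos
    positivity
  have hf : ∀ v : ℝ, ((Real.exp (-(Real.pi * y * (l1 ^ 2 * Real.exp v +
      l2 ^ 2 * Real.exp (-v)))) : ℝ) : ℂ) * cexp (-(I * t * v)) =
      cexp (I * t * (L : ℝ)) * gg t (2 * Real.pi * |l1 * l2| * y) (v + L) := by
    intro v
    unfold gg
    rw [log_id h1 h2 v, ← hL]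
    have e : cexp (-(I * t * v)) = cexp (I * t * (L : ℝ)) * cexp (-(I * t * ((v + L : ℝ) : ℂ))) := by
      rw [← Complex.exp_add]
      congr 1
      push_cast
      ring
    rw [e]
    have e2 : Real.pi * y * (2 * |l1 * l2| * Real.cosh (v + L)) =
        2 * Real.pi * |l1 * l2| * y * Real.cosh (v + L) := by ring
    rw [e2]
    ring
  constructor
  · refine (((gg_integrable t hx).comp_add_right L).const_mul (cexp (I * t * (L : ℝ)))).congr ?_
    exact Eventually.of_forall fun v => (hf v).symm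
  · rw [integral_congr_ae (Eventually.of_forall hf), integral_const_mul,
      integral_add_right_eq_self (gg t (2 * Real.pi * |l1 * l2| * y)) L, gg_integral t hx]

lemma til : S_TIL := by
  intro f hf P hP
  have hg : Integrable (fun x : ℝ => (P : ℂ) * f (P * x)) :=
    (hf.comp_mul_left' hP.ne').const_mul _
  have h1 := hg.hasSum_intervalIntegral_comp_add_int
  have h2 : ∫ x : ℝ, (P : ℂ) * f (P * x) = ∫ v : ℝ, f v := by
    rw [integral_const_mul, Measure.integral_comp_mul_left, abs_of_pos (inv_pos.2 hP),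
      Complex.real_smul, ← mul_assoc, ← Complex.ofReal_mul, mul_inv_cancel₀ hP.ne']
    simp
  rw [h2] at h1
  have h3 : ∀ k : ℤ, (∫ x in (0 : ℝ)..1, (P : ℂ) * f (P * (x + k))) = ∫ v in (0 : ℝ)..P, f (v + k * P) := by
    intro k
    have h4 := intervalIntegral.smul_integral_comp_mul_left (a := (0 : ℝ)) (b := 1)
      (fun v : ℝ => f (v + k * P)) P
    rw [mul_zero, mul_one] at h4
    rw [← h4, intervalIntegral.integral_const_mul, Complex.real_smul]
    congr 2
    funext x
    congr 1
    ring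
  simpa only [h3] using h1

theorem main : S_KBI ∧ S_TIL := ⟨kbi, til⟩

end Pool.Agent.H505.MF.KBI
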