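import Pool.Agent.H505.MF.Stm
import Pool.Graph.R_pool_sql_team_seeded_1acbe0a2.Y672.DM.ThetaS

set_option autoImplicit false

open Complex MeasureTheory Filter Topology

namespace Pool.Agent.H505.MF.POI

open Pool.Agent.Y672.DM (PD pois2 form_re cpow_half_mul summable_gauss)

variable {D : ℕ}

/-- the determinant -/
theorem det_sq (F : Fm D) : (F.a1 * F.b2 - F.a2 * F.b1) ^ 2 = D := by
  have h1 := F.hA
  have h2 := F.hB
  have h3 := F.hC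
  have h4 : (F.B : ℝ) ^ 2 - 4 * F.A * F.C = D := by exact_mod_cast F.disc
  rw [← h4, ← h1, ← h2, ← h3]
  ring

theorem low_aux (F : Fm D) (x y : ℝ) :
    (D : ℝ) * (x ^ 2 + y ^ 2) ≤ (F.a1 ^ 2 + F.b1 ^ 2 + F.a2 ^ 2 + F.b2 ^ 2) *
      ((F.a1 * x + F.b1 * y) ^ 2 + (F.a2 * x + F.b2 * y) ^ 2) := by
  rw [← det_sq F]
  have e1 : (F.a1 * F.b2 - F.a2 * F.b1) * x =
      F.b2 * (F.a1 * x + F.b1 * y) - F.b1 * (F.a2 * x + F.b2 * y) := by ring
  have e2 : (F.a1 * F.b2 - F.a2 * F.b1) * y =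
      F.a1 * (F.a2 * x + F.b2 * y) - F.a2 * (F.a1 * x + F.b1 * y) := by ring
  have e3 : (F.a1 * F.b2 - F.a2 * F.b1) ^ 2 * (x ^ 2 + y ^ 2) =
      ((F.a1 * F.b2 - F.a2 * F.b1) * x) ^ 2 + ((F.a1 * F.b2 - F.a2 * F.b1) * y) ^ 2 := by ring
  rw [e3, e1, e2]
  generalize F.a1 * x + F.b1 * y = l1
  generalize F.a2 * x + F.b2 * y = l2
  nlinarith [sq_nonneg (F.b2 * l2 + F.b1 * l1), sq_nonneg (F.a1 * l1 + F.a2 * l2)]

theorem low : S_LOW := by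
  intro D hD F V
  have hD' : (0 : ℝ) < D := by exact_mod_cast hD
  set S := F.a1 ^ 2 + F.b1 ^ 2 + F.a2 ^ 2 + F.b2 ^ 2 with hS
  have hS0 : 0 < S := by
    by_contra hn
    have h0 : S ≤ 0 := not_lt.1 hn
    have e1 : F.a1 ^ 2 = 0 := by nlinarith [sq_nonneg F.a1, sq_nonneg F.b1, sq_nonneg F.a2, sq_nonneg F.b2]
    have e2 : F.a2 ^ 2 = 0 := by nlinarith [sq_nonneg F.a1, sq_nonneg F.b1, sq_nonneg F.a2, sq_nonneg F.b2]
    have h1 := det_sq F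
    rw [pow_eq_zero_iff (two_ne_zero)] at e1 e2
    rw [e1, e2] at h1
    simp at h1
    linarith
  refine ⟨Real.exp (-V) * (D / S), by positivity, fun v hv x y => ?_⟩
  have h1 := low_aux F x y
  rw [← hS] at h1
  have h2 : (D : ℝ) / S * (x ^ 2 + y ^ 2) ≤
      (F.a1 * x + F.b1 * y) ^ 2 + (F.a2 * x + F.b2 * y) ^ 2 := by
    rw [div_mul_eq_mul_div, div_le_iff₀ hS0]
    linarith
  have h3 : Real.exp (-V) ≤ Real.exp v := Real.exp_le_exp.2 (by linarith [(abs_le.1 hv).1])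
  have h4 : Real.exp (-V) ≤ Real.exp (-v) := Real.exp_le_exp.2 (by linarith [(abs_le.1 hv).2])
  calc Real.exp (-V) * (D / S) * (x ^ 2 + y ^ 2) = Real.exp (-V) * (D / S * (x ^ 2 + y ^ 2)) := by ring
    _ ≤ Real.exp (-V) * ((F.a1 * x + F.b1 * y) ^ 2 + (F.a2 * x + F.b2 * y) ^ 2) := by gcongr
    _ = (F.a1 * x + F.b1 * y) ^ 2 * Real.exp (-V) + (F.a2 * x + F.b2 * y) ^ 2 * Real.exp (-V) := by ring
    _ ≤ _ := by
        unfold Fm.maj
        gcongr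

theorem norm_gsR (F : Fm D) (w : ℂ) (v x y : ℝ) :
    ‖F.gsR w v x y‖ = Real.exp (-Real.pi * w.im * F.maj v x y) := by
  unfold Fm.gsR
  rw [norm_exp]
  congr 1
  have e : (2 * Real.pi * I * w.re * (F.qR x y : ℝ) - Real.pi * w.im * (F.maj v x y : ℝ) : ℂ) =
      ((2 * Real.pi * w.re * F.qR x y : ℝ) : ℂ) * I +
        ((-Real.pi * w.im * F.maj v x y : ℝ) : ℂ) := by
    push_cast; ring
  rw [e, add_re, re_ofReal_mul, I_re, ofReal_re]
  ring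

theorem sum : S_SUM := by
  intro D hD F V δ hδ
  obtain ⟨κ, hκ, h⟩ := low D hD F V
  refine ⟨fun p => Real.exp (-Real.pi * p.1 ^ 2 * (δ * κ)) * Real.exp (-Real.pi * p.2 ^ 2 * (δ * κ)),
    summable_gauss (by positivity), fun w v hw hv p => ?_⟩
  unfold Fm.gs
  rw [norm_gsR]
  beta_reduce
  rw [← Real.exp_add]
  apply Real.exp_le_exp.2
  have h1 := h v hv p.1 p.2
  have h2 : δ * (κ * ((p.1 : ℝ) ^ 2 + (p.2 : ℝ) ^ 2)) ≤ w.im * F.maj v p.1 p.2 := by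
    gcongr
    have : 0 ≤ κ * ((p.1 : ℝ) ^ 2 + (p.2 : ℝ) ^ 2) := by positivity
    linarith
  nlinarith [Real.pi_pos]

/-- the coefficients -/
noncomputable def cA (F : Fm D) (w : ℂ) (v : ℝ) : ℂ :=
  w.im * (F.a1 ^ 2 * Real.exp v + F.a2 ^ 2 * Real.exp (-v) : ℝ) - 2 * I * w.re * F.A
noncomputable def cB (F : Fm D) (w : ℂ) (v : ℝ) : ℂ :=
  w.im * (F.a1 * F.b1 * Real.exp v + F.a2 * F.b2 * Real.exp (-v) : ℝ) - I * w.re * F.B
noncomputable def cC (F : Fm D) (w : ℂ) (v : ℝ) : ℂ :=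
  w.im * (F.b1 ^ 2 * Real.exp v + F.b2 ^ 2 * Real.exp (-v) : ℝ) - 2 * I * w.re * F.C

theorem gsR_eq (F : Fm D) (w : ℂ) (v x y : ℝ) : F.gsR w v x y =
    cexp (-Real.pi * (cA F w v * (x : ℂ) ^ 2 + 2 * cB F w v * x * y + cC F w v * (y : ℂ) ^ 2)) := by
  unfold Fm.gsR Fm.qR Fm.maj cA cB cC
  congr 1
  push_cast
  ring

theorem re_c (F : Fm D) (w : ℂ) (v : ℝ) :
    (cA F w v).re = w.im * (F.a1 ^ 2 * Real.exp v + F.a2 ^ 2 * Real.exp (-v)) ∧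
    (cB F w v).re = w.im * (F.a1 * F.b1 * Real.exp v + F.a2 * F.b2 * Real.exp (-v)) ∧
    (cC F w v).re = w.im * (F.b1 ^ 2 * Real.exp v + F.b2 ^ 2 * Real.exp (-v)) := by
  have e1 : cA F w v = ((w.im * (F.a1 ^ 2 * Real.exp v + F.a2 ^ 2 * Real.exp (-v)) : ℝ) : ℂ) +
      ((-2 * w.re * F.A : ℝ) : ℂ) * I := by unfold cA; push_cast; ring
  have e2 : cB F w v = ((w.im * (F.a1 * F.b1 * Real.exp v + F.a2 * F.b2 * Real.exp (-v)) : ℝ) : ℂ) +
      ((-w.re * F.B : ℝ) : ℂ) * I := by unfold cB; push_cast; ring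
  have e3 : cC F w v = ((w.im * (F.b1 ^ 2 * Real.exp v + F.b2 ^ 2 * Real.exp (-v)) : ℝ) : ℂ) +
      ((-2 * w.re * F.C : ℝ) : ℂ) * I := by unfold cC; push_cast; ring
  rw [e1, e2, e3]
  refine ⟨?_, ?_, ?_⟩ <;> rw [add_re, ofReal_re, re_ofReal_mul, I_re, mul_zero, add_zero]

theorem pd_c (hD : 0 < D) (F : Fm D) {w : ℂ} (hw : 0 < w.im) (v : ℝ) :
    PD (cA F w v) (cB F w v) (cC F w v) := by
  obtain ⟨κ, hκ, h⟩ := low D hD F |v|
  refine ⟨w.im * κ, by positivity, fun x y => ?_⟩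
  obtain ⟨e1, e2, e3⟩ := re_c F w v
  rw [form_re, e1, e2, e3]
  have h1 := mul_le_mul_of_nonneg_left (h v le_rfl x y) hw.le
  unfold Fm.maj at h1
  nlinarith [h1]

theorem det_c (F : Fm D) (w : ℂ) (v : ℝ) :
    cA F w v * cC F w v - cB F w v ^ 2 = ((D * normSq w : ℝ) : ℂ) := by
  have h5 : cexp v * cexp (-v) = 1 := by rw [← Complex.exp_add]; simp
  have hA : (F.a1 : ℂ) * F.a2 = F.A := by exact_mod_cast congrArg (fun x : ℝ => (x : ℂ)) F.hA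
  have hB : (F.a1 : ℂ) * F.b2 + F.a2 * F.b1 = F.B := by
    exact_mod_cast congrArg (fun x : ℝ => (x : ℂ)) F.hB
  have hC : (F.b1 : ℂ) * F.b2 = F.C := by exact_mod_cast congrArg (fun x : ℝ => (x : ℂ)) F.hC
  have hd : ((F.a1 : ℂ) * F.b2 - F.a2 * F.b1) ^ 2 = D := by
    exact_mod_cast congrArg (fun x : ℝ => (x : ℂ)) (det_sq F)
  rw [normSq_apply]
  unfold cA cB cC
  rw [← hA, ← hB, ← hC]
  push_cast
  rw [← hd]
  linear_combination ((w.re : ℂ) ^ 2 * (4 * F.a1 * F.a2 * F.b1 * F.b2 -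
    (F.a1 * F.b2 + F.a2 * F.b1) ^ 2)) * I_sq +
    ((w.im : ℂ) ^ 2 * ((F.a1 : ℂ) * F.b2 - F.a2 * F.b1) ^ 2) * h5

theorem poi : S_POI := by
  intro D hD F w v s r hw
  have hD' : (0 : ℝ) < D := by exact_mod_cast hD
  have hA := (pd_c hD F hw v).re_pos
  have hA0 : cA F w v ≠ 0 := by
    intro h
    rw [h] at hA
    simp at hA
  have hw0 : w ≠ 0 := by
    rintro rfl
    simp at hw
  have hN : 0 < normSq w := normSq_pos.mpr hw0
  have hDt : cC F w v - cB F w v ^ 2 / cA F w v = ((D * normSq w : ℝ) : ℂ) / cA F w v := by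
    rw [← det_c F w v]
    field_simp
  have h := pois2 (pd_c hD F hw v) s r
  have e0 : ∀ p : ℤ × ℤ, F.gsR w v (p.1 + s) (p.2 + r) =
      cexp (-Real.pi * (cA F w v * ((p.1 : ℂ) + s) ^ 2 +
        2 * cB F w v * ((p.1 : ℂ) + s) * ((p.2 : ℂ) + r) + cC F w v * ((p.2 : ℂ) + r) ^ 2)) := by
    intro p
    rw [gsR_eq]
    push_cast
    rfl
  rw [tsum_congr e0, h, hDt]
  have hc : 1 / cA F w v ^ (1 / 2 : ℂ) *
      (1 / (((D * normSq w : ℝ) : ℂ) / cA F w v) ^ (1 / 2 : ℂ)) = (1 / (√D * ‖w‖ : ℝ) : ℂ) := by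
    rw [one_div_mul_one_div, cpow_half_mul hA (by positivity), Real.sqrt_mul hD'.le,
      Complex.norm_def]
  rw [hc]
  congr 1
  refine tsum_congr fun k => ?_
  congr 1
  unfold Fm.gs
  rw [gsR_eq]
  congr 1
  have hw' : (1 / (D * (starRingEnd ℂ) w)) = ((1 / (D * normSq w) : ℝ) : ℂ) * w := by
    have h1 : (normSq w : ℂ) = w * (starRingEnd ℂ) w := (mul_conj w).symm
    have h2 : (starRingEnd ℂ) w ≠ 0 := (map_ne_zero _).2 hw0
    have h3 : (D : ℂ) ≠ 0 := by exact_mod_cast hD.ne'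
    push_cast
    rw [h1]
    field_simp
  have hre : (1 / (D * (starRingEnd ℂ) w)).re = w.re / (D * normSq w) := by
    rw [hw', re_ofReal_mul]; ring
  have him : (1 / (D * (starRingEnd ℂ) w)).im = w.im / (D * normSq w) := by
    rw [hw', im_ofReal_mul]; ring
  have hN' : ((normSq w : ℝ) : ℂ) ≠ 0 := by exact_mod_cast hN.ne'
  have hDc : (D : ℂ) ≠ 0 := by exact_mod_cast hD.ne'
  have hdet := det_c F w v
  have hquad : (k.1 : ℂ) ^ 2 / cA F w v + (k.2 - cB F w v * k.1 / cA F w v) ^ 2 /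
      (((D * normSq w : ℝ) : ℂ) / cA F w v) =
      (cA F w v * k.2 ^ 2 - 2 * cB F w v * k.1 * k.2 + cC F w v * k.1 ^ 2) /
        ((D * normSq w : ℝ) : ℂ) := by
    have h5N : ((D * normSq w : ℝ) : ℂ) ≠ 0 := by
      exact_mod_cast (by positivity : (D * normSq w : ℝ) ≠ 0)
    field_simp
    rw [← hdet]
    ring
  rw [hquad]
  unfold cA cB cC
  rw [hre, him]
  push_cast
  field_simp
  ring

theorem main : S_LOW ∧ S_SUM ∧ S_POI := ⟨low, sum, poi⟩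

end Pool.Agent.H505.MF.POI
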