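import Pool.Graph.R_pool_sql_team_seeded_1acbe0a2.Y672.DM.Stm

/-!
# Project MF (helper505): dihedral Maass forms of real quadratic fields of odd discriminant

Goal: for every real quadratic field `K` of odd discriminant `D` the Hecke characters constructed in
`Pool.Agent.H505` give honest Hecke-Maass cusp forms of weight `0`, trivial character and level `D²`.

Everything in this file is formulated for an integral binary quadratic form `q = A x² + B x y + C y²`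
of discriminant `D > 0` together with a factorisation `q = l1 * l2` into real linear forms
(`q(x, y) = N(x α + y β) / N 𝔟` for a `ℤ`-basis `(α, β)` of an ideal `𝔟`).  The Gaussian is
`gs w v p = e(Re w q(p)) exp(-π Im w (l1(p)² e^v + l2(p)² e^(-v)))`, `e(x) = exp(2 π i x)`.
The statements were checked numerically.
-/

set_option autoImplicit false
set_option linter.unusedVariables false

open Complex MeasureTheory Filter Topology
open scoped ContDiff Laplacian MatrixGroups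

namespace Pool.Agent.H505.MF

open Pool.Agent.Y672.DM (KB heckeOp)

/-- an integral binary quadratic form of discriminant `D` with a factorisation over the reals -/
structure Fm (D : ℕ) where
  A : ℤ
  B : ℤ
  C : ℤ
  a1 : ℝ
  b1 : ℝ
  a2 : ℝ
  b2 : ℝ
  hA : a1 * a2 = A
  hB : a1 * b2 + a2 * b1 = B
  hC : b1 * b2 = C
  disc : B ^ 2 - 4 * A * C = D

namespace Fm

variable {D : ℕ} (F : Fm D)

/-- the quadratic form -/
def q (p : ℤ × ℤ) : ℤ := F.A * p.1 ^ 2 + F.B * p.1 * p.2 + F.C * p.2 ^ 2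

/-- the quadratic form on real vectors -/
noncomputable def qR (x y : ℝ) : ℝ := F.A * x ^ 2 + F.B * x * y + F.C * y ^ 2

/-- the majorants -/
noncomputable def maj (v x y : ℝ) : ℝ :=
  (F.a1 * x + F.b1 * y) ^ 2 * Real.exp v + (F.a2 * x + F.b2 * y) ^ 2 * Real.exp (-v)

/-- the Gaussian on real vectors -/
noncomputable def gsR (w : ℂ) (v x y : ℝ) : ℂ :=
  cexp (2 * Real.pi * I * w.re * (F.qR x y : ℝ) - Real.pi * w.im * (F.maj v x y : ℝ))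

/-- the Gaussian -/
noncomputable def gs (w : ℂ) (v : ℝ) (p : ℤ × ℤ) : ℂ := F.gsR w v p.1 p.2

/-- the theta series with weight function `Φ` -/
noncomputable def th (Φ : ℤ × ℤ → ℂ) (w : ℂ) (v : ℝ) : ℂ := ∑' p : ℤ × ℤ, Φ p * F.gs w v p

/-- multiplication by `± √D`: `M² = D`, `q(M p) = -D q(p)` -/
def M (p : ℤ × ℤ) : ℤ × ℤ := (F.B * p.1 + 2 * F.C * p.2, -(2 * F.A * p.1 + F.B * p.2))

/-- the integral of the theta series against the character `exp(-i t v)` -/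
noncomputable def H (t P : ℝ) (Φ : ℤ × ℤ → ℂ) (z : ℂ) : ℂ :=
  ∫ v in (0 : ℝ)..P, (√z.im : ℝ) * F.th Φ z v * cexp (-(I * t * v))

end Fm

/-- `Φ` is periodic modulo `N` -/
def Per (N : ℕ) (Φ : ℤ × ℤ → ℂ) : Prop :=
  ∀ p h : ℤ × ℤ, Φ (p.1 + N * h.1, p.2 + N * h.2) = Φ p

/-- the finite Fourier transform `∑_{h mod N} Φ(h) e((h₂ u₁ - h₁ u₂) / N)` -/
noncomputable def hat (N : ℕ) (Φ : ℤ × ℤ → ℂ) (u : ℤ × ℤ) : ℂ :=
  ∑ h ∈ Finset.range N ×ˢ Finset.range N, Φ ((h.1 : ℤ), (h.2 : ℤ)) *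
    cexp (2 * Real.pi * I * (((h.2 : ℤ) * u.1 - (h.1 : ℤ) * u.2 : ℤ) : ℂ) / N)

/-! ## Leaf POI -/

/-- LOW: the majorants are positive definite, uniformly for bounded `v`.
Proof: the linear map `(x, y) ↦ (a1 x + b1 y, a2 x + b2 y)` has determinant `a1 b2 - a2 b1` with square
`B² - 4 A C = D > 0`; invert it. `exp v, exp (-v) ≥ exp (-V)`. -/
def S_LOW : Prop := ∀ (D : ℕ), 0 < D → ∀ (F : Fm D) (V : ℝ), ∃ κ : ℝ, 0 < κ ∧
  ∀ v : ℝ, |v| ≤ V → ∀ x y : ℝ, κ * (x ^ 2 + y ^ 2) ≤ F.maj v x y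

/-- SUM: summability, with a uniform majorant (from LOW, `HurwitzZeta.hasSum_int_evenKernel` or
`Pool.Agent.Y672.DM.summable_gauss`, `PD.summable` in `Y672/DM/Pois2.lean`). -/
def S_SUM : Prop := ∀ (D : ℕ), 0 < D → ∀ (F : Fm D) (V δ : ℝ), 0 < δ → ∃ g : ℤ × ℤ → ℝ,
  Summable g ∧ ∀ (w : ℂ) (v : ℝ), δ ≤ w.im → |v| ≤ V → ∀ p : ℤ × ℤ, ‖F.gs w v p‖ ≤ g p

/-- POI: Poisson summation.
Proof: `gsR w v x y = exp(-π (cA x² + 2 cB x y + cC y²))` with `R = Im w`, `X = Re w`,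
`cA = R (a1² e^v + a2² e^-v) - 2 i X A`, `cB = R (a1 b1 e^v + a2 b2 e^-v) - i X B`,
`cC = R (b1² e^v + b2² e^-v) - 2 i X C`; `cA cC - cB² = D |w|²` (use `(a1 b2 - a2 b1)² = D` and
`a1² b1 b2 + b1² a1 a2 = a1 b1 (a1 b2 + a2 b1)`).  Now apply `pois2` of
`Pool.Graph.R_pool_sql_team_seeded_1acbe0a2.Y672.DM.Pois2` and copy the proof of `class_sum`
(file `Y672/DM/ThetaS.lean`, with `cpow_half_mul`) which is the case `D = 5`; the dual quadratic form at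
`k` is `(cA k₂² - 2 cB k₁ k₂ + cC k₁²) / (D |w|²)`. -/
def S_POI : Prop := ∀ (D : ℕ), 0 < D → ∀ (F : Fm D) (w : ℂ) (v s r : ℝ), 0 < w.im →
  ∑' p : ℤ × ℤ, F.gsR w v (p.1 + s) (p.2 + r) =
    (1 / (√D * ‖w‖ : ℝ) : ℂ) * ∑' k : ℤ × ℤ, cexp (2 * Real.pi * I * (k.1 * s + k.2 * r)) *
      F.gs (1 / (D * (starRingEnd ℂ) w)) v (k.2, -k.1)

/-! ## Leaf PER -/

/-- PER: Poisson summation with a periodic weight function.
Proof: split `p = h + N m`, `gs w v (h + N m) = gsR (N² w) v (m + h / N)`, apply POI with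
`(s, r) = h / N` and `w' = N² w`, and reindex `u = (k₂, -k₁)`. The splitting
`ℤ × ℤ ≃ (range N ×ˢ range N) × (ℤ × ℤ)` is division with remainder. -/
def S_PER : Prop := ∀ (D : ℕ), 0 < D → ∀ (F : Fm D) (N : ℕ), 0 < N → ∀ (Φ : ℤ × ℤ → ℂ), Per N Φ →
  ∀ (w : ℂ) (v : ℝ), 0 < w.im →
    F.th Φ w v = (1 / ((N : ℝ) ^ 2 * √D * ‖w‖ : ℝ) : ℂ) *
      F.th (hat N Φ) (1 / ((N : ℂ) ^ 2 * D * (starRingEnd ℂ) w)) v

/-! ## Leaf FID -/

/-- what is used of the weight function `P`: it is a quadratic character of the class modulo `√D` -/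
structure Wt (D : ℕ) (F : Fm D) (P : ℤ × ℤ → ℂ) : Prop where
  per : ∀ p m : ℤ × ℤ, P (p + F.M m) = P p
  mul : ∀ (n : ℕ) (p : ℤ × ℤ), n.Coprime D →
    P (n * p.1, n * p.2) = ((jacobiSym (n : ℤ) D : ℤ) : ℂ) * P p

/-- GAU: the binary Gauss sum modulo an odd prime `ℓ ∤ A D`, `β γ ≡ 1`, `D δ ≡ 1 mod ℓ`.
Proof: (1) `∑_{h mod ℓ} e(β q(h) / ℓ) = (D / ℓ) ℓ`: `4 A q = (2 A x + B y)² - D y²`, substitute
`X = 2 A x + B y` (bijective in `x`); the sum is `G(β (4A)⁻¹) G(-D β (4A)⁻¹)` with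
`G(a) = ∑_x e(a x² / ℓ) = (a / ℓ) G(1)`, `G(1)² = (-1 / ℓ) ℓ` (Mathlib: `gaussSum_sq`,
`quadraticChar`; or `Pool.Agent.H505` file Gau.lean, theorem `HZ_eval`).
(2) complete the square: with `m = δ M u` one has `h₂ u₁ - h₁ u₂ ≡ ± B(h, m)` (`B` the polar form) and
`q(m) ≡ - δ q(u)`, so `β q(h) + (h₂ u₁ - h₁ u₂) ≡ β q(h ± γ m) - γ q(m) mod ℓ`. -/
def S_GAU : Prop := ∀ (D : ℕ) (F : Fm D) (ℓ : ℕ), ℓ.Prime → ℓ ≠ 2 → ¬ (ℓ : ℤ) ∣ F.A → ¬ ℓ ∣ D →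
  ∀ (β γ δ : ℤ), (ℓ : ℤ) ∣ β * γ - 1 → (ℓ : ℤ) ∣ D * δ - 1 → ∀ u : ℤ × ℤ,
    hat ℓ (fun h => cexp (2 * Real.pi * I * ((β * F.q h : ℤ) : ℂ) / ℓ)) u =
      ((jacobiSym (D : ℤ) ℓ : ℤ) : ℂ) * ℓ * cexp (2 * Real.pi * I * ((γ * δ * F.q u : ℤ) : ℂ) / ℓ)

/-- SUP: the support of the Fourier transform of `P`, and `P` has period `D`.
Proof: `M (M p) = D p`, so `P` is `D`-periodic.  If `hat D P u ≠ 0`, the substitution
`h ↦ h + M m` shows `e((h₂ u₁ - h₁ u₂) / D) = 1` for all `h = M m`, `m ∈ ℤ²`; with `m = (1, 0), (0, 1)`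
one gets `D ∣ 2 A u₁ + B u₂` and `D ∣ B u₁ + 2 C u₂`, hence `D ∣ 2 q(u)`, and `D` is odd. -/
def S_SUP : Prop := ∀ (D : ℕ), Odd D → ∀ (F : Fm D) (P : ℤ × ℤ → ℂ), Wt D F P →
  Per D P ∧ ∀ u : ℤ × ℤ, hat D P u ≠ 0 → (D : ℤ) ∣ F.q u

/-- FID: the finite identity behind the automorphy: `ℓ` an odd prime, `ℓ ∤ A D`, `D ≡ 1 mod 4`,
`β = b D²`, `β γ ≡ 1`, `D δ ≡ 1 mod ℓ`.
Proof: `h = ℓ h₁ + D h₂` with `h₁` modulo `D`, `h₂` modulo `ℓ` (Chinese remainder); modulo `ℤ`,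
`b q(h) / ℓ ≡ b D² q(h₂) / ℓ`, `(h₂ u₁ - h₁ u₂) / (ℓ D)` splits, and
`P (ℓ h₁ + D h₂) = P (ℓ h₁) = (ℓ / D) P(h₁)`.  So the left side is
`(ℓ / D) hat D P u * hat ℓ (e(β q / ℓ)) u`; use GAU and quadratic reciprocity
`(ℓ / D) (D / ℓ) = 1` for `D ≡ 1 mod 4` (`jacobiSym.quadratic_reciprocity_one_mod_four`). -/
def S_FID : Prop := ∀ (D : ℕ), D % 4 = 1 → ∀ (F : Fm D) (P : ℤ × ℤ → ℂ), Wt D F P →
  ∀ (ℓ : ℕ), ℓ.Prime → ℓ ≠ 2 → ¬ (ℓ : ℤ) ∣ F.A → ¬ ℓ ∣ D →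
  ∀ (b γ δ : ℤ), (ℓ : ℤ) ∣ (b * D ^ 2) * γ - 1 → (ℓ : ℤ) ∣ D * δ - 1 → ∀ u : ℤ × ℤ,
    hat (ℓ * D) (fun h => P h * cexp (2 * Real.pi * I * ((b * F.q h : ℤ) : ℂ) / ℓ)) u =
      ℓ * hat D P u * cexp (2 * Real.pi * I * ((γ * δ * F.q u : ℤ) : ℂ) / ℓ)

/-! ## Leaf AUT -/

/-- AUT: automorphy of the theta series.
Proof: let `γ = (a b; c d) ∈ Γ₀(D²)`.  If `c = 0`, `γ z = z + k` and `q` is integral.  Otherwise
replace `γ` by `γ T^l` (`d` becomes `d + l c`, and `th P (z + l) = th P z`) with `d + l c = ℓ` a prime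
larger than `2`, `|A|` and `D` (Dirichlet's theorem: `Nat.forall_exists_prime_gt_and_modEq` or
similar; note `A ≠ 0` because `D` is not a square... if `A = 0` use `gcd`; here `A ≠ 0` is assumed).  So
let `d = ℓ` be such a prime.  `γ z = b / ℓ + w₁`, `w₁ = z / (ℓ (c z + ℓ))`, so
`th P (γ z) v = th Φ w₁ v` with `Φ h = P h e(b q(h) / ℓ)`, which is periodic modulo `ℓ D`.  By PER with
`N = ℓ D`, and `1 / (N² D w₁^-) = c / (ℓ D³) + 1 / (D³ z^-)` (`-` complex conjugation),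
`th Φ w₁ v = 1 / (ℓ² D² √D |w₁|) * ∑_u hat(ℓ D) Φ u * e(c q(u) / (ℓ D³)) * gs (1 / (D³ z^-)) v u`.
Write `c = D² c'`; `ℓ ∣ D² b c' + 1` (from `a ℓ - b c = 1`), so FID applies with `γ = -c'` and gives
`hat(ℓ D) Φ u = ℓ hat D P u e(-c' δ q(u) / ℓ)`; for `hat D P u ≠ 0` one has `q(u) = D k` by SUP and
`e(c q(u) / (ℓ D³)) = e(c' k / ℓ)`, `e(-c' δ q(u) / ℓ) = e(-c' δ D k / ℓ) = e(-c' k / ℓ)`: they cancel.
So `th P (γ z) v = 1 / (ℓ D² √D |w₁|) th (hat D P) (1 / (D³ z^-)) v`, and PER with `N = D` at `z` gives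
`th P z v = 1 / (D² √D |z|) th (hat D P) (1 / (D³ z^-)) v`.  Finally `|w₁| = |z| / (ℓ |c z + ℓ|)` and
`√ Im (γ z) = √ Im z / |c z + ℓ|`. -/
def S_AUT : Prop := ∀ (D : ℕ), D % 4 = 1 → ∀ (F : Fm D), F.A ≠ 0 → ∀ (P : ℤ × ℤ → ℂ), Wt D F P →
  ∀ γ ∈ CongruenceSubgroup.Gamma0 (D ^ 2), ∀ (z : UpperHalfPlane) (v : ℝ),
    (√(γ • z : UpperHalfPlane).im : ℝ) * F.th P ((γ • z : UpperHalfPlane) : ℂ) v =
      (√z.im : ℝ) * F.th P (z : ℂ) v

/-! ## Leaf SL2 -/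

/-- the reflection `z ↦ - z^-` if `s = true` -/
noncomputable def rf (s : Bool) (z : ℂ) : ℂ := if s then -(starRingEnd ℂ) z else z

/-- SL2: the transforms of the theta series under `SL₂(ℤ)` are theta series with other periodic weight
functions, scaled arguments and possibly reflected arguments.
Proof: the class of functions `h z v = √ Im z * th Φ (r * rf s z) v` (`r ∈ ℚ`, `r > 0`, `Φ` periodic
modulo some `N > 0`) is stable under `z ↦ z ± 1` (`q` is integral, `r = m / n`: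
`e(± r q(p))` is a periodic function of `p` modulo `n`; replace `N` by `N n`) and under `z ↦ -1 / z` (PER:
`1 / (N² D w^-)` for `w = r * rf s (-1 / z)` is `1 / (N² D r) * rf (!s) z`, `‖w‖ = r / ‖z‖`,
`√ Im (-1 / z) = √ Im z / ‖z‖`; `hat N Φ` is `N`-periodic).  `SL₂(ℤ)` is generated by `S, T`
(`SpecialLinearGroup.SL2Z_generators`, and see the proof of `Th_smul` in
`Pool.Graph.R_pool_sql_team_seeded_1acbe0a2.Y672.DM.SL2` for the induction; `S⁻¹ = -S`). -/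
def S_SL2 : Prop := ∀ (D : ℕ), 0 < D → ∀ (F : Fm D) (N : ℕ), 0 < N → ∀ (Φ : ℤ × ℤ → ℂ), Per N Φ →
  ∀ σ : SL(2, ℤ), ∃ (r : ℚ) (N' : ℕ) (Φ' : ℤ × ℤ → ℂ) (s : Bool), 0 < r ∧ 0 < N' ∧ Per N' Φ' ∧
    ∀ (z : UpperHalfPlane) (v : ℝ),
      (√(σ • z : UpperHalfPlane).im : ℝ) * F.th Φ ((σ • z : UpperHalfPlane) : ℂ) v =
        (√z.im : ℝ) * F.th Φ' ((r : ℂ) * rf s (z : ℂ)) v

/-! ## Leaf DEC -/

/-- DEC: decay of the integrals.  Here `D` is not a square, so `q(p) ≠ 0` for `p ≠ 0`, and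
`exp(i t P) = 1`, `t ≠ 0`, so the constant term `Φ 0 √y ∫_0^P exp(-i t v) dv` vanishes.
Proof: `maj v p ≥ 2 |q(p)| ≥ 2` for `p ≠ 0` (arithmetic-geometric mean) and `maj v p ≥ κ |p|²` for
`|v| ≤ P`; so `|gs z v p| ≤ exp(-π y) exp(-π (δ κ / 2) |p|²)` for `y = Im z ≥ δ`, up to constants; see
`Pool.Graph.R_pool_sql_team_seeded_1acbe0a2.Y672.DM.Decay` (case `D = 5`).  `Φ` is bounded because it is
periodic. -/
def S_DEC : Prop := ∀ (D : ℕ), 0 < D → ¬ IsSquare D → ∀ (F : Fm D) (N : ℕ), 0 < N →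
  ∀ (Φ : ℤ × ℤ → ℂ), Per N Φ → ∀ (t P : ℝ), t ≠ 0 → 0 < P → cexp (I * t * P) = 1 →
  ∀ δ : ℝ, 0 < δ → ∃ C c : ℝ, 0 < c ∧ ∀ z : ℂ, δ ≤ z.im → ‖F.H t P Φ z‖ ≤ C * Real.exp (-c * z.im)

/-- CST: the constant terms vanish, and the integrals are continuous in `x`.
Proof: integrate the absolutely convergent series termwise:
`H(x + i y) = ∑_p Φ p e(x q(p)) √y ∫_0^P exp(-π y maj v p) exp(-i t v) dv`, the term `p = 0` vanishes and for
`p ≠ 0` the integer `q(p)` is not zero, so `∫_{x₀}^{x₀ + k} e(x q(p)) dx = 0`; see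
`Y672/DM/ConstK.lean` and `Y96/DMF/Main.lean` of the same library run (case `D = 5`). -/
def S_CST : Prop := ∀ (D : ℕ), 0 < D → ¬ IsSquare D → ∀ (F : Fm D) (N : ℕ), 0 < N →
  ∀ (Φ : ℤ × ℤ → ℂ), Per N Φ → ∀ (t P : ℝ), t ≠ 0 → 0 < P → cexp (I * t * P) = 1 →
  ∀ y : ℝ, 0 < y → Continuous (fun x : ℝ => F.H t P Φ (x + y * I)) ∧
    ∀ (x₀ : ℝ) (k : ℕ), ∫ x in x₀..(x₀ + k), F.H t P Φ (x + y * I) = 0

/-! ## Leaf CUS -/

/-- CUS: from SL2, DEC, CST to the cusps.  `u` is a function on the upper half-plane which is a finite sum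
of functions `H t P (P_c) (rf s z)`; then it decays at all cusps and if it is invariant under `Γ₀(N)` its
constant terms at all cusps are zero.
Proof: `F.H t P Φ (σ z) = ∫ √ Im z th Φ' (r rf s z) v exp(-i t v) dv = (1/√r) F.H t P Φ' (r rf s z)`, apply DEC
with `δ = r`.  For the reflected summands use `rf true (σ • z) = σ' • (rf true z)` with
`σ' = (a, -b; -c, d)`.  For the constant term: `g(x) = u(σ (x + i y))` is continuous and has period `N`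
(`σ T^N σ⁻¹ ∈ Γ(N) ⊆ Γ₀(N)`); choose `k > 0` such that `r k N` is an integer for each of the finitely many
summands; then `∫_0^{k N} g = 0` by CST (substitution `x ↦ r x` or `x ↦ - r x`), and
`∫_0^{k N} g = k ∫_0^N g` (`Function.Periodic.intervalIntegral_add_eq`, or see
`Pool.Graph.R_pool_sql_team_seeded_1acbe0a2.Y672.DM.Asm`). -/
def S_CUS : Prop := ∀ (D : ℕ), 0 < D → ¬ IsSquare D → ∀ (n : ℕ) (F : Fin n → Fm D)
  (N : Fin n → ℕ), (∀ i, 0 < N i) → ∀ (Φ : Fin n → ℤ × ℤ → ℂ), (∀ i, Per (N i) (Φ i)) →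
  ∀ (cf : Fin n → ℂ) (s : Fin n → Bool) (t P : ℝ), t ≠ 0 → 0 < P → cexp (I * t * P) = 1 →
  ∀ u : ℂ → ℂ, (∀ z : ℂ, 0 < z.im → u z = ∑ i, cf i * (F i).H t P (Φ i) (rf (s i) z)) →
  (∀ σ : SL(2, ℤ), ∃ C c : ℝ, 0 < c ∧ ∀ z : UpperHalfPlane, 1 ≤ z.im →
    ‖u ((σ • z : UpperHalfPlane) : ℂ)‖ ≤ C * Real.exp (-c * z.im)) ∧
  ∀ L : ℕ, 0 < L → (∀ γ ∈ CongruenceSubgroup.Gamma0 L, ∀ z : UpperHalfPlane,
    u ((γ • z : UpperHalfPlane) : ℂ) = u z) →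
    ∀ (σ : SL(2, ℤ)) (z : UpperHalfPlane),
      ∫ x in (0 : ℝ)..L, u ((σ • (x +ᵥ z) : UpperHalfPlane) : ℂ) = 0

/-! ## Leaf BES: Maass forms of either parity from their coefficients -/

/-- `cos` for even `e`, `sin` for odd `e` -/
noncomputable def cs (e : ℕ) (x : ℝ) : ℝ := if Even e then Real.cos x else Real.sin x

/-- `∑ a(n) √y 2 K_{it}(2 π n y) cs(2 π n x)` -/
noncomputable def UU (t : ℝ) (e : ℕ) (a : ℕ → ℂ) (z : ℂ) : ℂ :=
  ∑' n : ℕ, a n * ((√z.im * KB t (2 * Real.pi * n * z.im) * cs e (2 * Real.pi * n * z.re) : ℝ) : ℂ)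

/-- LAP: smoothness, the Laplace equation and convergence.
Proof: this is the library for `e = 0` (`Pool.Graph.R_pool_sql_team_seeded_1acbe0a2.Y807.DMA2`, theorems
`U_contDiffOn'`, `U_laplace`, `second`, with the functions `W t c k φ` which have a phase `φ`); for odd `e` use
`sin x = cos (x - π / 2)` and repeat `U_eq`, `second`, `U_laplace` with the phase `φ = -π / 2`. -/
def S_LAP : Prop := ∀ (t : ℝ) (e : ℕ) (a : ℕ → ℂ) (C : ℝ), a 0 = 0 → (∀ n, ‖a n‖ ≤ C * n ^ 2) →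
  ContDiffOn ℝ ∞ (UU t e a) {z : ℂ | 0 < z.im} ∧
  (∀ z : ℂ, 0 < z.im →
    -(z.im : ℂ) ^ 2 * (Δ (UU t e a)) z = (1 / 4 + (t : ℂ) ^ 2) * UU t e a z) ∧
  ∀ z : ℂ, 0 < z.im → HasSum (fun n : ℕ => a n *
    ((√z.im * KB t (2 * Real.pi * n * z.im) * cs e (2 * Real.pi * n * z.re) : ℝ) : ℂ)) (UU t e a z)

/-- HOP: the Hecke operators.
Proof: `Pool.Graph.R_pool_sql_team_seeded_1acbe0a2.Y672.DM.HeckeOp`, theorem `heckeOp_U`, is the case
`e = 0`; the case of the sine is the same (`sum_cos` becomes the imaginary part instead of the real part). -/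
def S_HOP : Prop := ∀ (t : ℝ) (e : ℕ) (a : ℕ → ℂ) (C : ℝ), a 0 = 0 → (∀ n, ‖a n‖ ≤ C * n ^ 2) →
  ∀ p : ℕ, p.Prime →
  (∀ n, 0 < n → a p * a n = a (p * n) + if p ∣ n then a (n / p) else 0) →
  ∀ z : ℂ, 0 < z.im → heckeOp p (UU t e a) z = a p * UU t e a z

/-! ## Leaf KBI: the integral over the line -/

/-- KBI: the basic integral. For `l1, l2` real, not zero, `n = |l1 l2|`,
`∫ exp(-π y (l1² e^v + l2² e^-v)) exp(-i t v) dv = |l1 / l2|^{i t} KB t (2 π n y)`.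
Proof: `v = v' - log |l1 / l2|`; `l1² e^v + l2² e^-v = 2 n cosh v'`; the sine part is odd. -/
def S_KBI : Prop := ∀ (t y l1 l2 : ℝ), 0 < y → l1 ≠ 0 → l2 ≠ 0 →
  Integrable (fun v : ℝ => ((Real.exp (-(Real.pi * y * (l1 ^ 2 * Real.exp v +
    l2 ^ 2 * Real.exp (-v)))) : ℝ) : ℂ) * cexp (-(I * t * v))) ∧
  ∫ v : ℝ, ((Real.exp (-(Real.pi * y * (l1 ^ 2 * Real.exp v +
    l2 ^ 2 * Real.exp (-v)))) : ℝ) : ℂ) * cexp (-(I * t * v)) =
    cexp (I * t * (Real.log |l1 / l2| : ℝ)) * (KB t (2 * Real.pi * |l1 * l2| * y) : ℝ)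

/-- TIL: the line is tiled by the translates of `(0, P]`: for an integrable function `f` the sum over `k ∈ ℤ`
of `∫_0^P f(v + k P) dv` is the integral over the line (`P ≠ 0` of either sign up to the sign). -/
def S_TIL : Prop := ∀ (f : ℝ → ℂ), Integrable f → ∀ P : ℝ, 0 < P →
  HasSum (fun k : ℤ => ∫ v in (0 : ℝ)..P, f (v + k * P)) (∫ v : ℝ, f v)

end Pool.Agent.H505.MF
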