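import Pool.Agent.H505.MF.Stm
import Pool.Agent.H505.Fin

/-!
# Project MF (helper505): the number field leaves
-/

set_option autoImplicit false
set_option linter.unusedVariables false

open NumberField

namespace Pool.Agent.H505.MF

open Pool.Agent.Y773.G (rl)

/-- `p.1 α + p.2 β` -/
def el {K : Type} [Field K] [NumberField K] (α β : 𝓞 K) (p : ℤ × ℤ) : 𝓞 K :=
  (p.1 : 𝓞 K) * α + (p.2 : 𝓞 K) * β

/-- BAS: the norm form of an ideal.  `B : QB K` (file Pool/Agent/H505/Qd.lean) is the data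
`𝓞 K = ℤ + ℤ ω`, `ω² = T ω - N`, `D = T² - 4 N`, `B.rt = 2 ω - T = √D`; `B.cj` is the conjugation,
`B.norm_int`, `B.coord_mul`, `B.uniq`, `B.bas` (a `ℤ`-basis) are available.  `rl w : K → ℝ` is the real
embedding of the place `w` (file `Pool/Graph/R_seed8/Y773/HG/Defs.lean`).
Proof: let `α, β` be a `ℤ`-basis of `𝔟` (`Ideal.selfBasis B.bas 𝔟 h`), `n = N 𝔟`; by
`Ideal.natAbs_det_basis_change` the determinant of `α, β` in the basis `1, ω` is `± n`.  So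
`β α' - α β' = ∓ n √D` (`'` the conjugation).  Put `A = N α / n`, `C = N β / n`, `B = (α β' + α' β) / n`; these
are integers because `n ∣ N x` for `x ∈ 𝔟` (apply it to `α`, `β`, `α + β`).  Then
`B² - 4 A C = (α β' - α' β)² / n² = D`.  `a1 = σ₁(α) / √n`, `b1 = σ₁(β) / √n`, `a2 = σ₂(α) / √n`,
`b2 = σ₂(β) / √n` where `σᵢ = rl wᵢ`; `σ₁(x) σ₂(x) = N x` by `norm_prod_rl` (file Rea.lean), or
`σ₂(x) = σ₁(x')`.  Finally `n (B α - 2 A β) = α (α β' - α' β)` and `n (2 C α - B β) = β (α β' - α' β)`.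
`F.A ≠ 0` because `D` is not a square. -/
def S_BAS : Prop := ∀ (K : Type) [Field K] [NumberField K] (B : QB K),
  (∀ w : InfinitePlace K, w.IsReal) → ∀ (w₁ w₂ : InfinitePlace K), w₁ ≠ w₂ →
  (∀ w : InfinitePlace K, w = w₁ ∨ w = w₂) →
  ∀ (M : ℕ), (M : ℤ) = B.D → ¬ IsSquare M → ∀ 𝔟 : Ideal (𝓞 K), 𝔟 ≠ ⊥ →
  ∃ (F : Fm M) (α β : 𝓞 K), F.A ≠ 0 ∧ (∀ p, el α β p ∈ 𝔟) ∧ (∀ x ∈ 𝔟, ∃! p, el α β p = x) ∧
    (∀ p, (Ideal.absNorm 𝔟 : ℤ) * F.q p = Algebra.norm ℤ (el α β p)) ∧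
    (∀ p : ℤ × ℤ, √(Ideal.absNorm 𝔟 : ℝ) * (F.a1 * p.1 + F.b1 * p.2) = rl w₁ (el α β p : K)) ∧
    (∀ p : ℤ × ℤ, √(Ideal.absNorm 𝔟 : ℝ) * (F.a2 * p.1 + F.b2 * p.2) = rl w₂ (el α β p : K)) ∧
    ∃ s : ℤ, (s = 1 ∨ s = -1) ∧ ∀ p, el α β (F.M p) = (s : 𝓞 K) * (B.rt * el α β p)

/-- the coefficients `∑_{N 𝔞 = n} ψ(𝔞)` -/
noncomputable def cfa {K : Type} [Field K] [NumberField K] (ψ : Ideal (𝓞 K) →*₀ ℂ) (n : ℕ) : ℂ :=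
  ∑ᶠ 𝔞 : {𝔞 : Ideal (𝓞 K) // Ideal.absNorm 𝔞 = n}, ψ 𝔞

/-- COE: the arithmetic of the coefficients.  `Base B e0 ν ψ` is defined in Pool/Agent/H505/Tw2.lean; it
gives `ψ 𝔞 ≠ 0 ↔ (N 𝔞, M) = 1` (`Base.cop`), `‖ψ 𝔞‖ = 1` then (`h.mod.norm_eq_one`), `ψ((p)) = spl p = ± 1` for
primes `p ∤ M` (`Base.cen`; `spl` is `1` iff `x² - T x + N` has a root modulo `p`, see `spl_of_root`,
`spl_sq`), `ψ(𝔞') = conj ψ(𝔞)` (`Base.conj`).  The finitely many ideals of norm `n`: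
`Ideal.finite_setOf_absNorm_eq`.
Proof of the bound: `∑ N 𝔞 ^ (-2)` converges (`Pool.Agent.Y773.G.summable_ideals`), so there are at most
`C n²` ideals of norm `n`.
Proof of the Hecke relation: if `p` is inert (`spl = -1`), `(p)` is a prime ideal of norm `p²`, there is no
ideal of norm `p`, and every ideal of norm divisible by `p` is divisible by `(p)`, so
`a(p n) = ψ((p)) a(n / p) = -a(n / p)` (`0` if `p ∤ n`).  If `p` splits (`spl = 1`), `(p) = 𝔭 𝔭'`,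
`𝔭 ≠ 𝔭'` (as `p ∤ D`), `𝔭` of norm `p` (`QB.exists_root` and its converse `𝔭 = (p, ω - r)`;
`QB.mul_cjI_prime`); the ideals of norm `p n` are divisible by `𝔭` or `𝔭'`, and by inclusion and exclusion
`a(p n) = ψ(𝔭) a(n) + ψ(𝔭') a(n) - ψ((p)) a(n / p)` (last term only if `p ∣ n`); `a(p) = ψ(𝔭) + ψ(𝔭')`.
Last part: `Equiv.sigmaFiberEquiv Ideal.absNorm` and `HasSum.sigma`. -/
def S_COE : Prop := ∀ (K : Type) [Field K] [NumberField K] (B : QB K) (M : ℕ), (M : ℤ) = B.D →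
  ∀ (e0 : ℕ) (ν : InfinitePlace K → ℝ) (ψ : Ideal (𝓞 K) →*₀ ℂ), Base B e0 ν ψ →
  cfa ψ 0 = 0 ∧ cfa ψ 1 = 1 ∧ (∃ C : ℝ, ∀ n : ℕ, ‖cfa ψ n‖ ≤ C * n ^ 2) ∧
  (∀ n : ℕ, ¬ n.Coprime M → cfa ψ n = 0) ∧ (∀ n : ℕ, (starRingEnd ℂ) (cfa ψ n) = cfa ψ n) ∧
  (∀ p : ℕ, p.Prime → ¬ p ∣ M → ∀ n : ℕ, 0 < n →
    cfa ψ p * cfa ψ n = cfa ψ (p * n) + if p ∣ n then cfa ψ (n / p) else 0) ∧
  ∀ f : ℕ → ℂ, Summable (fun 𝔞 : Ideal (𝓞 K) => ψ 𝔞 * f (Ideal.absNorm 𝔞)) →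
    HasSum (fun n : ℕ => cfa ψ n * f n) (∑' 𝔞 : Ideal (𝓞 K), ψ 𝔞 * f (Ideal.absNorm 𝔞))

end Pool.Agent.H505.MF
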