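import Pool.Agent.H505.MF.Asm

/-!
# Project MF: the twisted L-functions of the Maass forms
-/

set_option autoImplicit false
set_option linter.unusedSectionVars false
set_option linter.unusedVariables false

open NumberField Complex Finset ZMod Filter Topology
open Pool.Agent.Y773 (TPos tw LI)
open Pool.Agent.Y773.G.GH (kk Pk IsModK PrimK IsHM IsHecke)
open Pool.Agent.Y773.G.GH.H505 (entire_n)

namespace Pool.Agent.H505.MF

section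

variable {K : Type} [Field K] [NumberField K]

/-- `v` is the central value of the L-function of the twist -/
def CN (a : ℕ → ℂ) {q : ℕ} (η : DirichletCharacter ℂ q) (v : ℂ) : Prop :=
  ∃ L : ℂ → ℂ, Differentiable ℂ L ∧
    (∀ s : ℂ, 1 < s.re → HasSum (fun n : ℕ => a n * η (n : ZMod q) * (n : ℂ) ^ (-s)) (L s)) ∧
    L (1 / 2) = v

variable {B : QB K}

theorem cn_unique (h2 : Module.finrank ℚ K = 2) (hr : ∀ w : InfinitePlace K, w.IsReal) {e0 : ℕ}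
    {ν : InfinitePlace K → ℝ} {ψ : Ideal (𝓞 K) →*₀ ℂ} (h : Base B e0 ν ψ)
    {M : ℕ} (hM : (M : ℤ) = B.D) (hM2 : ¬ 2 ∣ M) {q : ℕ} (hq : q ≠ 0)
    {η : DirichletCharacter ℂ q} (hη : η ∈ PQ q) :
    ∃ v₀ : ℂ, (∀ v, CN (cfa ψ) η v ↔ v = v₀) ∧ (Even (c3 (q.gcd M)) → v₀ = 0) := by
  obtain ⟨e1, 𝔣', he1, hmod, hprim, hvan⟩ :=
    base_twist hr h2 h hM (D_sqfree B hM hM2) hM2 hq hη
  obtain ⟨F₁, hF₁, hF₁s⟩ := entire_n (fun _ => he1)
    (fun w hw => absurd (hr w) (InfinitePlace.not_isReal_iff_isComplex.2 hw)) h.sum hprim hmod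
  obtain ⟨-, -, -, -, -, -, hcoe⟩ := COE.main K B M hM e0 ν ψ h
  have hsum : ∀ s : ℂ, 1 < s.re →
      HasSum (fun n : ℕ => cfa ψ n * η (n : ZMod q) * (n : ℂ) ^ (-s)) (F₁ s) := by
    intro s hs
    rw [hF₁s s hs]
    have h3 := Pool.Agent.Y773.G.summable_LI hmod.norm_le_one hs
    have h4 := hcoe (fun n => η (n : ZMod q) * (n : ℂ) ^ (-s)) (h3.congr fun 𝔞 => by
      rw [tw_apply]
      ring)
    have h5 : LI (tw ψ η) s = ∑' 𝔞 : Ideal (𝓞 K), ψ 𝔞 *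
        (η ((Ideal.absNorm 𝔞 : ℕ) : ZMod q) * ((Ideal.absNorm 𝔞 : ℕ) : ℂ) ^ (-s)) := by
      unfold LI
      refine tsum_congr fun 𝔞 => ?_
      rw [tw_apply]
      ring
    rw [h5]
    refine h4.congr_fun fun n => ?_
    ring
  refine ⟨F₁ (1 / 2), fun v => ⟨?_, ?_⟩, ?_⟩
  · rintro ⟨L, g1, g2, rfl⟩
    have : L = F₁ := entire_eq_of_half g1 hF₁ fun s hs => (g2 s hs).unique (hsum s hs)
    rw [this]
  · rintro rfl
    exact ⟨F₁, hF₁, hsum, rfl⟩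
  · intro he
    obtain ⟨F, hF, hFs, hF0⟩ := hvan he
    have : F₁ = F := entire_eq_of_half hF₁ hF fun s hs => by rw [hF₁s s hs, hFs s hs]
    rw [this, hF0]

/-- those with a nonzero central value -/
def NVa (a : ℕ → ℂ) (x : ℝ) : Set (Σ q : ℕ, DirichletCharacter ℂ q) :=
  {η ∈ QX x | ∃ v : ℂ, CN a η.2 v ∧ v ≠ 0}

lemma NVa_sub (h2 : Module.finrank ℚ K = 2) (hr : ∀ w : InfinitePlace K, w.IsReal) {e0 : ℕ}
    {ν : InfinitePlace K → ℝ} {ψ : Ideal (𝓞 K) →*₀ ℂ} (h : Base B e0 ν ψ)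
    {M : ℕ} (hM : (M : ℤ) = B.D) (hM2 : ¬ 2 ∣ M) (x : ℝ) :
    NVa (cfa ψ) x ⊆ CS (fun q => Odd (c3 (q.gcd M)) ∧ q ≠ 1) x := by
  rintro η ⟨h1, v, h3, h4⟩
  rw [QX_eq] at h1
  obtain ⟨g1, g2, g3, g4⟩ := h1
  refine ⟨g1, g2, g3, ?_, g4⟩
  by_contra hodd
  rw [Nat.not_odd_iff_even] at hodd
  obtain ⟨v₀, k1, k2⟩ := cn_unique h2 hr h hM hM2 g1.ne' g3
  rw [k1, k2 hodd] at h3
  exact h4 h3

/-- the bound of the proportion -/
theorem ratio_bound_a (h2 : Module.finrank ℚ K = 2) (hr : ∀ w : InfinitePlace K, w.IsReal) {e0 : ℕ}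
    {ν : InfinitePlace K → ℝ} {ψ : Ideal (𝓞 K) →*₀ ℂ} (h : Base B e0 ν ψ)
    {M : ℕ} (hM : (M : ℤ) = B.D) (hM2 : ¬ 2 ∣ M) {ε : ℝ} (hε : 0 < ε) :
    ∀ᶠ x : ℝ in atTop, ((NVa (cfa ψ) x).ncard : ℝ) / ((QX x).ncard : ℝ) ≤
      (1 - ∏ p ∈ M.primeFactors.filter (fun p => p % 4 = 3), ((p : ℝ) - 1) / (p + 1)) / 2 + ε := by
  have hM0 : M ≠ 0 := by
    rintro rfl
    exact hM2 (dvd_zero _)
  have h3 := ratio_lim hM0 hM2
  filter_upwards [h3.eventually (gt_mem_nhds (lt_add_of_pos_right _ hε))] with x hx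
  refine le_trans ?_ hx.le
  rw [QX_eq]
  apply div_le_div_of_nonneg_right _ (Nat.cast_nonneg _)
  exact_mod_cast Set.ncard_le_ncard (NVa_sub h2 hr h hM hM2 x) (CS_finite _ _)

theorem ratio_not_a (h2 : Module.finrank ℚ K = 2) (hr : ∀ w : InfinitePlace K, w.IsReal) {e0 : ℕ}
    {ν : InfinitePlace K → ℝ} {ψ : Ideal (𝓞 K) →*₀ ℂ} (h : Base B e0 ν ψ)
    {M : ℕ} (hM : (M : ℤ) = B.D) (hM2 : ¬ 2 ∣ M) :
    ¬ Tendsto (fun x : ℝ => ((NVa (cfa ψ) x).ncard : ℝ) / ((QX x).ncard : ℝ)) atTop (𝓝 (1 / 2)) := by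
  intro hlim
  have hp := prod_pos' M
  set Q₀ := ∏ p ∈ M.primeFactors.filter (fun p => p % 4 = 3), ((p : ℝ) - 1) / (p + 1) with hQ
  have h3 := ratio_bound_a h2 hr h hM hM2 (ε := Q₀ / 4) (by linarith)
  rw [← hQ] at h3
  have h4 := le_of_tendsto hlim h3
  linarith

/-- the form is dihedral with respect to `K` -/
lemma cfa_inert {ψ : Ideal (𝓞 K) →*₀ ℂ}
    {M : ℕ} [NeZero M] (hM : (M : ℤ) = B.D) (hM2 : ¬ 2 ∣ M) {p : ℕ} (hp : p.Prime)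
    (hj : jacobiSym (p : ℤ) M = -1) : cfa ψ p = 0 := by
  have hpM : ¬ (p : ℤ) ∣ B.D := by
    intro h0
    rw [← hM] at h0
    have h1 : jacobiSym (p : ℤ) M = 0 := by
      rw [jacobiSym.eq_zero_iff]
      refine ⟨NeZero.ne M, ?_⟩
      intro h3
      rw [Int.gcd_natCast_natCast] at h3
      have h4 : p ∣ p.gcd M := Nat.dvd_gcd dvd_rfl (by exact_mod_cast h0)
      rw [h3] at h4
      exact hp.one_lt.ne' (Nat.dvd_one.1 h4)
    rw [h1] at hj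
    norm_num at hj
  have hno : ∀ P : Ideal (𝓞 K), Ideal.absNorm P ≠ p := by
    intro P hN
    obtain ⟨n, hn, hpn⟩ := B.exists_root hp hN
    have h1 := jac_spl hM hM2 hp hpM
    rw [B.spl_of_root hp hpM hpn, jac_nat, hj] at h1
    norm_num at h1
  unfold cfa
  have : IsEmpty {𝔞 : Ideal (𝓞 K) // Ideal.absNorm 𝔞 = p} := ⟨fun x => hno x.1 x.2⟩
  exact finsum_of_isEmpty _

end

end Pool.Agent.H505.MF
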