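import Pool.Agent.H505.MF.Stm2

/-!
# Project MF: unfolding of the theta integrals
-/

set_option autoImplicit false
set_option linter.unusedSectionVars false
set_option linter.unusedVariables false

open NumberField Complex MeasureTheory Filter Topology
open NumberField.Units NumberField.Units.dirichletUnitTheorem
open Pool.Agent.Y773 (PIdl gen toP xE unE span_gen gen_ne_zero place_unE qt_eq qt_spec Sc Reps
  exists_unique_class qt qt_eq_bot)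
open Pool.Agent.Y773.G (rl sg abs_rl)
open Pool.Agent.Y772.G (rl_ne)
open Pool.Agent.Y767 (ax)
open Pool.Agent.Y773.G.GH (kk Pk IsModK Kap kap_kk Pk_unit_smul Pk_of_notMem Pk_zero)
open Pool.Agent.Y672.DM (KB)

namespace Pool.Agent.H505.MF

section

variable {K : Type} [Field K] [NumberField K]

lemma cs_sgn (e : ℕ) {s : ℤ} (hs : s = 1 ∨ s = -1) (y : ℝ) :
    ((cs e (s * y) : ℝ) : ℂ) = (s : ℂ) ^ e * (cs e y : ℝ) := by
  unfold cs
  rcases hs with rfl | rfl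
  · simp
  · by_cases he : Even e
    · rw [if_pos he, if_pos he]
      push_cast
      rw [he.neg_one_pow, one_mul, neg_one_mul, Complex.cos_neg]
    · rw [if_neg he, if_neg he]
      push_cast
      rw [(Nat.not_even_iff_odd.1 he).neg_one_pow, neg_one_mul, neg_one_mul, Complex.sin_neg]

/-- `2` or `2 i` -/
noncomputable def cst (e : ℕ) : ℂ := if Even e then 2 else 2 * I

lemma cst_ne (e : ℕ) : cst e ≠ 0 := by
  unfold cst
  split_ifs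
  · norm_num
  · simp

lemma exp_cs (e : ℕ) (y : ℝ) :
    cexp (y * I) + (-1) ^ e * cexp (-(y * I)) = cst e * (cs e y : ℝ) := by
  unfold cst cs
  by_cases he : Even e
  · rw [if_pos he, if_pos he, he.neg_one_pow, one_mul]
    push_cast
    rw [Complex.cos]
    have : -(y : ℂ) * I = -((y : ℂ) * I) := by ring
    rw [this]
    ring
  · rw [if_neg he, if_neg he, (Nat.not_even_iff_odd.1 he).neg_one_pow]
    push_cast
    rw [Complex.sin]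
    have : -(y : ℂ) * I = -((y : ℂ) * I) := by ring
    rw [this]
    linear_combination (-(cexp (-((y : ℂ) * I)) - cexp ((y : ℂ) * I))) * I_sq

variable (w₁ w₂ : InfinitePlace K) (e0 : ℕ) (t : ℝ) (ψ : Ideal (𝓞 K) →*₀ ℂ) (κ : K → ℂ)
  (𝔟 : Ideal (𝓞 K)) (z : ℂ)

/-- the Gaussian factor -/
noncomputable def GG (x : 𝓞 K) (v : ℝ) : ℂ :=
  ((Real.exp (-(Real.pi * (z.im / (Ideal.absNorm 𝔟 : ℝ)) * (rl w₁ (x : K) ^ 2 * Real.exp v +
    rl w₂ (x : K) ^ 2 * Real.exp (-v)))) : ℝ) : ℂ) * cexp (-(I * t * v))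

/-- the summand -/
noncomputable def TT (x : 𝓞 K) (v : ℝ) : ℂ :=
  Pk ψ κ 𝔟 x * (cs e0 (2 * Real.pi * z.re * ((Algebra.norm ℤ x : ℝ) / (Ideal.absNorm 𝔟 : ℝ))) : ℝ) *
    GG w₁ w₂ t 𝔟 z x v

variable {w₁ w₂ e0 t ψ κ 𝔟 z}

lemma absNorm_pos {𝔟 : Ideal (𝓞 K)} (h𝔟 : 𝔟 ≠ ⊥) : (0 : ℝ) < (Ideal.absNorm 𝔟 : ℝ) := by
  have : Ideal.absNorm 𝔟 ≠ 0 := by rwa [Ne, Ideal.absNorm_eq_zero_iff]
  exact_mod_cast Nat.pos_of_ne_zero this

lemma norm_unit (u : (𝓞 K)ˣ) : Algebra.norm ℤ (u : 𝓞 K) = 1 ∨ Algebra.norm ℤ (u : 𝓞 K) = -1 :=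
  Int.isUnit_iff.1 (u.isUnit.map (Algebra.norm ℤ))

lemma sgN_unit (u : (𝓞 K)ˣ) : sgN (u : 𝓞 K) = ((Algebra.norm ℤ (u : 𝓞 K) : ℤ) : ℂ) := by
  unfold sgN
  rcases norm_unit u with h | h
  · rw [h]; simp
  · rw [h]; simp

lemma prod_two (hne : w₁ ≠ w₂) (huniv : ∀ w, w = w₁ ∨ w = w₂)
    (f : InfinitePlace K → ℝ) : ∏ w, f w = f w₁ * f w₂ := by
  classical
  have h : (Finset.univ : Finset (InfinitePlace K)) = {w₁, w₂} := by
    ext w
    rw [Finset.mem_insert, Finset.mem_singleton]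
    exact ⟨fun _ => huniv w, fun _ => Finset.mem_univ w⟩
  rw [h, Finset.prod_pair hne]

/-- the character `κ` -/
lemma kk_eq (hr : ∀ w : InfinitePlace K, w.IsReal) (hne : w₁ ≠ w₂) (huniv : ∀ w, w = w₁ ∨ w = w₂)
    {ν : InfinitePlace K → ℝ} (hν : ∑ w, ν w = 0) (e0 : ℕ) (x : 𝓞 K) :
    kk (fun _ => e0) ν (x : K) = sgN x ^ e0 *
      cexp (-(I * ((ν w₁ * (Real.log (w₁ (x : K)) - Real.log (w₂ (x : K))) : ℝ) : ℂ))) := by
  unfold kk
  rw [sg_const hr]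
  congr 1
  unfold ax
  rw [sum_two hne huniv] at hν
  rw [sum_two hne huniv]
  have h2 : ν w₂ = -ν w₁ := by linarith
  simp only [h2]
  congr 1
  push_cast
  ring

/-- the absolute values of the units -/
lemma log_unit (hne : w₁ ≠ w₂) (huniv : ∀ w, w = w₁ ∨ w = w₂) (hr : ∀ w : InfinitePlace K, w.IsReal)
    (u : (𝓞 K)ˣ) : Real.log (w₂ ((u : 𝓞 K) : K)) = -Real.log (w₁ ((u : 𝓞 K) : K)) := by
  have h := sum_mult_mul_log u
  rw [sum_two hne huniv, InfinitePlace.mult, InfinitePlace.mult, if_pos (hr _),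
      if_pos (hr _), Nat.cast_one, one_mul, one_mul] at h
  linarith

lemma pos_unit (u : (𝓞 K)ˣ) (w : InfinitePlace K) : 0 < w ((u : 𝓞 K) : K) := by
  rw [InfinitePlace.pos_iff]
  simp

lemma GG_unit (hne : w₁ ≠ w₂) (huniv : ∀ w, w = w₁ ∨ w = w₂) (hr : ∀ w : InfinitePlace K, w.IsReal)
    (u : (𝓞 K)ˣ) (x : 𝓞 K) (v : ℝ) :
    GG w₁ w₂ t 𝔟 z (u * x) v = GG w₁ w₂ t 𝔟 z x (v + 2 * Real.log (w₁ ((u : 𝓞 K) : K))) *
      cexp (I * t * (2 * Real.log (w₁ ((u : 𝓞 K) : K)) : ℝ)) := by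
  have hmul : ∀ w : InfinitePlace K, rl w (((u : 𝓞 K) * x : 𝓞 K) : K) ^ 2 =
      (w ((u : 𝓞 K) : K)) ^ 2 * rl w (x : K) ^ 2 := by
    intro w
    rw [coe_mul', map_mul, mul_pow, ← sq_abs (rl w ((u : 𝓞 K) : K)), abs_rl]
  have h2 := log_unit hne huniv hr u
  set L := Real.log (w₁ ((u : 𝓞 K) : K)) with hL
  have e1 : (w₁ ((u : 𝓞 K) : K)) = Real.exp L := (Real.exp_log (pos_unit u w₁)).symm
  have e2 : (w₂ ((u : 𝓞 K) : K)) = Real.exp (-L) := by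
    rw [← h2, Real.exp_log (pos_unit u w₂)]
  have f1 : Real.exp L ^ 2 * Real.exp v = Real.exp (v + 2 * L) := by
    rw [← Real.exp_nat_mul, ← Real.exp_add]
    congr 1
    push_cast
    ring
  have f2 : Real.exp (-L) ^ 2 * Real.exp (-v) = Real.exp (-(v + 2 * L)) := by
    rw [← Real.exp_nat_mul, ← Real.exp_add]
    congr 1
    push_cast
    ring
  unfold GG
  rw [hmul, hmul, e1, e2]
  have g1 : Real.exp L ^ 2 * rl w₁ (x : K) ^ 2 * Real.exp v + Real.exp (-L) ^ 2 * rl w₂ (x : K) ^ 2 *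
      Real.exp (-v) = rl w₁ (x : K) ^ 2 * Real.exp (v + 2 * L) +
      rl w₂ (x : K) ^ 2 * Real.exp (-(v + 2 * L)) := by
    rw [← f1, ← f2]; ring
  have g2 : cexp (-(I * t * v)) = cexp (-(I * t * ((v + 2 * L : ℝ) : ℂ))) * cexp (I * t * ((2 * L : ℝ) : ℂ)) := by
    rw [← Complex.exp_add]
    congr 1
    push_cast
    ring
  rw [g1, g2]
  ring

lemma TT_unit (hne : w₁ ≠ w₂) (huniv : ∀ w, w = w₁ ∨ w = w₂) (hr : ∀ w : InfinitePlace K, w.IsReal)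
    {ν : InfinitePlace K → ℝ} (hν : ∑ w, ν w = 0) (h𝔟 : 𝔟 ≠ ⊥) (u : (𝓞 K)ˣ) (x : 𝓞 K) (v : ℝ) :
    TT w₁ w₂ e0 (ν w₁) ψ (kk (fun _ => e0) ν) 𝔟 z (u * x) v =
      TT w₁ w₂ e0 (ν w₁) ψ (kk (fun _ => e0) ν) 𝔟 z x (v + 2 * Real.log (w₁ ((u : 𝓞 K) : K))) := by
  unfold TT
  rw [Pk_unit_smul (kap_kk _ hν) h𝔟, GG_unit hne huniv hr, kk_eq hr hne huniv hν, map_mul]
  have h2 := log_unit hne huniv hr u
  rw [h2]
  set L := Real.log (w₁ ((u : 𝓞 K) : K)) with hL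
  have e1 : (2 * Real.pi * z.re * (((Algebra.norm ℤ (u : 𝓞 K) * Algebra.norm ℤ x : ℤ) : ℝ) /
      (Ideal.absNorm 𝔟 : ℝ))) = ((Algebra.norm ℤ (u : 𝓞 K) : ℤ) : ℝ) *
      (2 * Real.pi * z.re * ((Algebra.norm ℤ x : ℝ) / (Ideal.absNorm 𝔟 : ℝ))) := by
    push_cast
    ring
  rw [e1, cs_sgn _ (norm_unit u), ← sgN_unit]
  have e2 : sgN (u : 𝓞 K) ^ e0 * sgN (u : 𝓞 K) ^ e0 = 1 := by
    rw [← mul_pow, sgN_sq u.ne_zero, one_pow]
  have e3 : cexp (-(I * ((ν w₁ * (L - -L) : ℝ) : ℂ))) * cexp (I * (ν w₁ : ℝ) * (2 * L : ℝ)) = 1 := by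
    rw [← Complex.exp_add, ← Complex.exp_zero]
    congr 1
    push_cast
    ring
  linear_combination (Pk ψ (kk (fun _ => e0) ν) 𝔟 x *
    (cs e0 (2 * Real.pi * z.re * ((Algebra.norm ℤ x : ℝ) / (Ideal.absNorm 𝔟 : ℝ))) : ℝ) *
    GG w₁ w₂ (ν w₁) 𝔟 z x (v + 2 * L) * (cexp (-(I * ((ν w₁ * (L - -L) : ℝ) : ℂ))) *
    cexp (I * (ν w₁ : ℝ) * (2 * L : ℝ)))) * e2 + (Pk ψ (kk (fun _ => e0) ν) 𝔟 x *
    (cs e0 (2 * Real.pi * z.re * ((Algebra.norm ℤ x : ℝ) / (Ideal.absNorm 𝔟 : ℝ))) : ℝ) *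
    GG w₁ w₂ (ν w₁) 𝔟 z x (v + 2 * L)) * e3

/-- the integral over the line -/
lemma TT_int (hKBI : S_KBI) (hr : ∀ w : InfinitePlace K, w.IsReal) (hne : w₁ ≠ w₂)
    (huniv : ∀ w, w = w₁ ∨ w = w₂) {ν : InfinitePlace K → ℝ} (hν : ∑ w, ν w = 0)
    {𝔞 : Ideal (𝓞 K)} (h𝔟 : 𝔟 ≠ ⊥) (hz : 0 < z.im) {x : 𝓞 K} (hx : x ≠ 0)
    (h𝔞 : 𝔞 * 𝔟 = Ideal.span {x}) :
    Integrable (TT w₁ w₂ e0 (ν w₁) ψ (kk (fun _ => e0) ν) 𝔟 z x) ∧
    ∫ v : ℝ, TT w₁ w₂ e0 (ν w₁) ψ (kk (fun _ => e0) ν) 𝔟 z x v =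
      ψ 𝔞 * ((KB (ν w₁) (2 * Real.pi * (Ideal.absNorm 𝔞 : ℕ) * z.im) *
        cs e0 (2 * Real.pi * (Ideal.absNorm 𝔞 : ℕ) * z.re) : ℝ) : ℂ) := by
  have hN := absNorm_pos h𝔟
  have hx' : (x : K) ≠ 0 := coe_ne hx
  obtain ⟨h1, h2⟩ := hKBI (ν w₁) (z.im / (Ideal.absNorm 𝔟 : ℝ)) (rl w₁ (x : K)) (rl w₂ (x : K))
    (by positivity) (rl_ne hx') (rl_ne hx')
  have hG : (fun v : ℝ => GG w₁ w₂ (ν w₁) 𝔟 z x v) = fun v : ℝ => ((Real.exp (-(Real.pi *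
      (z.im / (Ideal.absNorm 𝔟 : ℝ)) * (rl w₁ (x : K) ^ 2 * Real.exp v +
      rl w₂ (x : K) ^ 2 * Real.exp (-v)))) : ℝ) : ℂ) * cexp (-(I * (ν w₁ : ℝ) * v)) := rfl
  rw [← hG] at h1 h2
  refine ⟨h1.const_mul _, ?_⟩
  unfold TT
  rw [integral_const_mul, h2]
  -- the norm
  have hprod : |rl w₁ (x : K) * rl w₂ (x : K)| = (Ideal.absNorm 𝔞 : ℝ) * (Ideal.absNorm 𝔟 : ℝ) := by
    have h3 := norm_prod_rl hr x
    rw [prod_two hne huniv] at h3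
    rw [h3, ← Nat.cast_mul, ← map_mul, h𝔞, Ideal.absNorm_span_singleton]
    rw [Nat.cast_natAbs, Int.cast_abs]
  have hnorm : (Algebra.norm ℤ x : ℝ) / (Ideal.absNorm 𝔟 : ℝ) =
      ((SignType.sign (Algebra.norm ℤ x) : ℤ) : ℝ) * (Ideal.absNorm 𝔞 : ℝ) := by
    have h3 := norm_prod_rl hr x
    rw [prod_two hne huniv] at h3
    rw [h3] at hprod
    rw [div_eq_iff hN.ne', mul_assoc, ← hprod]
    have h4 : ((Algebra.norm ℤ x : ℤ) : ℝ) = ((SignType.sign (Algebra.norm ℤ x) * |Algebra.norm ℤ x| : ℤ) : ℝ) := by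
      rw [sign_mul_abs]
    refine h4.trans ?_
    push_cast
    rfl
  have hsgn : (SignType.sign (Algebra.norm ℤ x) : ℤ) = 1 ∨ (SignType.sign (Algebra.norm ℤ x) : ℤ) = -1 := by
    rcases lt_or_gt_of_ne (norm_ne hx) with h | h
    · right; rw [sign_neg h]; rfl
    · left; rw [sign_pos h]; rfl
  rw [hprod, hnorm]
  have e1 : 2 * Real.pi * z.re * (((SignType.sign (Algebra.norm ℤ x) : ℤ) : ℝ) * (Ideal.absNorm 𝔞 : ℝ)) =
      ((SignType.sign (Algebra.norm ℤ x) : ℤ) : ℝ) * (2 * Real.pi * (Ideal.absNorm 𝔞 : ℝ) * z.re) := by ring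
  rw [e1, cs_sgn _ hsgn]
  have e2 : 2 * Real.pi * ((Ideal.absNorm 𝔞 : ℝ) * (Ideal.absNorm 𝔟 : ℝ)) *
      (z.im / (Ideal.absNorm 𝔟 : ℝ)) = 2 * Real.pi * (Ideal.absNorm 𝔞 : ℝ) * z.im := by
    field_simp
  rw [e2]
  unfold Pk
  rw [qt_eq h𝔟 h𝔞, kk_eq hr hne huniv hν]
  have e3 : Real.log |rl w₁ (x : K) / rl w₂ (x : K)| = Real.log (w₁ (x : K)) - Real.log (w₂ (x : K)) := by
    rw [abs_div, abs_rl, abs_rl, Real.log_div]
    · exact (InfinitePlace.pos_iff.2 hx').ne'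
    · exact (InfinitePlace.pos_iff.2 hx').ne'
  rw [e3]
  have e4 : sgN x ^ e0 * (((SignType.sign (Algebra.norm ℤ x) : ℤ) : ℂ)) ^ e0 = 1 := by
    have : (((SignType.sign (Algebra.norm ℤ x) : ℤ) : ℂ)) = sgN x := rfl
    rw [this, ← mul_pow, sgN_sq hx, one_pow]
  have e5 : cexp (-(I * ((ν w₁ * (Real.log (w₁ (x : K)) - Real.log (w₂ (x : K))) : ℝ) : ℂ))) *
      cexp (I * (ν w₁ : ℝ) * ((Real.log (w₁ (x : K)) - Real.log (w₂ (x : K)) : ℝ) : ℂ)) = 1 := by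
    rw [← Complex.exp_add, ← Complex.exp_zero]
    congr 1
    push_cast
    ring
  push_cast at e4 e5 ⊢
  linear_combination (ψ 𝔞 * (cs e0 (2 * Real.pi * (Ideal.absNorm 𝔞 : ℝ) * z.re) : ℝ) *
    (KB (ν w₁) (2 * Real.pi * (Ideal.absNorm 𝔞 : ℝ) * z.im) : ℝ)) * e4 * (cexp (-(I * (ν w₁ * (Real.log (w₁ (x : K)) - Real.log (w₂ (x : K)))))) *
      cexp (I * (ν w₁ : ℝ) * ((Real.log (w₁ (x : K)) - Real.log (w₂ (x : K)))))) + (ψ 𝔞 * (cs e0 (2 * Real.pi * (Ideal.absNorm 𝔞 : ℝ) * z.re) : ℝ) *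
    (KB (ν w₁) (2 * Real.pi * (Ideal.absNorm 𝔞 : ℝ) * z.im) : ℝ)) * e5

/-! ## sums over the units -/

lemma til2 (hTIL : S_TIL) {f : ℝ → ℂ} (hf : Integrable f) (hc : Continuous f) {P : ℝ} (hP : 0 < P) :
    HasSum (fun k : ℤ => ∫ v in (0 : ℝ)..(2 * P), f (v + k * P)) (2 * ∫ v : ℝ, f v) := by
  have h1 := hTIL f hf P hP
  have h2 := (Equiv.addRight (1 : ℤ)).hasSum_iff.2 h1
  have h3 := h1.add h2
  rw [two_mul (∫ v : ℝ, f v)]
  refine h3.congr_fun fun k => ?_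
  simp only [Function.comp_apply, Equiv.coe_addRight]
  have hi : ∀ a b : ℝ, IntervalIntegrable (fun v => f (v + k * P)) volume a b := fun a b =>
    (hc.comp (continuous_id.add continuous_const)).intervalIntegrable a b
  rw [← intervalIntegral.integral_add_adjacent_intervals (hi 0 P) (hi P (2 * P))]
  congr 1
  have h4 := intervalIntegral.integral_comp_add_right (a := 0) (b := P) (fun v => f (v + k * P)) P
  rw [zero_add] at h4
  have h5 : P + P = 2 * P := by ring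
  rw [h5] at h4
  rw [← h4]
  refine intervalIntegral.integral_congr fun v _ => ?_
  show f (v + P + k * P) = f (v + ((k + 1 : ℤ) : ℝ) * P)
  congr 1
  push_cast
  ring

lemma continuous_TT (x : 𝓞 K) : Continuous (TT w₁ w₂ e0 t ψ κ 𝔟 z x) := by
  unfold TT GG
  fun_prop

/-- the integral of the summand over two periods -/
noncomputable def II (w₁ w₂ : InfinitePlace K) (e0 : ℕ) (t : ℝ) (ψ : Ideal (𝓞 K) →*₀ ℂ) (κ : K → ℂ)
    (𝔟 : Ideal (𝓞 K)) (z : ℂ) (P : ℝ) (x : 𝓞 K) : ℂ :=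
  ∫ v in (0 : ℝ)..(2 * P), TT w₁ w₂ e0 t ψ κ 𝔟 z x v

lemma II_zero (h𝔟 : 𝔟 ≠ ⊥) (P : ℝ) : II w₁ w₂ e0 t ψ κ 𝔟 z P 0 = 0 := by
  unfold II TT
  simp_rw [Pk_zero h𝔟]
  simp

lemma II_notMem {x : 𝓞 K} (hx : x ∉ 𝔟) (P : ℝ) : II w₁ w₂ e0 t ψ κ 𝔟 z P x = 0 := by
  unfold II TT
  simp_rw [Pk_of_notMem hx]
  simp

/-- the function on the ideals -/
noncomputable def gi (t : ℝ) (e0 : ℕ) (z : ℂ) (n : ℕ) : ℂ :=
  ((KB t (2 * Real.pi * n * z.im) * cs e0 (2 * Real.pi * n * z.re) : ℝ) : ℂ)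

variable (K) in
lemma exists_fund (h2 : Module.finrank ℚ K = 2) (hr : ∀ w : InfinitePlace K, w.IsReal) :
    ∃ (w₁ w₂ : InfinitePlace K) (i₀ : Fin (rank K)), w₁ ≠ w₂ ∧ (∀ w, w = w₁ ∨ w = w₂) ∧
      (∀ i : Fin (rank K), i = i₀) ∧ 0 < Real.log (w₁ ((fundSystem K i₀ : (𝓞 K)ˣ) : K)) := by
  obtain ⟨w₁, w₂, hne, huniv⟩ := two_places h2 hr
  have hrk := rank_one h2 hr
  set i₀ : Fin (rank K) := ⟨0, by rw [hrk]; norm_num⟩ with hi₀
  have hi : ∀ i : Fin (rank K), i = i₀ := by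
    intro i
    apply Fin.ext
    have := i.2
    rw [hi₀]
    simp only
    omega
  have h3 := log_unit hne huniv hr (fundSystem K i₀)
  have h4 : Real.log (w₁ ((fundSystem K i₀ : (𝓞 K)ˣ) : K)) ≠ 0 := by
    intro h0
    have h5 : ∀ w : InfinitePlace K, w ((fundSystem K i₀ : (𝓞 K)ˣ) : K) = 1 := by
      intro w
      have h6 : Real.log (w ((fundSystem K i₀ : (𝓞 K)ˣ) : K)) = 0 := by
        rcases huniv w with rfl | rfl
        · exact h0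
        · rw [h3, h0, neg_zero]
      rw [← Real.exp_log (pos_unit (fundSystem K i₀) w), h6, Real.exp_zero]
    have h7 : fundSystem K i₀ ∈ torsion K := (mem_torsion K).2 h5
    have h9 := logEmbedding_fundSystem K i₀
    have h10 : logEmbedding K (Additive.ofMul (fundSystem K i₀)) = 0 :=
      logEmbedding_eq_zero_iff.2 h7
    have h11 := (basisUnitLattice K).ne_zero i₀
    apply h11
    apply Subtype.ext
    rw [← h9, h10]
    rfl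
  rcases lt_or_gt_of_ne h4 with h | h
  · refine ⟨w₂, w₁, i₀, hne.symm, fun w => (huniv w).symm, hi, ?_⟩
    rw [h3]
    linarith
  · exact ⟨w₁, w₂, i₀, hne, huniv, hi, h⟩

/-- the sum over the units -/
lemma unit_sum (hTIL : S_TIL) (hKBI : S_KBI) (hr : ∀ w : InfinitePlace K, w.IsReal) (hne : w₁ ≠ w₂)
    (huniv : ∀ w, w = w₁ ∨ w = w₂) {i₀ : Fin (rank K)} (hi : ∀ i : Fin (rank K), i = i₀)
    (hlog : 0 < Real.log (w₁ ((fundSystem K i₀ : (𝓞 K)ˣ) : K)))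
    {ν : InfinitePlace K → ℝ} (hν : ∑ w, ν w = 0) (h𝔟 : 𝔟 ≠ ⊥) (hz : 0 < z.im)
    (J : PIdl K) {𝔞 : Ideal (𝓞 K)} (h𝔞 : 𝔞 * 𝔟 = J.1) :
    HasSum (fun q : torsion K × (Fin (rank K) → ℤ) =>
      II w₁ w₂ e0 (ν w₁) ψ (kk (fun _ => e0) ν) 𝔟 z
        (2 * Real.log (w₁ ((fundSystem K i₀ : (𝓞 K)ˣ) : K))) (xE K (J, q)).1)
      ((Nat.card (torsion K) : ℂ) * (2 * (ψ 𝔞 * gi (ν w₁) e0 z (Ideal.absNorm 𝔞)))) := by
  classical
  have : Fintype (torsion K) := Fintype.ofFinite _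
  set P := 2 * Real.log (w₁ ((fundSystem K i₀ : (𝓞 K)ˣ) : K)) with hP
  have hP0 : 0 < P := by positivity
  have hg0 := gen_ne_zero J
  have hJ : 𝔞 * 𝔟 = Ideal.span {gen J} := by rw [h𝔞, span_gen]
  obtain ⟨h1, h2⟩ := TT_int (ψ := ψ) (e0 := e0) hKBI hr hne huniv hν h𝔟 hz hg0 hJ
  have hval : ∀ (ζ : torsion K) (m : Fin (rank K) → ℤ),
      II w₁ w₂ e0 (ν w₁) ψ (kk (fun _ => e0) ν) 𝔟 z P (xE K (J, (ζ, m))).1 =
      ∫ v in (0 : ℝ)..(2 * P), TT w₁ w₂ e0 (ν w₁) ψ (kk (fun _ => e0) ν) 𝔟 z (gen J) (v + (m i₀ : ℤ) * P) := by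
    intro ζ m
    unfold II
    refine intervalIntegral.integral_congr fun v _ => ?_
    have h3 : (xE K (J, (ζ, m))).1 = (unE K (ζ, m) : 𝓞 K) * gen J := rfl
    rw [h3, TT_unit hne huniv hr hν h𝔟]
    congr 2
    have h4 := place_unE K ζ m w₁
    have h5 : ((unE K (ζ, m) : 𝓞 K) : K) = ((unE K (ζ, m) : (𝓞 K)ˣ) : K) := rfl
    rw [h5, h4, Real.log_exp]
    have h6 : (Finset.univ : Finset (Fin (rank K))) = {i₀} := by
      ext i
      simp [hi i]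
    rw [h6, Finset.sum_singleton, hP]
    ring
  let E : (Fin (rank K) → ℤ) ≃ ℤ :=
    { toFun := fun m => m i₀
      invFun := fun k _ => k
      left_inv := fun m => by
        funext i
        rw [hi i]
      right_inv := fun k => rfl }
  have h3 := til2 hTIL h1 (continuous_TT _) hP0
  have h4 := E.hasSum_iff.2 h3
  have h5 : HasSum (fun q : torsion K × (Fin (rank K) → ℤ) =>
      II w₁ w₂ e0 (ν w₁) ψ (kk (fun _ => e0) ν) 𝔟 z P (xE K (J, q)).1)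
      (∑ ζ : torsion K, 2 * ∫ v : ℝ, TT w₁ w₂ e0 (ν w₁) ψ (kk (fun _ => e0) ν) 𝔟 z (gen J) v) := by
    have h6 : ∀ ζ : torsion K, HasSum (fun m : Fin (rank K) → ℤ =>
        II w₁ w₂ e0 (ν w₁) ψ (kk (fun _ => e0) ν) 𝔟 z P (xE K (J, (ζ, m))).1)
        (2 * ∫ v : ℝ, TT w₁ w₂ e0 (ν w₁) ψ (kk (fun _ => e0) ν) 𝔟 z (gen J) v) := by
      intro ζ
      refine h4.congr_fun fun m => ?_
      rw [hval]
      rfl
    have h7 : Summable fun q : torsion K × (Fin (rank K) → ℤ) =>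
        II w₁ w₂ e0 (ν w₁) ψ (kk (fun _ => e0) ν) 𝔟 z P (xE K (J, q)).1 := by
      have h8 : Summable fun m : Fin (rank K) → ℤ =>
          ‖∫ v in (0 : ℝ)..(2 * P), TT w₁ w₂ e0 (ν w₁) ψ (kk (fun _ => e0) ν) 𝔟 z (gen J)
            (v + (m i₀ : ℤ) * P)‖ := (h4.summable.norm).congr fun m => rfl
      refine Summable.of_norm ?_
      have h9 : Summable fun q : torsion K × (Fin (rank K) → ℤ) => (1 : ℝ) *
          ‖∫ v in (0 : ℝ)..(2 * P), TT w₁ w₂ e0 (ν w₁) ψ (kk (fun _ => e0) ν) 𝔟 z (gen J)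
            (v + (q.2 i₀ : ℤ) * P)‖ :=
        Summable.mul_of_nonneg (f := fun _ : torsion K => (1 : ℝ)) (hasSum_fintype _).summable h8
          (fun _ => zero_le_one) (fun _ => norm_nonneg _)
      refine h9.congr fun q => ?_
      rw [one_mul, show q = (q.1, q.2) from rfl, hval]
    have h10 := HasSum.prod_fiberwise h7.hasSum h6
    have h11 := hasSum_fintype (fun _ : torsion K =>
      2 * ∫ v : ℝ, TT w₁ w₂ e0 (ν w₁) ψ (kk (fun _ => e0) ν) 𝔟 z (gen J) v)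
    rw [h11.unique h10]
    exact h7.hasSum
  rw [Finset.sum_const, Finset.card_univ, nsmul_eq_mul, ← Nat.card_eq_fintype_card, h2] at h5
  exact h5

set_option maxHeartbeats 1000000 in
/-- the sum over a class -/
lemma class_sum (hTIL : S_TIL) (hKBI : S_KBI) (hr : ∀ w : InfinitePlace K, w.IsReal) (hne : w₁ ≠ w₂)
    (huniv : ∀ w, w = w₁ ∨ w = w₂) {i₀ : Fin (rank K)} (hi : ∀ i : Fin (rank K), i = i₀)
    (hlog : 0 < Real.log (w₁ ((fundSystem K i₀ : (𝓞 K)ˣ) : K)))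
    {ν : InfinitePlace K → ℝ} (hν : ∑ w, ν w = 0) (h𝔟 : 𝔟 ≠ ⊥) (hz : 0 < z.im) {S : ℂ}
    (hS : HasSum (fun x : 𝓞 K => II w₁ w₂ e0 (ν w₁) ψ (kk (fun _ => e0) ν) 𝔟 z
        (2 * Real.log (w₁ ((fundSystem K i₀ : (𝓞 K)ˣ) : K))) x) S) :
    HasSum ((Sc 𝔟).indicator fun 𝔞 : Ideal (𝓞 K) =>
      (Nat.card (torsion K) : ℂ) * (2 * (ψ 𝔞 * gi (ν w₁) e0 z (Ideal.absNorm 𝔞)))) S := by
  classical
  set P := 2 * Real.log (w₁ ((fundSystem K i₀ : (𝓞 K)ˣ) : K)) with hP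
  set f : 𝓞 K → ℂ := II w₁ w₂ e0 (ν w₁) ψ (kk (fun _ => e0) ν) 𝔟 z P with hf
  -- nonzero elements
  have h1 : HasSum (fun x : {x : 𝓞 K // x ≠ 0} => f x.1) S := by
    refine (Function.Injective.hasSum_iff (f := f) Subtype.val_injective ?_).2 hS
    intro x hx
    have : x = 0 := by
      by_contra h0
      exact hx ⟨⟨x, h0⟩, rfl⟩
    rw [this, hf, II_zero h𝔟]
  have h2 : HasSum (fun q : PIdl K × (torsion K × (Fin (rank K) → ℤ)) => f (xE K q).1) S :=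
    (xE K).hasSum_iff.2 h1
  -- the fibres
  set G : PIdl K → ℂ := fun J => ∑' q : torsion K × (Fin (rank K) → ℤ), f (xE K (J, q)).1 with hG
  have h3 : HasSum G S := HasSum.prod_fiberwise h2 (fun J => (h2.summable.prod_factor J).hasSum)
  -- back to the ideals
  let i : Sc 𝔟 → PIdl K := fun 𝔞 => ⟨𝔞.1 * 𝔟, mul_ne_zero 𝔞.2.1 h𝔟, 𝔞.2.2⟩
  have hinj : Function.Injective i := by
    intro a b h
    have h1 : a.1 * 𝔟 = b.1 * 𝔟 := congrArg Subtype.val h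
    exact Subtype.ext (mul_right_cancel₀ h𝔟 h1)
  have h4 : HasSum (fun 𝔞 : Sc 𝔟 => G (i 𝔞)) S := by
    refine (Function.Injective.hasSum_iff (f := G) hinj ?_).2 h3
    intro J hJ
    have h5 : gen J ∉ 𝔟 := by
      intro h6
      obtain ⟨𝔞, h𝔞⟩ := Pool.Agent.Y773.G.mem_iff_exists_mul.mp h6
      rw [span_gen] at h𝔞
      apply hJ
      refine ⟨⟨𝔞, ?_, ?_⟩, Subtype.ext h𝔞⟩
      · rintro rfl
        apply J.2.1
        rw [← h𝔞, Ideal.bot_mul]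
      · rw [h𝔞]
        exact J.2.2
    have h7 : ∀ q : torsion K × (Fin (rank K) → ℤ), f (xE K (J, q)).1 = 0 := by
      intro q
      apply II_notMem
      intro h8
      have h9 : (xE K (J, q)).1 = (unE K q : 𝓞 K) * gen J := rfl
      rw [h9] at h8
      exact h5 ((Ideal.unit_mul_mem_iff_mem 𝔟 (unE K q).isUnit).1 h8)
    rw [hG]
    simp only [h7, tsum_zero]
  have h5 : HasSum (fun 𝔞 : Sc 𝔟 => (Nat.card (torsion K) : ℂ) *
      (2 * (ψ 𝔞 * gi (ν w₁) e0 z (Ideal.absNorm (𝔞 : Ideal (𝓞 K)))))) S := by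
    refine h4.congr_fun fun 𝔞 => ?_
    have h6 := unit_sum (ψ := ψ) (e0 := e0) hTIL hKBI hr hne huniv hi hlog hν h𝔟 hz (i 𝔞)
      (𝔞 := 𝔞.1) rfl
    rw [← h6.tsum_eq]
  exact (hasSum_subtype_iff_indicator (f := fun 𝔞 : Ideal (𝓞 K) =>
      (Nat.card (torsion K) : ℂ) * (2 * (ψ 𝔞 * gi (ν w₁) e0 z (Ideal.absNorm 𝔞)))) (s := Sc 𝔟)).1 h5

/-- the sum over the classes -/
lemma total_sum {𝔟 : ClassGroup (𝓞 K) → Ideal (𝓞 K)} (h𝔟 : Reps 𝔟) {g : Ideal (𝓞 K) → ℂ}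
    (hg : g ⊥ = 0) {S : ClassGroup (𝓞 K) → ℂ}
    (hS : ∀ c, HasSum ((Sc (𝔟 c)).indicator g) (S c)) : HasSum g (∑ c, S c) := by
  classical
  have h1 := hasSum_sum (s := Finset.univ) fun c (_ : c ∈ Finset.univ) => hS c
  refine h1.congr_fun fun 𝔞 => ?_
  by_cases h𝔞 : 𝔞 = ⊥
  · rw [h𝔞, hg]
    symm
    refine Finset.sum_eq_zero fun c _ => ?_
    rw [Set.indicator_of_notMem]
    exact fun h => h.1 rfl
  · obtain ⟨c, hc, huniq⟩ := exists_unique_class h𝔟 h𝔞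
    rw [Finset.sum_eq_single c]
    · rw [Set.indicator_of_mem hc]
    · intro c' _ hc'
      rw [Set.indicator_of_notMem]
      exact fun h => hc' (huniq c' h)
    · intro h
      exact absurd (Finset.mem_univ c) h

/-! ## the theta integrals -/

lemma norm_phase (t v : ℝ) : ‖cexp (-(I * t * v))‖ = 1 := by
  have e : -(I * (t : ℂ) * v) = ((-(t * v) : ℝ) : ℂ) * I := by
    push_cast
    ring
  rw [e, norm_exp_ofReal_mul_I]

/-- termwise integration -/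
lemma H_hasSum (hSUM : S_SUM) {D : ℕ} (hD : 0 < D) (F : Fm D) {Φ : ℤ × ℤ → ℂ} {C : ℝ}
    (hC : ∀ p, ‖Φ p‖ ≤ C) (t : ℝ) {P : ℝ} (hP : 0 < P) {z : ℂ} (hz : 0 < z.im) :
    HasSum (fun p : ℤ × ℤ => ∫ v in (0 : ℝ)..P, (√z.im : ℝ) * (Φ p * F.gs z v p) * cexp (-(I * t * v)))
      (F.H t P Φ z) := by
  obtain ⟨g, hg, hb⟩ := hSUM D hD F P z.im hz
  have hb' : ∀ v ∈ Set.uIoc 0 P, ∀ p, ‖F.gs z v p‖ ≤ g p := by
    intro v hv p
    rw [Set.uIoc_of_le hP.le] at hv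
    exact hb z v le_rfl (by rw [abs_of_pos hv.1]; exact hv.2) p
  have hs : ∀ v ∈ Set.uIoc 0 P, Summable fun p => Φ p * F.gs z v p := by
    intro v hv
    refine Summable.of_norm_bounded (hg.mul_left C) fun p => ?_
    rw [norm_mul]
    exact mul_le_mul (hC p) (hb' v hv p) (norm_nonneg _) ((norm_nonneg _).trans (hC p))
  unfold Fm.H Fm.th
  refine intervalIntegral.hasSum_integral_of_dominated_convergence
    (fun p _ => √z.im * (C * g p)) ?_ ?_ ?_ ?_ ?_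
  · intro p
    have h1 : Continuous fun v : ℝ => (√z.im : ℝ) * (Φ p * F.gs z v p) * cexp (-(I * t * v)) := by
      unfold Fm.gs Fm.gsR Fm.maj
      fun_prop
    exact h1.aestronglyMeasurable
  · intro p
    refine Filter.Eventually.of_forall fun v hv => ?_
    rw [norm_mul, norm_phase, mul_one, norm_mul, norm_mul, Complex.norm_real, Real.norm_of_nonneg (Real.sqrt_nonneg _)]
    refine mul_le_mul_of_nonneg_left ?_ (Real.sqrt_nonneg _)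
    exact mul_le_mul (hC p) (hb' v hv p) (norm_nonneg _) ((norm_nonneg _).trans (hC p))
  · exact Filter.Eventually.of_forall fun v _ => (hg.mul_left C).mul_left _
  · exact intervalIntegrable_const
  · refine Filter.Eventually.of_forall fun v hv => ?_
    exact ((hs v hv).hasSum.mul_left _).mul_right _

/-- the relation of the two kinds of summands -/
lemma gs_TT {D : ℕ} (F : Fm D) {α β : 𝓞 K} (h𝔟 : 𝔟 ≠ ⊥)
    (hq : ∀ p, (Ideal.absNorm 𝔟 : ℤ) * F.q p = Algebra.norm ℤ (el α β p))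
    (h1 : ∀ p : ℤ × ℤ, √(Ideal.absNorm 𝔟 : ℝ) * (F.a1 * p.1 + F.b1 * p.2) = rl w₁ (el α β p : K))
    (h2 : ∀ p : ℤ × ℤ, √(Ideal.absNorm 𝔟 : ℝ) * (F.a2 * p.1 + F.b2 * p.2) = rl w₂ (el α β p : K))
    (p : ℤ × ℤ) (v : ℝ) :
    (Pk ψ κ 𝔟 (el α β p) * F.gs z v p + (-1) ^ e0 * (Pk ψ κ 𝔟 (el α β p) * F.gs (rf true z) v p)) *
      cexp (-(I * t * v)) = cst e0 * TT w₁ w₂ e0 t ψ κ 𝔟 z (el α β p) v := by
  have hN := absNorm_pos h𝔟
  have hsq : √(Ideal.absNorm 𝔟 : ℝ) ^ 2 = (Ideal.absNorm 𝔟 : ℝ) := Real.sq_sqrt hN.le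
  have hqR : F.qR p.1 p.2 = (Algebra.norm ℤ (el α β p) : ℝ) / (Ideal.absNorm 𝔟 : ℝ) := by
    rw [← hq p, eq_div_iff hN.ne']
    unfold Fm.qR Fm.q
    push_cast
    ring
  have hmaj : F.maj v p.1 p.2 = (1 / (Ideal.absNorm 𝔟 : ℝ)) * (rl w₁ (el α β p : K) ^ 2 * Real.exp v +
      rl w₂ (el α β p : K) ^ 2 * Real.exp (-v)) := by
    rw [← h1 p, ← h2 p, mul_pow, mul_pow, hsq]
    unfold Fm.maj
    field_simp
  set X := F.qR p.1 p.2 with hX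
  set G := (1 / (Ideal.absNorm 𝔟 : ℝ)) * (rl w₁ (el α β p : K) ^ 2 * Real.exp v +
      rl w₂ (el α β p : K) ^ 2 * Real.exp (-v)) with hG
  have him : (rf true z).im = z.im := by
    unfold rf
    simp
  have hre : (rf true z).re = -z.re := by
    unfold rf
    simp
  have e1 : F.gs z v p = cexp (((2 * Real.pi * z.re * X : ℝ) : ℂ) * I) *
      ((Real.exp (-(Real.pi * z.im * G)) : ℝ) : ℂ) := by
    unfold Fm.gs Fm.gsR
    rw [← hX, hmaj, Complex.ofReal_exp, ← Complex.exp_add]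
    congr 1
    push_cast
    ring
  have e2 : F.gs (rf true z) v p = cexp (-(((2 * Real.pi * z.re * X : ℝ) : ℂ) * I)) *
      ((Real.exp (-(Real.pi * z.im * G)) : ℝ) : ℂ) := by
    unfold Fm.gs Fm.gsR
    rw [← hX, hmaj, him, hre, Complex.ofReal_exp, ← Complex.exp_add]
    congr 1
    push_cast
    ring
  have e3 := exp_cs e0 (2 * Real.pi * z.re * X)
  have e4 : GG w₁ w₂ t 𝔟 z (el α β p) v = ((Real.exp (-(Real.pi * z.im * G)) : ℝ) : ℂ) *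
      cexp (-(I * t * v)) := by
    unfold GG
    congr 3
    rw [hG]
    ring
  unfold TT
  rw [e1, e2, e4, ← hqR]
  linear_combination (Pk ψ κ 𝔟 (el α β p) * ((Real.exp (-(Real.pi * z.im * G)) : ℝ) : ℂ) *
      cexp (-(I * t * v))) * e3

end

end Pool.Agent.H505.MF
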