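import Pool.Agent.H505.MF.Unf
import Pool.Agent.H505.MF.KBI
import Pool.Agent.H505.MF.BAS
import Pool.Agent.H505.MF.COE
import Pool.Agent.H505.MF.POI

/-!
# Project MF: the Maass form as a sum of theta integrals
-/

set_option autoImplicit false
set_option linter.unusedSectionVars false
set_option linter.unusedVariables false

open NumberField Complex MeasureTheory Filter Topology
open NumberField.Units NumberField.Units.dirichletUnitTheorem
open Pool.Agent.Y773 (PIdl gen toP xE unE span_gen gen_ne_zero place_unE qt_eq qt_spec Sc Reps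
  exists_unique_class qt qt_eq_bot)
open Pool.Agent.Y773.G (rl sg abs_rl)
open Pool.Agent.Y772.G (rl_ne)
open Pool.Agent.Y767 (ax)
open Pool.Agent.Y773.G.GH (kk Pk IsModK Kap kap_kk Pk_unit_smul Pk_of_notMem Pk_zero Pk_of_eq
  norm_Pk_le)
open Pool.Agent.Y672.DM (KB)

namespace Pool.Agent.H505.MF

section

variable {K : Type} [Field K] [NumberField K]

variable (K) in
lemma exists_reps : ∃ 𝔟 : ClassGroup (𝓞 K) → Ideal (𝓞 K), Reps 𝔟 := by
  have h : ∀ c : ClassGroup (𝓞 K), ∃ I : nonZeroDivisors (Ideal (𝓞 K)), ClassGroup.mk0 I = c :=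
    fun c => ClassGroup.mk0_surjective c
  choose f hf using h
  refine ⟨fun c => (f c : Ideal (𝓞 K)), fun c => nonZeroDivisors.coe_ne_zero (f c), ?_⟩
  have : (fun c => ClassGroup.mk0 ⟨((f c : Ideal (𝓞 K))), mem_nonZeroDivisors_of_ne_zero
      (nonZeroDivisors.coe_ne_zero (f c))⟩) = id := by
    funext c
    exact hf c
  rw [this]
  exact Function.bijective_id

variable {B : QB K} {M : ℕ} [NeZero M] {hM : (M : ℤ) = B.D} {hM2 : ¬ 2 ∣ M}

lemma not_sq (h2 : Module.finrank ℚ K = 2) (hM : (M : ℤ) = B.D) (hM2 : ¬ 2 ∣ M) : ¬ IsSquare M := by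
  rintro ⟨k, hk⟩
  have h3 := D_sqfree B hM hM2
  have h4 : IsUnit k := h3 k ⟨1, by rw [hk, mul_one]⟩
  rw [Nat.isUnit_iff] at h4
  have h5 := D_ne_one B h2
  apply h5
  rw [← hM, hk, h4]
  norm_num

/-- the weight functions -/
lemma wt_Pk (h2 : Module.finrank ℚ K = 2) (hr : ∀ w : InfinitePlace K, w.IsReal) {e0 : ℕ}
    {ν : InfinitePlace K → ℝ} (hν : ∑ w, ν w = 0) {ψ : Ideal (𝓞 K) →*₀ ℂ} (hψ : PsiF hM hM2 e0 ν ψ)
    {𝔟 : Ideal (𝓞 K)} (h𝔟 : 𝔟 ≠ ⊥) (F : Fm M) {α β : 𝓞 K} (hmem : ∀ p, el α β p ∈ 𝔟)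
    {s : ℤ} (hs : ∀ p, el α β (F.M p) = (s : 𝓞 K) * (B.rt * el α β p)) :
    Wt M F (fun p => Pk ψ (kk (fun _ => e0) ν) 𝔟 (el α β p)) := by
  have hmod := hψ.mod h2 hr hν
  have hadd : ∀ p q : ℤ × ℤ, el α β (p + q) = el α β p + el α β q := by
    intro p q
    unfold el
    simp only [Prod.fst_add, Prod.snd_add]
    push_cast
    ring
  refine ⟨fun p m => ?_, fun n p hn => ?_⟩
  · refine hmod.per h𝔟 ?_
    rw [hadd, add_sub_cancel_left, hs]
    refine Ideal.mul_mem_left _ _ ?_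
    rw [mul_comm B.rt]
    exact Ideal.mul_mem_mul (hmem m) (Ideal.mem_span_singleton_self _)
  · have h3 : el α β ((n : ℤ) * p.1, (n : ℤ) * p.2) = (n : 𝓞 K) * el α β p := by
      unfold el
      push_cast
      ring
    show Pk ψ (kk (fun _ => e0) ν) 𝔟 (el α β ((n : ℤ) * p.1, (n : ℤ) * p.2)) = _
    rw [h3]
    set x := el α β p with hx
    obtain ⟨𝔞, h𝔞⟩ := Pool.Agent.Y773.G.mem_iff_exists_mul.mp (hmem p)
    rw [← hx] at h𝔞
    have h4 : (Ideal.span {(n : 𝓞 K)} * 𝔞) * 𝔟 = Ideal.span {(n : 𝓞 K) * x} := by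
      rw [mul_assoc, h𝔞, Ideal.span_singleton_mul_span_singleton]
    rw [Pk_of_eq h𝔟 h4, Pk_of_eq h𝔟 h𝔞, map_mul, psi_nat h2 hr hν hψ n]
    by_cases hx0 : x = 0
    · have h5 : ψ 𝔞 = 0 := by
        have h6 : 𝔞 = ⊥ := by
          rw [hx0, Ideal.span_singleton_eq_bot.2 rfl] at h𝔞
          rcases mul_eq_zero.1 (h𝔞 : 𝔞 * 𝔟 = 0) with h | h
          · exact h
          · exact absurd h h𝔟
        rw [h6, ← Ideal.zero_eq_bot, map_zero]
      rw [h5]
      ring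
    · have hn0 : n ≠ 0 := by
        rintro rfl
        rw [Nat.coprime_zero_left] at hn
        have h5 := D_ne_one B h2
        apply h5
        rw [← hM, hn]
        norm_num
      have hκ := kap_kk (fun _ : InfinitePlace K => e0) hν
      have h7 : (((n : 𝓞 K) * x : 𝓞 K) : K) = (n : K) * (x : K) := by
        rw [coe_mul']
        congr 1
      rw [h7, hκ.mul _ _ (by exact_mod_cast hn0) (coe_ne hx0), hκ.nat n (Nat.pos_of_ne_zero hn0)]
      ring

/-- **unfolding** -/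
theorem unf (h2 : Module.finrank ℚ K = 2) (hr : ∀ w : InfinitePlace K, w.IsReal) {e0 : ℕ}
    {ν : InfinitePlace K → ℝ} (hν : ∑ w, ν w = 0) {ψ : Ideal (𝓞 K) →*₀ ℂ} (hψ : PsiF hM hM2 e0 ν ψ)
    (hB : Base B e0 ν ψ) :
    ∃ (w₁ : InfinitePlace K) (F : ClassGroup (𝓞 K) → Fm M) (Pw : ClassGroup (𝓞 K) → ℤ × ℤ → ℂ)
      (P : ℝ) (C : ℂ), 0 < P ∧ cexp (I * (ν w₁ : ℝ) * P) = 1 ∧ C ≠ 0 ∧ (∀ c, (F c).A ≠ 0) ∧
      (∀ c, Wt M (F c) (Pw c)) ∧ ∀ z : ℂ, 0 < z.im →
        ∑ c, ((F c).H (ν w₁) P (Pw c) z + (-1) ^ e0 * (F c).H (ν w₁) P (Pw c) (rf true z)) =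
          C * UU (ν w₁) e0 (cfa ψ) z := by
  classical
  obtain ⟨w₁, w₂, i₀, hne, huniv, hi, hlog⟩ := exists_fund K h2 hr
  obtain ⟨𝔟, h𝔟⟩ := exists_reps K
  have hMpos : 0 < M := Nat.pos_of_ne_zero (NeZero.ne M)
  have hex := fun c => BAS.main K B hr w₁ w₂ hne huniv M hM (not_sq h2 hM hM2) (𝔟 c) (h𝔟.ne_bot c)
  choose F α β hA hmem hbij hq hl1 hl2 s hs1 hs2 using hex
  set L := Real.log (w₁ ((fundSystem K i₀ : (𝓞 K)ˣ) : K)) with hL
  set κ : K → ℂ := kk (fun _ => e0) ν with hκdef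
  have hκ : Kap κ := kap_kk _ hν
  have hmod := hψ.mod h2 hr hν
  set W : ℂ := (Nat.card (torsion K) : ℂ) with hW
  have hW0 : W ≠ 0 := by
    rw [hW]
    have : Finite (torsion K) := inferInstance
    exact_mod_cast Nat.card_pos.ne'
  refine ⟨w₁, F, fun c p => Pk ψ κ (𝔟 c) (el (α c) (β c) p), 2 * (2 * L), cst e0 * (W * 2),
    by positivity, ?_, mul_ne_zero (cst_ne e0) (mul_ne_zero hW0 two_ne_zero), hA,
    fun c => wt_Pk h2 hr hν hψ (h𝔟.ne_bot c) (F c) (hmem c) (hs2 c), fun z hz => ?_⟩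
  · -- the period
    have h3 : ψ (Ideal.span {(fundSystem K i₀ : 𝓞 K)}) = 1 := by
      rw [Ideal.span_singleton_eq_top.mpr (fundSystem K i₀).isUnit, ← Ideal.one_eq_top, map_one]
    have hcop : IsCoprime (Ideal.span {(fundSystem K i₀ : 𝓞 K)}) (Ideal.span {B.rt}) := by
      rw [Ideal.span_singleton_eq_top.mpr (fundSystem K i₀).isUnit, ← Ideal.one_eq_top]
      exact isCoprime_one_left
    rw [hψ.val _ hcop] at h3
    have h4 : jac M (red B hM hM2 (fundSystem K i₀ : 𝓞 K)) *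
        jac M (red B hM hM2 (fundSystem K i₀ : 𝓞 K)) = 1 :=
      sq_mul_self (jac_sq M) ((fundSystem K i₀).isUnit.map (red B hM hM2))
    have h5 : sgN (fundSystem K i₀ : 𝓞 K) ^ e0 * sgN (fundSystem K i₀ : 𝓞 K) ^ e0 = 1 := by
      rw [← mul_pow, sgN_sq (fundSystem K i₀).ne_zero, one_pow]
    have h6 : ax ν ((fundSystem K i₀ : 𝓞 K) : K) * ax ν ((fundSystem K i₀ : 𝓞 K) : K) = 1 := by
      set a := jac M (red B hM hM2 (fundSystem K i₀ : 𝓞 K))
      set b := sgN (fundSystem K i₀ : 𝓞 K) ^ e0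
      set c := ax ν ((fundSystem K i₀ : 𝓞 K) : K)
      have h7 : (a * b * c) * (a * b * c) = 1 := by rw [h3, one_mul]
      linear_combination h7 - (c * c * (b * b)) * h4 - (c * c) * h5
    have h7 : ax ν ((fundSystem K i₀ : 𝓞 K) : K) = cexp (I * (ν w₁ : ℝ) * (2 * L : ℝ)) := by
      unfold ax
      rw [sum_two hne huniv] at hν
      rw [sum_two hne huniv, log_unit hne huniv hr (fundSystem K i₀)]
      have h8 : ν w₂ = -ν w₁ := by linarith
      rw [h8, ← hL]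
      congr 1
      push_cast
      ring
    rw [h7, ← Complex.exp_add] at h6
    rw [← h6]
    congr 1
    push_cast
    ring
  · -- the sum
    have hPk : ∀ c p, ‖Pk ψ κ (𝔟 c) (el (α c) (β c) p)‖ ≤ 1 := fun c p =>
      norm_Pk_le hκ hmod.norm_le_one _ _
    have hrz : 0 < (rf true z).im := by
      unfold rf
      simpa using hz
    have hrim : (rf true z).im = z.im := by
      unfold rf
      simp
    set P := 2 * (2 * L) with hP
    have hP0 : 0 < P := by positivity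
    -- one class
    have hone : ∀ c, HasSum (fun x : 𝓞 K => II w₁ w₂ e0 (ν w₁) ψ κ (𝔟 c) z (2 * L) x)
        (((F c).H (ν w₁) P (fun p => Pk ψ κ (𝔟 c) (el (α c) (β c) p)) z +
          (-1) ^ e0 * (F c).H (ν w₁) P (fun p => Pk ψ κ (𝔟 c) (el (α c) (β c) p)) (rf true z)) /
            ((√z.im : ℝ) * cst e0)) := by
      intro c
      have a1 := H_hasSum POI.main.2.1 hMpos (F c) (hPk c) (ν w₁) hP0 hz
      have a2 := H_hasSum POI.main.2.1 hMpos (F c) (hPk c) (ν w₁) hP0 hrz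
      have a3 := (a1.add (a2.mul_left ((-1) ^ e0))).div_const ((√z.im : ℝ) * cst e0)
      have hsq0 : ((√z.im : ℝ) : ℂ) ≠ 0 := by
        have := Real.sqrt_pos.2 hz
        exact_mod_cast this.ne'
      have a4 : HasSum (fun p : ℤ × ℤ => II w₁ w₂ e0 (ν w₁) ψ κ (𝔟 c) z (2 * L)
          (el (α c) (β c) p)) (((F c).H (ν w₁) P (fun p => Pk ψ κ (𝔟 c) (el (α c) (β c) p)) z +
          (-1) ^ e0 * (F c).H (ν w₁) P (fun p => Pk ψ κ (𝔟 c) (el (α c) (β c) p)) (rf true z)) /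
            ((√z.im : ℝ) * cst e0)) := by
        refine a3.congr_fun fun p => ?_
        rw [hrim, eq_div_iff (mul_ne_zero hsq0 (cst_ne e0))]
        unfold II
        have hcont : ∀ w : ℂ, Continuous fun v : ℝ => ((√z.im : ℝ) : ℂ) *
            (Pk ψ κ (𝔟 c) (el (α c) (β c) p) * (F c).gs w v p) * cexp (-(I * (ν w₁ : ℝ) * v)) := by
          intro w
          unfold Fm.gs Fm.gsR Fm.maj
          fun_prop
        rw [← intervalIntegral.integral_const_mul ((-1) ^ e0),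
          ← intervalIntegral.integral_add ((hcont z).intervalIntegrable _ _)
            (((hcont (rf true z)).const_mul _).intervalIntegrable _ _),
          ← intervalIntegral.integral_mul_const]
        refine intervalIntegral.integral_congr fun v _ => ?_
        have a5 := gs_TT (w₁ := w₁) (w₂ := w₂) (e0 := e0) (t := ν w₁) (ψ := ψ) (κ := κ) (z := z)
          (F c) (h𝔟.ne_bot c) (hq c) (hl1 c) (hl2 c) p v
        show TT w₁ w₂ e0 (ν w₁) ψ κ (𝔟 c) z (el (α c) (β c) p) v * (((√z.im : ℝ) : ℂ) * cst e0) =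
          ((√z.im : ℝ) : ℂ) * (Pk ψ κ (𝔟 c) (el (α c) (β c) p) * (F c).gs z v p) *
            cexp (-(I * (ν w₁ : ℝ) * v)) + (-1) ^ e0 * (((√z.im : ℝ) : ℂ) *
              (Pk ψ κ (𝔟 c) (el (α c) (β c) p) * (F c).gs (rf true z) v p) *
                cexp (-(I * (ν w₁ : ℝ) * v)))
        linear_combination (-((√z.im : ℝ) : ℂ)) * a5
      have hinj : Function.Injective (el (α c) (β c)) := by
        intro p q hpq
        obtain ⟨r, hr1, hr2⟩ := hbij c (el (α c) (β c) p) (hmem c p)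
        rw [hr2 p rfl, hr2 q hpq.symm]
      refine (Function.Injective.hasSum_iff hinj ?_).1 a4
      intro x hx
      refine II_notMem (fun hxb => hx ?_) _
      obtain ⟨p, hp, -⟩ := hbij c x hxb
      exact ⟨p, hp⟩
    have htot := total_sum h𝔟 (g := fun 𝔞 : Ideal (𝓞 K) =>
      W * (2 * (ψ 𝔞 * gi (ν w₁) e0 z (Ideal.absNorm 𝔞))))
      (by
        rw [← Ideal.zero_eq_bot, map_zero]
        ring)
      (fun c => class_sum (ψ := ψ) (e0 := e0) KBI.main.2 KBI.main.1 hr hne huniv hi hlog hν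
        (h𝔟.ne_bot c) hz (hone c))
    obtain ⟨-, -, -, -, -, -, hcoe⟩ := COE.main K B M hM e0 ν ψ hB
    have hsum : Summable fun 𝔞 : Ideal (𝓞 K) => ψ 𝔞 * gi (ν w₁) e0 z (Ideal.absNorm 𝔞) := by
      have h3 := htot.summable.mul_left (W * 2)⁻¹
      refine h3.congr fun 𝔞 => ?_
      field_simp
    have h4 := hcoe (gi (ν w₁) e0 z) hsum
    have h5 : ∑' 𝔞 : Ideal (𝓞 K), W * (2 * (ψ 𝔞 * gi (ν w₁) e0 z (Ideal.absNorm 𝔞))) =
        W * 2 * ∑' 𝔞 : Ideal (𝓞 K), ψ 𝔞 * gi (ν w₁) e0 z (Ideal.absNorm 𝔞) := by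
      rw [← tsum_mul_left]
      exact tsum_congr fun 𝔞 => by ring
    have h6 : UU (ν w₁) e0 (cfa ψ) z = (√z.im : ℝ) * ∑' n : ℕ, cfa ψ n * gi (ν w₁) e0 z n := by
      unfold UU gi
      rw [← tsum_mul_left]
      refine tsum_congr fun n => ?_
      push_cast
      ring
    rw [h6, h4.tsum_eq]
    have h7 := htot.tsum_eq
    rw [h5, ← Finset.sum_div] at h7
    have hsq0 : ((√z.im : ℝ) : ℂ) ≠ 0 := by
      have := Real.sqrt_pos.2 hz
      exact_mod_cast this.ne'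
    rw [eq_div_iff (mul_ne_zero hsq0 (cst_ne e0))] at h7
    rw [← h7]
    ring

end

end Pool.Agent.H505.MF
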